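import Pool.Agent.Work.MP_b51559_nt.BG.B.Stmts

set_option autoImplicit false

/-!
# Bounded gaps, part B, item BV: the Bombieri-Vinogradov theorem for psi
-/

namespace MPb51559.BG.B

open Finset ArithmeticFunction
open Pool.Agent.Work.MP_122e00_nt (Prim)
open MPb51559.BG.A (psi)

theorem BV_log3 : (1.0939 : ℝ) ≤ Real.log 3 := by
  have he := Real.exp_one_lt_d9
  have hp := Real.exp_pos 1
  have h1 : Real.log 3 = 1 + Real.log (3 / Real.exp 1) := by
    rw [Real.log_div (by norm_num) hp.ne', Real.log_exp]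
    ring
  have h2 := Real.one_sub_inv_le_log_of_pos (show 0 < 3 / Real.exp 1 by positivity)
  have h3 : (3 / Real.exp 1)⁻¹ = Real.exp 1 / 3 := inv_div _ _
  rw [h3] at h2
  rw [h1]
  linarith

theorem BV_logN {N : ℕ} (hN : 3 ≤ N) : (1.0939 : ℝ) ≤ Real.log N := by
  refine BV_log3.trans (Real.log_le_log (by norm_num) ?_)
  exact_mod_cast hN

theorem BV_log_pow (A : ℝ) (hA : 0 < A) : ∃ c : ℝ, 0 < c ∧ ∀ N : ℕ, 3 ≤ N →
    Real.log N ^ (A + 2) ≤ c * √(N : ℝ) := by
  set e : ℝ := 1 / (2 * (A + 2)) with he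
  have he0 : 0 < e := by positivity
  refine ⟨(1 / e) ^ (A + 2), by positivity, ?_⟩
  intro N hN
  have hN0 : (0 : ℝ) ≤ N := Nat.cast_nonneg N
  have hl : 0 ≤ Real.log N := by
    have := BV_logN hN
    linarith
  have h1 : Real.log N ≤ (N : ℝ) ^ e / e := Real.log_le_rpow_div hN0 he0
  calc Real.log N ^ (A + 2) ≤ ((N : ℝ) ^ e / e) ^ (A + 2) :=
        Real.rpow_le_rpow hl h1 (by linarith)
    _ = (1 / e * (N : ℝ) ^ e) ^ (A + 2) := by
        congr 1
        ring
    _ = (1 / e) ^ (A + 2) * ((N : ℝ) ^ e) ^ (A + 2) :=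
        Real.mul_rpow (by positivity) (by positivity)
    _ = (1 / e) ^ (A + 2) * √(N : ℝ) := by
        rw [← Real.rpow_mul hN0, Real.sqrt_eq_rpow]
        congr 2
        rw [he]
        field_simp

theorem prf_BV (hOne : S_One) (hCop : S_Cop) (hSwp : S_Swp) (hSm : S_Sm) (hBig : S_Big) : StBV := by
  intro A hA
  obtain ⟨B, D, Cb, hB, hD, hCb, hbig⟩ := hBig (A + 2) (by linarith)
  obtain ⟨Cs, hCs, hsm⟩ := hSm (A + 2) (D + 8) (by linarith) (by linarith)
  obtain ⟨c, hc, hlp⟩ := BV_log_pow A hA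
  refine ⟨B, 6 * (Cs + Cb) + 2 * c, hB, by positivity, ?_⟩
  intro N Q hN hQ a ha
  have hl := BV_logN hN
  have hl1 : 1 ≤ Real.log N := by linarith
  have hl0 : 0 < Real.log N := by linarith
  have hN0 : (0 : ℝ) < N := by
    have : 0 < N := by omega
    exact_mod_cast this
  have hN1 : (1 : ℝ) ≤ N := by
    have : 1 ≤ N := by omega
    exact_mod_cast this
  have hlB : 1 ≤ Real.log N ^ B := Real.one_le_rpow hl1 hB.le
  have hlA : 0 < Real.log N ^ A := Real.rpow_pos_of_pos hl0 A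
  rcases Nat.eq_zero_or_pos Q with rfl | hQ1
  · rw [show Icc 1 0 = (∅ : Finset ℕ) from rfl, sum_empty]
    positivity
  have hQs : (Q : ℝ) ≤ √(N : ℝ) := hQ.trans (div_le_self (Real.sqrt_nonneg _) hlB)
  have hsN : √(N : ℝ) ≤ N := by
    rw [Real.sqrt_le_left hN0.le]
    nlinarith
  have hQr : (1 : ℝ) ≤ Q := by exact_mod_cast hQ1
  have hlQ : Real.log Q ≤ Real.log N := Real.log_le_log (by linarith) (hQs.trans hsN)
  have hlQ0 : 0 ≤ Real.log Q := Real.log_nonneg hQr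
  -- one term
  have hterm : ∀ q ∈ Icc 1 Q, |psiA N q (a q) - psi0 N / q.totient| ≤
      (1 / (q.totient : ℝ)) * ∑ f ∈ q.divisors.erase 1, GG N f + 2 * Real.log N * Real.log N := by
    intro q hq
    obtain ⟨hq1, hq2⟩ := mem_Icc.1 hq
    have hphi : (0 : ℝ) < q.totient := by
      exact_mod_cast Nat.totient_pos.2 (by omega)
    have h1 := hOne N q (a q) hq1 (ha q hq)
    have h2 := hCop N q (by omega) hq1
    have h3 : |psiA N q (a q) - psi0 N / q.totient| ≤
        (1 / (q.totient : ℝ)) * ∑ f ∈ q.divisors.erase 1, GG N f + cop N q := by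
      rw [mul_comm, ← le_div_iff₀ hphi] at h1
      refine h1.trans (le_of_eq ?_)
      field_simp
    have h4 : Real.log q ≤ Real.log N := by
      refine (Real.log_le_log (by exact_mod_cast hq1) ?_).trans hlQ
      exact_mod_cast hq2
    have h5 : 2 * Real.log q * Real.log N ≤ 2 * Real.log N * Real.log N := by gcongr
    linarith
  have hGG : ∀ f, 0 ≤ GG N f := GG_nonneg N
  have hsw := hSwp (GG N) Q hGG hQ1
  -- split
  set L : ℕ := ⌈Real.log N ^ D⌉₊ with hL
  have hLD : Real.log N ^ D ≤ L := Nat.le_ceil _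
  have hlD : 1 ≤ Real.log N ^ D := Real.one_le_rpow hl1 hD.le
  have hL2 : (L : ℝ) ≤ Real.log N ^ (D + 8) := by
    have h1 : (L : ℝ) < Real.log N ^ D + 1 := Nat.ceil_lt_add_one (by positivity)
    have h2 : (2 : ℝ) ≤ Real.log N ^ (8 : ℝ) := by
      have h3 : (1.0939 : ℝ) ^ 8 ≤ Real.log N ^ 8 := pow_le_pow_left₀ (by norm_num) hl 8
      have h4 : Real.log N ^ (8 : ℝ) = Real.log N ^ 8 := by
        rw [show (8 : ℝ) = ((8 : ℕ) : ℝ) by norm_num, Real.rpow_natCast]
      rw [h4]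
      refine le_trans (by norm_num) h3
    rw [Real.rpow_add hl0]
    nlinarith
  have hb := hbig N Q L hN hQ hLD
  have hs := hsm N L hN hL2
  have hsplit : ∑ f ∈ Icc 2 Q, GG N f / f.totient ≤
      ∑ f ∈ Icc 2 L, GG N f / f.totient +
        ∑ f ∈ (Icc 2 Q).filter (fun f => L < f), GG N f / f.totient := by
    rw [← sum_filter_add_sum_filter_not (Icc 2 Q) (fun f => L < f)]
    rw [add_comm]
    refine add_le_add ?_ le_rfl
    refine sum_le_sum_of_subset_of_nonneg ?_ (fun f _ _ => div_nonneg (hGG f) (Nat.cast_nonneg _))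
    intro f hf
    rw [mem_filter, mem_Icc, not_lt] at hf
    exact mem_Icc.2 ⟨hf.1.1, hf.2⟩
  have hpow : Real.log N ^ (A + 2) = Real.log N ^ A * Real.log N ^ 2 := by
    rw [Real.rpow_add hl0, show (2 : ℝ) = ((2 : ℕ) : ℝ) by norm_num, Real.rpow_natCast]
  have hGsum : ∑ f ∈ Icc 2 Q, GG N f / f.totient ≤
      (Cs + Cb) * (N / (Real.log N ^ A * Real.log N ^ 2)) := by
    rw [← hpow]
    calc _ ≤ _ := hsplit
      _ ≤ Cs * (N / Real.log N ^ (A + 2)) + Cb * (N / Real.log N ^ (A + 2)) := add_le_add hs hb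
      _ = _ := by ring
  have hfac : (1 + 2 * Real.log Q) * (1 + Real.log Q) ≤ 6 * Real.log N ^ 2 := by
    calc (1 + 2 * Real.log Q) * (1 + Real.log Q) ≤ (3 * Real.log N) * (2 * Real.log N) := by
          apply mul_le_mul <;> linarith
      _ = 6 * Real.log N ^ 2 := by ring
  have hGs0 : 0 ≤ ∑ f ∈ Icc 2 Q, GG N f / f.totient :=
    sum_nonneg fun f _ => div_nonneg (hGG f) (Nat.cast_nonneg _)
  have hfirst : ∑ E ∈ Icc 1 Q, (1 / (E.totient : ℝ)) * ∑ f ∈ E.divisors.erase 1, GG N f ≤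
      6 * (Cs + Cb) * (N / Real.log N ^ A) := by
    refine hsw.trans ?_
    calc (1 + 2 * Real.log Q) * (1 + Real.log Q) * ∑ f ∈ Icc 2 Q, GG N f / f.totient
        ≤ (6 * Real.log N ^ 2) * ((Cs + Cb) * (N / (Real.log N ^ A * Real.log N ^ 2))) :=
          mul_le_mul hfac hGsum hGs0 (by positivity)
      _ = 6 * (Cs + Cb) * (N / Real.log N ^ A) := by
          field_simp
  have hsecond : ∑ q ∈ Icc 1 Q, 2 * Real.log N * Real.log N ≤ 2 * c * (N / Real.log N ^ A) := by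
    rw [sum_const, Nat.card_Icc, Nat.add_sub_cancel, nsmul_eq_mul]
    have h1 := hlp N hN
    rw [hpow] at h1
    have h2 : Real.log N ^ 2 ≤ c * √(N : ℝ) / Real.log N ^ A := by
      rw [le_div_iff₀ hlA, mul_comm]
      exact h1
    calc (Q : ℝ) * (2 * Real.log N * Real.log N) ≤ √(N : ℝ) * (2 * Real.log N * Real.log N) := by
          gcongr
      _ = 2 * √(N : ℝ) * Real.log N ^ 2 := by ring
      _ ≤ 2 * √(N : ℝ) * (c * √(N : ℝ) / Real.log N ^ A) := by gcongr
      _ = 2 * c * (√(N : ℝ) * √(N : ℝ) / Real.log N ^ A) := by ring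
      _ = 2 * c * (N / Real.log N ^ A) := by rw [Real.mul_self_sqrt hN0.le]
  calc ∑ q ∈ Icc 1 Q, |psiA N q (a q) - psi0 N / q.totient|
      ≤ ∑ q ∈ Icc 1 Q, ((1 / (q.totient : ℝ)) * ∑ f ∈ q.divisors.erase 1, GG N f +
          2 * Real.log N * Real.log N) := sum_le_sum hterm
    _ = ∑ q ∈ Icc 1 Q, (1 / (q.totient : ℝ)) * ∑ f ∈ q.divisors.erase 1, GG N f +
          ∑ q ∈ Icc 1 Q, 2 * Real.log N * Real.log N := sum_add_distrib
    _ ≤ 6 * (Cs + Cb) * (N / Real.log N ^ A) + 2 * c * (N / Real.log N ^ A) :=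
          add_le_add hfirst hsecond
    _ = (6 * (Cs + Cb) + 2 * c) * (N / Real.log N ^ A) := by ring

end MPb51559.BG.B
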