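import Pool.Agent.Work.MP_b51559_nt.BG.B.Stmts
import Pool.Agent.Work.MP_b51559_nt.BG.A.StmtsW

set_option autoImplicit false

/-!
# Item BVE: Bombieri-Vinogradov with a smooth weight
-/

namespace MPb51559.BG.B

open Finset ArithmeticFunction Filter Topology MeasureTheory

theorem BVE_wc {w : ℝ → ℝ} (hw : Wt w) : Wc w :=
  ⟨hw.smooth, fun u hu => ⟨by have := (hw.supp u hu).1; linarith, by have := (hw.supp u hu).2; linarith⟩⟩

theorem BVE_deriv_cont {w : ℝ → ℝ} (hw : ∀ m : ℕ, ContDiff ℝ m w) : Continuous (deriv w) :=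
  (hw 1).continuous_deriv (by norm_num)

/-- the weighted sum in a residue class as an integral -/
theorem BVE_repr (hABW : MPb51559.BG.A.StABW) {w : ℝ → ℝ} (hw : Wc w) {x : ℝ} (hx : 0 < x) (q a : ℕ) :
    thW w x q a = - ∫ u in (1 : ℝ)..2, theA ⌊u * x⌋₊ q a * deriv w u := by
  classical
  have h := hABW w hw (fun n => if n.Prime ∧ n ≡ a [MOD q] then ((Real.log (n : ℝ) : ℝ) : ℂ) else 0) x hx
  have h1 : ∑ n ∈ Finset.range (⌊2 * x⌋₊ + 1),
      (if n.Prime ∧ n ≡ a [MOD q] then ((Real.log (n : ℝ) : ℝ) : ℂ) else 0) *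
        ((w ((n : ℝ) / x) : ℝ) : ℂ) = ((thW w x q a : ℝ) : ℂ) := by
    have hf : (Finset.range (⌊2 * x⌋₊ + 1)).filter
        (fun p : ℕ => p.Prime ∧ ((p : ℕ) : ZMod q) = (a : ZMod q)) =
        (Finset.range (⌊2 * x⌋₊ + 1)).filter (fun p : ℕ => p.Prime ∧ p ≡ a [MOD q]) := by
      apply Finset.filter_congr
      intro p _
      rw [ZMod.natCast_eq_natCast_iff]
    unfold thW
    rw [hf, Finset.sum_filter, Complex.ofReal_sum]
    refine Finset.sum_congr rfl fun n _ => ?_
    by_cases hn : n.Prime ∧ n ≡ a [MOD q]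
    · rw [if_pos hn, if_pos hn]
      push_cast
      rfl
    · rw [if_neg hn, if_neg hn]
      simp
  have h2 : ∀ u : ℝ, ∑ n ∈ Finset.Icc 1 ⌊u * x⌋₊,
      (if n.Prime ∧ n ≡ a [MOD q] then ((Real.log (n : ℝ) : ℝ) : ℂ) else 0) =
      ((theA ⌊u * x⌋₊ q a : ℝ) : ℂ) := by
    intro u
    rw [theA, Complex.ofReal_sum, ← Finset.sum_filter]
  rw [h1] at h
  simp only [h2] at h
  have h3 : ∫ u in (1 : ℝ)..2, ((theA ⌊u * x⌋₊ q a : ℝ) : ℂ) * ((deriv w u : ℝ) : ℂ) =
      ((∫ u in (1 : ℝ)..2, theA ⌊u * x⌋₊ q a * deriv w u : ℝ) : ℂ) := by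
    rw [← intervalIntegral.integral_ofReal]
    refine intervalIntegral.integral_congr fun u _ => ?_
    simp
  rw [h3] at h
  exact_mod_cast h

theorem BVE_theA_one (N : ℕ) : theA N 1 0 = the0 N := by
  unfold theA the0
  congr 1
  apply Finset.filter_congr
  intro p _
  exact ⟨fun h => h.1, fun h => ⟨h, Nat.modEq_one⟩⟩

theorem BVE_theA_mono {N M : ℕ} (h : N ≤ M) (q a : ℕ) : theA N q a ≤ theA M q a := by
  unfold theA
  refine Finset.sum_le_sum_of_subset_of_nonneg ?_ fun p hp _ => ?_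
  · exact Finset.filter_subset_filter _ (Finset.Icc_subset_Icc le_rfl h)
  · rw [Finset.mem_filter] at hp
    exact Real.log_nonneg (by exact_mod_cast hp.2.1.one_le)

theorem BVE_int {x : ℝ} (hx : 0 < x) (q a : ℕ) :
    IntervalIntegrable (fun u : ℝ => theA ⌊u * x⌋₊ q a) volume 1 2 := by
  have hm : Monotone fun u : ℝ => theA ⌊u * x⌋₊ q a := by
    intro u v huv
    exact BVE_theA_mono (Nat.floor_mono (mul_le_mul_of_nonneg_right huv hx.le)) q a
  exact hm.intervalIntegrable

/-- the error term -/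
noncomputable def BVE_err (x : ℝ) (q a : ℕ) (u : ℝ) : ℝ :=
  theA ⌊u * x⌋₊ q a - the0 ⌊u * x⌋₊ / (q.totient : ℝ)

theorem BVE_err_int {x : ℝ} (hx : 0 < x) (q a : ℕ) :
    IntervalIntegrable (BVE_err x q a) volume 1 2 := by
  have h0 : IntervalIntegrable (fun u : ℝ => the0 ⌊u * x⌋₊) volume 1 2 := by
    have := BVE_int hx 1 0
    simpa only [BVE_theA_one] using this
  have := (BVE_int hx q a).sub (h0.div_const (q.totient : ℝ))
  exact this

theorem BVE_diff (hABW : MPb51559.BG.A.StABW) {w : ℝ → ℝ} (hw : Wc w) {x : ℝ} (hx : 0 < x) (q a : ℕ) :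
    thW w x q a - thW w x 1 0 / (q.totient : ℝ) = - ∫ u in (1 : ℝ)..2, BVE_err x q a u * deriv w u := by
  have hc := BVE_deriv_cont hw.smooth
  have h0 : IntervalIntegrable (fun u : ℝ => the0 ⌊u * x⌋₊) volume 1 2 := by
    have := BVE_int hx 1 0
    simpa only [BVE_theA_one] using this
  have e1 := BVE_repr hABW hw hx q a
  have e2 := BVE_repr hABW hw hx 1 0
  simp only [BVE_theA_one] at e2
  rw [e1, e2]
  have i1 : IntervalIntegrable (fun u : ℝ => theA ⌊u * x⌋₊ q a * deriv w u) volume 1 2 :=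
    (BVE_int hx q a).mul_continuousOn hc.continuousOn
  have i2 : IntervalIntegrable (fun u : ℝ => the0 ⌊u * x⌋₊ * deriv w u) volume 1 2 :=
    h0.mul_continuousOn hc.continuousOn
  have e3 : ∫ u in (1 : ℝ)..2, BVE_err x q a u * deriv w u =
      (∫ u in (1 : ℝ)..2, theA ⌊u * x⌋₊ q a * deriv w u) -
        (∫ u in (1 : ℝ)..2, the0 ⌊u * x⌋₊ * deriv w u) / (q.totient : ℝ) := by
    rw [← intervalIntegral.integral_div, ← intervalIntegral.integral_sub i1 (i2.div_const _)]
    refine intervalIntegral.integral_congr fun u _ => ?_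
    simp only [BVE_err]
    ring
  rw [e3]
  ring

theorem BVE_abs (hABW : MPb51559.BG.A.StABW) {w : ℝ → ℝ} (hw : Wc w) {x : ℝ} (hx : 0 < x) (q a : ℕ)
    {W : ℝ} (hW : ∀ u ∈ Set.Icc (1 : ℝ) 2, |deriv w u| ≤ W) :
    |thW w x q a - thW w x 1 0 / (q.totient : ℝ)| ≤ W * ∫ u in (1 : ℝ)..2, |BVE_err x q a u| := by
  have hc := BVE_deriv_cont hw.smooth
  rw [BVE_diff hABW hw hx q a, abs_neg]
  have h1 := intervalIntegral.abs_integral_le_integral_abs (μ := volume)
    (f := fun u => BVE_err x q a u * deriv w u) (show (1 : ℝ) ≤ 2 by norm_num)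
  refine h1.trans ?_
  rw [← intervalIntegral.integral_const_mul]
  have i1 : IntervalIntegrable (fun u : ℝ => BVE_err x q a u * deriv w u) volume 1 2 :=
    (BVE_err_int hx q a).mul_continuousOn hc.continuousOn
  refine intervalIntegral.integral_mono_on (by norm_num) i1.abs ((BVE_err_int hx q a).abs.const_mul W) ?_
  intro u hu
  rw [abs_mul, mul_comm]
  exact mul_le_mul_of_nonneg_right (hW u hu) (abs_nonneg _)

theorem BVE_sum (hABW : MPb51559.BG.A.StABW) {w : ℝ → ℝ} (hw : Wc w) {x : ℝ} (hx : 0 < x)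
    (S : Finset ℕ) (a : ℕ → ℕ) (v : ℕ → ℝ) (hv : ∀ q, 0 ≤ v q) {W M : ℝ}
    (hW : ∀ u ∈ Set.Icc (1 : ℝ) 2, |deriv w u| ≤ W)
    (hM : ∀ u ∈ Set.Icc (1 : ℝ) 2, ∑ q ∈ S, v q * |BVE_err x q (a q) u| ≤ M) :
    ∑ q ∈ S, v q * |thW w x q (a q) - thW w x 1 0 / (q.totient : ℝ)| ≤ W * M := by
  have hW0 : 0 ≤ W := (abs_nonneg _).trans (hW 1 ⟨le_rfl, by norm_num⟩)
  calc ∑ q ∈ S, v q * |thW w x q (a q) - thW w x 1 0 / (q.totient : ℝ)|
      ≤ ∑ q ∈ S, W * ∫ u in (1 : ℝ)..2, v q * |BVE_err x q (a q) u| :=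
        Finset.sum_le_sum fun q _ => by
          rw [intervalIntegral.integral_const_mul, mul_left_comm]
          exact mul_le_mul_of_nonneg_left (BVE_abs hABW hw hx q (a q) hW) (hv q)
    _ = W * ∫ u in (1 : ℝ)..2, ∑ q ∈ S, v q * |BVE_err x q (a q) u| := by
        rw [intervalIntegral.integral_finsetSum fun q _ => (BVE_err_int hx q (a q)).abs.const_mul (v q),
          Finset.mul_sum]
    _ ≤ W * M := by
        refine mul_le_mul_of_nonneg_left ?_ hW0
        have h2 : ∫ u in (1 : ℝ)..2, ∑ q ∈ S, v q * |BVE_err x q (a q) u| ≤ ∫ u in (1 : ℝ)..2, M := by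
          refine intervalIntegral.integral_mono_on (by norm_num) ?_ intervalIntegrable_const hM
          have h3 := IntervalIntegrable.sum S (f := fun q u => v q * |BVE_err x q (a q) u|) (μ := volume)
            (a := 1) (b := 2) fun q _ => (BVE_err_int hx q (a q)).abs.const_mul (v q)
          refine h3.congr ?_
          intro u _
          simp
        refine h2.trans (le_of_eq ?_)
        rw [intervalIntegral.integral_const]
        norm_num

/-- the size conditions for large `x` -/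
theorem BVE_large {δ B : ℝ} (hδ : 0 < δ) (K : ℝ) : ∃ x0 : ℝ, ∀ x ≥ x0, 8 ≤ x ∧
    K ≤ Real.log x ∧ x ^ (1 / 2 - δ) * Real.log (2 * x) ^ B ≤ √(x / 2) := by
  have h1 := (isLittleO_log_rpow_rpow_atTop (s := δ) B hδ).bound
    (show (0 : ℝ) < (2 : ℝ) ^ (-δ) / 2 by positivity)
  have h2 : Tendsto (fun x : ℝ => 2 * x) atTop atTop := tendsto_id.const_mul_atTop (by norm_num)
  have h3 := h2.eventually h1
  have h4 := Real.tendsto_log_atTop.eventually_ge_atTop K
  have h5 := (h3.and h4).and (eventually_ge_atTop (8 : ℝ))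
  obtain ⟨x0, hx0⟩ := eventually_atTop.1 h5
  refine ⟨x0, fun x hx => ?_⟩
  obtain ⟨⟨h6, h7⟩, h8⟩ := hx0 x hx
  refine ⟨h8, h7, ?_⟩
  have hx : 0 < x := by linarith
  have hl : 0 < Real.log (2 * x) := Real.log_pos (by linarith)
  rw [Real.norm_of_nonneg (Real.rpow_nonneg hl.le _), Real.norm_of_nonneg (by positivity)] at h6
  have h9 : (2 : ℝ) ^ (-δ) / 2 * (2 * x) ^ δ = x ^ δ / 2 := by
    rw [Real.mul_rpow (by norm_num) hx.le, Real.rpow_neg (by norm_num)]
    have : (2 : ℝ) ^ δ ≠ 0 := by positivity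
    field_simp
  rw [h9] at h6
  calc x ^ (1 / 2 - δ) * Real.log (2 * x) ^ B ≤ x ^ (1 / 2 - δ) * (x ^ δ / 2) :=
        mul_le_mul_of_nonneg_left h6 (by positivity)
    _ = x ^ (1 / 2 : ℝ) / 2 := by
        rw [← mul_div_assoc, ← Real.rpow_add hx]
        norm_num
    _ = √x / 2 := by rw [Real.sqrt_eq_rpow]
    _ ≤ √(x / 2) := by
        apply Real.le_sqrt_of_sq_le
        rw [div_pow, Real.sq_sqrt hx.le]
        linarith

theorem prf_BVE (hWt : StWt) (hABW : MPb51559.BG.A.StABW) : StBVE := by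
  classical
  intro w hw δ hδ c A
  have hwc := BVE_wc hw
  have hc := BVE_deriv_cont hw.smooth
  obtain ⟨W, hW⟩ := isCompact_Icc.exists_bound_of_continuousOn (s := Set.Icc (1 : ℝ) 2) hc.continuousOn
  simp only [Real.norm_eq_abs] at hW
  have hW0 : 0 ≤ W := (abs_nonneg _).trans (hW 1 ⟨le_rfl, by norm_num⟩)
  obtain ⟨B, C, hB, hC, hTh'⟩ := hWt c ((A : ℝ) + 1) (by positivity)
  obtain ⟨x0, hx0⟩ := BVE_large (B := B) hδ (W * (C * 2 ^ (A + 2)))
  refine ⟨x0, fun x hx a => ?_⟩
  obtain ⟨h8, hK, hQ⟩ := hx0 x hx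
  have hx' : 0 < x := by linarith
  have hlx : 0 < Real.log x := Real.log_pos (by linarith)
  set Q : ℕ := ⌊x ^ (1 / 2 - δ)⌋₊ with hQdef
  set S := (Icc 1 Q).filter (fun q => (a q).Coprime q) with hS
  have hM : ∀ u ∈ Set.Icc (1 : ℝ) 2, ∑ q ∈ S, (c : ℝ) ^ q.primeFactors.card * |BVE_err x q (a q) u| ≤
      C * 2 ^ (A + 2) * x / Real.log x ^ (A + 1) := by
    intro u hu
    set N : ℕ := ⌊u * x⌋₊ with hN
    have hux : x ≤ u * x := by nlinarith [hu.1]
    have hux2 : u * x ≤ 2 * x := by nlinarith [hu.2]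
    have hN1 : (N : ℝ) ≤ 2 * x := (Nat.floor_le (by linarith)).trans hux2
    have hN2 : x / 2 ≤ N := by
      have := Nat.lt_floor_add_one (u * x)
      rw [← hN] at this
      linarith
    have hN3 : 3 ≤ N := by
      have : (3 : ℝ) ≤ N := by linarith
      exact_mod_cast this
    have hN0 : (0 : ℝ) < N := by linarith
    have hlN1 : Real.log N ≤ Real.log (2 * x) := Real.log_le_log hN0 hN1
    have hlN2 : Real.log x / 2 ≤ Real.log N := by
      have e1 : Real.log (x / 2) ≤ Real.log N := Real.log_le_log (by linarith) hN2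
      have e2 : Real.log (x / 2) = Real.log x - Real.log 2 := Real.log_div hx'.ne' (by norm_num)
      have e3 : 2 * Real.log 2 ≤ Real.log x := by
        rw [← Real.log_rpow (by norm_num)]
        exact Real.log_le_log (by norm_num) (by norm_num; linarith)
      linarith
    have hlN0 : 0 < Real.log N := by linarith
    have hQ' : (Q : ℝ) ≤ √(N : ℝ) / Real.log N ^ B := by
      rw [le_div_iff₀ (Real.rpow_pos_of_pos hlN0 _)]
      calc (Q : ℝ) * Real.log N ^ B ≤ x ^ (1 / 2 - δ) * Real.log (2 * x) ^ B := by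
            refine mul_le_mul (Nat.floor_le (by positivity)) ?_ (by positivity) (by positivity)
            exact Real.rpow_le_rpow hlN0.le hlN1 hB.le
        _ ≤ √(x / 2) := hQ
        _ ≤ √(N : ℝ) := Real.sqrt_le_sqrt hN2
    have h10 := hTh' N Q hN3 hQ' (fun q => if (a q).Coprime q then a q else 1) (by
      intro q _
      split_ifs with h
      · exact h
      · exact Nat.coprime_one_left q)
    calc ∑ q ∈ S, (c : ℝ) ^ q.primeFactors.card * |BVE_err x q (a q) u|
        = ∑ q ∈ S, (c : ℝ) ^ q.primeFactors.card * |theA N q (if (a q).Coprime q then a q else 1) - the0 N / q.totient| := by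
          refine Finset.sum_congr rfl fun q hq => ?_
          have := (Finset.mem_filter.1 hq).2
          rw [if_pos this]
          rfl
      _ ≤ ∑ q ∈ Icc 1 Q, (c : ℝ) ^ q.primeFactors.card * |theA N q (if (a q).Coprime q then a q else 1) - the0 N / q.totient| :=
          Finset.sum_le_sum_of_subset_of_nonneg (Finset.filter_subset _ _) fun _ _ _ =>
            mul_nonneg (by positivity) (abs_nonneg _)
      _ ≤ C * (N / Real.log N ^ ((A : ℝ) + 1)) := h10
      _ ≤ C * (2 * x / (Real.log x / 2) ^ (A + 1)) := by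
          refine mul_le_mul_of_nonneg_left ?_ hC.le
          have e4 : ((A : ℝ) + 1) = ((A + 1 : ℕ) : ℝ) := by push_cast; ring
          rw [e4, Real.rpow_natCast]
          refine div_le_div₀ (by positivity) hN1 (by positivity) ?_
          exact pow_le_pow_left₀ (by positivity) hlN2 _
      _ = C * 2 ^ (A + 2) * x / Real.log x ^ (A + 1) := by
          rw [div_pow]
          field_simp
          ring
  refine (BVE_sum hABW hwc hx' S a (fun q => (c : ℝ) ^ q.primeFactors.card) (fun q => by positivity)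
    hW hM).trans ?_
  have h11 : W * (C * 2 ^ (A + 2) * x / Real.log x ^ (A + 1)) =
      (W * (C * 2 ^ (A + 2))) / Real.log x * (x / Real.log x ^ A) := by
    rw [pow_succ (Real.log x) A]
    field_simp
  rw [h11]
  have h12 : (W * (C * 2 ^ (A + 2))) / Real.log x ≤ 1 := (div_le_one hlx).2 hK
  calc (W * (C * 2 ^ (A + 2))) / Real.log x * (x / Real.log x ^ A) ≤ 1 * (x / Real.log x ^ A) :=
        mul_le_mul_of_nonneg_right h12 (by positivity)
    _ = x / Real.log x ^ A := one_mul _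

end MPb51559.BG.B
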