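import Pool.Agent.Work.MP_b51559_nt.BG.B.Stmts

set_option autoImplicit false

/-!
# Bounded gaps, part B, item Big
-/

namespace MPb51559.BG.B

open Finset ArithmeticFunction

theorem Big_log (N : ℕ) (hN : 3 ≤ N) : 1 ≤ Real.log N := by
  have h3 : (3 : ℝ) ≤ N := by exact_mod_cast hN
  rw [Real.le_log_iff_exp_le (by linarith)]
  have := Real.exp_one_lt_d9
  linarith

theorem Big_large (A : ℝ) : ∃ N₀ : ℕ, 4 ≤ N₀ ∧ ∀ N : ℕ, N₀ ≤ N →
    Real.log N ^ (2 * A + 16) + 1 ≤ N := by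
  have h1 : Filter.Tendsto (fun x : ℝ => Real.log x ^ (2 * A + 16) / x) Filter.atTop (nhds 0) := by
    have h2 := isLittleO_log_rpow_atTop (r := 1) one_pos
    have h3 := isLittleO_log_rpow_rpow_atTop (2 * A + 16) (s := 1) one_pos
    simpa using h3.tendsto_div_nhds_zero
  have h2 : ∀ᶠ x : ℝ in Filter.atTop, Real.log x ^ (2 * A + 16) / x < 1 / 2 :=
    h1.eventually (gt_mem_nhds (by norm_num))
  have h3 := (tendsto_natCast_atTop_atTop (R := ℝ)).eventually h2
  obtain ⟨N₁, hN₁⟩ := Filter.eventually_atTop.1 h3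
  refine ⟨max N₁ 4, le_max_right _ _, fun N hN => ?_⟩
  have h4 := hN₁ N ((le_max_left _ _).trans hN)
  have h5 : (4 : ℝ) ≤ N := by exact_mod_cast (le_max_right _ _).trans hN
  rw [div_lt_iff₀ (by linarith)] at h4
  linarith

theorem prf_Big (hLg : S_Lg) (hTri : S_Tri) : S_Big := by
  intro A hA
  obtain ⟨C, hC, hlg⟩ := hLg
  obtain ⟨N₀, hN₀4, hN₀⟩ := Big_large A
  refine ⟨3 * A + 20, A + 8, 7 * C + (N₀ : ℝ) ^ (A + 2), by positivity, by positivity,
    by positivity, ?_⟩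
  intro N Q L hN hQ hL
  have hl := Big_log N hN
  set l := Real.log N with hldef
  have hl0 : 0 < l := by linarith
  have hN3 : (3 : ℝ) ≤ N := by exact_mod_cast hN
  have hN0 : (0 : ℝ) < N := by linarith
  have hlA : 0 < l ^ A := Real.rpow_pos_of_pos hl0 _
  have hsum0 : 0 ≤ (N : ℝ) / l ^ A := by positivity
  have hsq : √(N : ℝ) * √(N : ℝ) = N := Real.mul_self_sqrt hN0.le
  have hs0 : 0 < √(N : ℝ) := Real.sqrt_pos.2 hN0
  have hlB1 : 1 ≤ l ^ (3 * A + 20) := Real.one_le_rpow hl (by positivity)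
  have hQs : (Q : ℝ) ≤ √(N : ℝ) := hQ.trans (div_le_self hs0.le hlB1)
  by_cases hbig : N₀ ≤ N
  · -- large N
    have hN4 : (4 : ℝ) ≤ N := by exact_mod_cast hN₀4.trans hbig
    have hs2 : 2 ≤ √(N : ℝ) := by
      rw [show (2 : ℝ) = √(4 : ℝ) by
        rw [show (4 : ℝ) = 2 ^ 2 by norm_num, Real.sqrt_sq (by norm_num)]]
      exact Real.sqrt_le_sqrt hN4
    have h2Q : 2 * Q ≤ N := by
      have : (2 : ℝ) * Q ≤ N := by nlinarith
      exact_mod_cast this
    have hU1' : 1 ≤ l ^ (2 * A + 16) := Real.one_le_rpow hl (by positivity)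
    set U : ℕ := ⌈l ^ (2 * A + 16)⌉₊ with hU
    have hUlo : l ^ (2 * A + 16) ≤ U := Nat.le_ceil _
    have hUhi : (U : ℝ) ≤ l ^ (2 * A + 16) + 1 := (Nat.ceil_lt_add_one (by positivity)).le
    have hU1 : 1 ≤ U := by
      have : (1 : ℝ) ≤ U := hU1'.trans hUlo
      exact_mod_cast this
    have hUN : U ≤ N := by
      have : (U : ℝ) ≤ N := hUhi.trans (hN₀ N hbig)
      exact_mod_cast this
    have hLl : 1 ≤ l ^ (A + 8) := Real.one_le_rpow hl (by positivity)
    have hL1 : 1 ≤ L := by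
      have : (1 : ℝ) ≤ L := hLl.trans hL
      exact_mod_cast this
    have hmain := hlg N U Q L hN hU1 hUN h2Q hL1
    refine hmain.trans ?_
    have hlp : 0 < l ^ (A + 8) := by positivity
    have h1 : (N : ℝ) / L ≤ N / l ^ (A + 8) := by gcongr
    have h2 : (N : ℝ) / √(U : ℝ) ≤ N / l ^ (A + 8) := by
      have h3 : l ^ (A + 8) ≤ √(U : ℝ) := by
        rw [Real.le_sqrt' hlp, ← Real.rpow_natCast, ← Real.rpow_mul hl0.le]
        have h4 : (A + 8) * ((2 : ℕ) : ℝ) = 2 * A + 16 := by push_cast; ring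
        rw [h4]
        exact hUlo
      gcongr
    have h3 : (Q : ℝ) * √(N : ℝ) ≤ N / l ^ (A + 8) := by
      calc (Q : ℝ) * √(N : ℝ) ≤ √(N : ℝ) / l ^ (3 * A + 20) * √(N : ℝ) := by gcongr
        _ = N / l ^ (3 * A + 20) := by rw [div_mul_eq_mul_div, hsq]
        _ ≤ N / l ^ (A + 8) := by
            have h4 : l ^ (A + 8) ≤ l ^ (3 * A + 20) :=
              Real.rpow_le_rpow_of_exponent_le hl (by linarith)
            gcongr
    have hl8 : l ^ 8 * (N / l ^ (A + 8)) = N / l ^ A := by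
      have h4 : l ^ (A + 8) = l ^ A * l ^ 8 := by
        rw [Real.rpow_add hl0]
        congr 1
        exact_mod_cast Real.rpow_natCast l 8
      rw [h4]
      field_simp
    have hfirst : C * l ^ 8 * (N / L + N / √(U : ℝ) + Q * √(N : ℝ)) ≤ 3 * C * (N / l ^ A) := by
      calc C * l ^ 8 * (N / L + N / √(U : ℝ) + Q * √(N : ℝ))
          ≤ C * l ^ 8 * (N / l ^ (A + 8) + N / l ^ (A + 8) + N / l ^ (A + 8)) := by gcongr
        _ = 3 * C * (l ^ 8 * (N / l ^ (A + 8))) := by ring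
        _ = 3 * C * (N / l ^ A) := by rw [hl8]
    have hQ2 : (Q : ℝ) ^ 2 ≤ N / l ^ (6 * A + 40) := by
      have h4 : (√(N : ℝ) / l ^ (3 * A + 20)) ^ 2 = N / l ^ (6 * A + 40) := by
        rw [div_pow, sq, hsq, ← Real.rpow_natCast, ← Real.rpow_mul hl0.le]
        congr 2
        push_cast
        ring
      rw [← h4]
      gcongr
    have hU2 : (U : ℝ) ^ 2 ≤ 4 * l ^ (4 * A + 32) := by
      have h4 : (U : ℝ) ≤ 2 * l ^ (2 * A + 16) := by linarith
      have h5 : (2 * l ^ (2 * A + 16)) ^ 2 = 4 * l ^ (4 * A + 32) := by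
        rw [mul_pow, ← Real.rpow_natCast (l ^ (2 * A + 16)), ← Real.rpow_mul hl0.le]
        have h6 : (2 * A + 16) * ((2 : ℕ) : ℝ) = 4 * A + 32 := by push_cast; ring
        rw [h6]
        norm_num
      rw [← h5]
      gcongr
    have hsecond : C * (Q : ℝ) ^ 2 * (U : ℝ) ^ 2 * l ^ 3 ≤ 4 * C * (N / l ^ A) := by
      calc C * (Q : ℝ) ^ 2 * (U : ℝ) ^ 2 * l ^ 3
          ≤ C * (N / l ^ (6 * A + 40)) * (4 * l ^ (4 * A + 32)) * l ^ 3 := by gcongr
        _ = 4 * C * (N * (l ^ (4 * A + 32) * l ^ 3 / l ^ (6 * A + 40))) := by ring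
        _ ≤ 4 * C * (N * (1 / l ^ A)) := by
            have h4 : l ^ (4 * A + 32) * l ^ 3 / l ^ (6 * A + 40) ≤ 1 / l ^ A := by
              rw [div_le_div_iff₀ (by positivity) hlA, one_mul, ← Real.rpow_natCast l 3,
                ← Real.rpow_add hl0, ← Real.rpow_add hl0]
              refine Real.rpow_le_rpow_of_exponent_le hl ?_
              push_cast
              linarith
            gcongr
        _ = 4 * C * (N / l ^ A) := by ring
    have hlast : 0 ≤ (N₀ : ℝ) ^ (A + 2) * (N / l ^ A) := by positivity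
    calc C * l ^ 8 * (N / L + N / √(U : ℝ) + Q * √(N : ℝ)) + C * (Q : ℝ) ^ 2 * (U : ℝ) ^ 2 * l ^ 3
        ≤ 3 * C * (N / l ^ A) + 4 * C * (N / l ^ A) := add_le_add hfirst hsecond
      _ ≤ (7 * C + (N₀ : ℝ) ^ (A + 2)) * (N / l ^ A) := by nlinarith
  · -- small N
    have hNN : (N : ℝ) ≤ N₀ := by exact_mod_cast (not_le.1 hbig).le
    have hlN : l ≤ N := by
      have := Real.log_le_sub_one_of_pos hN0
      linarith
    have hQN : (Q : ℝ) ≤ N := by
      refine hQs.trans ?_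
      have h1 : 1 ≤ √(N : ℝ) := by
        rw [Real.one_le_sqrt]
        linarith
      nlinarith
    have h1 : ∑ f ∈ (Icc 2 Q).filter (fun f => L < f), GG N f / f.totient ≤ Q * (N * l) := by
      calc ∑ f ∈ (Icc 2 Q).filter (fun f => L < f), GG N f / f.totient
          ≤ ∑ f ∈ (Icc 2 Q).filter (fun f => L < f), (N * l : ℝ) :=
            Finset.sum_le_sum fun f _ => hTri N f
        _ = (((Icc 2 Q).filter (fun f => L < f)).card : ℝ) * (N * l) := by
            rw [Finset.sum_const, nsmul_eq_mul]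
        _ ≤ Q * (N * l) := by
            have h2 : ((Icc 2 Q).filter (fun f => L < f)).card ≤ Q := by
              refine (Finset.card_filter_le _ _).trans ?_
              rw [Nat.card_Icc]
              omega
            have h3 : (((Icc 2 Q).filter (fun f => L < f)).card : ℝ) ≤ Q := by exact_mod_cast h2
            have h4 : 0 ≤ (N : ℝ) * l := by positivity
            exact mul_le_mul_of_nonneg_right h3 h4
    refine h1.trans ?_
    have h2 : (Q : ℝ) * (N * l) = Q * l ^ (A + 1) * (N / l ^ A) := by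
      rw [Real.rpow_add hl0, Real.rpow_one]
      field_simp
    have hN00 : (0 : ℝ) < N₀ := by linarith
    have h3 : (Q : ℝ) * l ^ (A + 1) ≤ (N₀ : ℝ) ^ (A + 2) := by
      have h4 : (N₀ : ℝ) ^ (A + 2) = N₀ * (N₀ : ℝ) ^ (A + 1) := by
        rw [show A + 2 = 1 + (A + 1) by ring, Real.rpow_add hN00, Real.rpow_one]
      rw [h4]
      have h5 : l ^ (A + 1) ≤ (N₀ : ℝ) ^ (A + 1) :=
        Real.rpow_le_rpow hl0.le (hlN.trans hNN) (by positivity)
      exact mul_le_mul (hQN.trans hNN) h5 (by positivity) hN00.le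
    rw [h2]
    calc (Q : ℝ) * l ^ (A + 1) * (N / l ^ A) ≤ (N₀ : ℝ) ^ (A + 2) * (N / l ^ A) := by gcongr
      _ ≤ (7 * C + (N₀ : ℝ) ^ (A + 2)) * (N / l ^ A) := by
          have : 0 ≤ C * (N / l ^ A) := by positivity
          nlinarith

end MPb51559.BG.B
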