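import Pool.Agent.Work.MP_b51559_nt.BG.B.Stmts

set_option autoImplicit false

/-!
# Item Bin: bilinear sums with a threshold
-/

namespace MPb51559.BG.B

open Finset

theorem Bin_disj (J s : Finset ℕ) (P : ℕ → ℕ → Prop) [∀ j, DecidablePred (P j)] (g : ℕ → ℝ)
    (hg : ∀ m, 0 ≤ g m) (h : ∀ j j' m, P j m → P j' m → j = j') :
    ∑ j ∈ J, ∑ m ∈ s.filter (P j), g m ≤ ∑ m ∈ s, g m := by
  simp_rw [Finset.sum_filter]
  rw [Finset.sum_comm]
  apply Finset.sum_le_sum
  intro m _
  by_cases hex : ∃ j ∈ J, P j m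
  · obtain ⟨j0, hj0, hP⟩ := hex
    rw [Finset.sum_eq_single j0]
    · rw [if_pos hP]
    · intro j _ hj
      rw [if_neg]
      intro h1
      exact hj (h _ _ _ h1 hP)
    · intro h1
      exact absurd hj0 h1
  · rw [Finset.sum_eq_zero]
    · exact hg m
    · intro j hj
      rw [if_neg]
      intro h1
      exact hex ⟨j, hj, h1⟩

/-- the large sieve summed over disjoint sets -/
theorem Bin_ls {κ : Type} (S : Finset κ) (χ : κ → ℕ → ℂ) (Δ : ℝ) (hΔ : 0 ≤ Δ)
    (hLS : ∀ (X : ℕ) (c : ℕ → ℂ), ∑ x ∈ S, ‖∑ n ∈ range X, c n * χ x n‖ ^ 2 ≤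
      (X + Δ) * ∑ n ∈ range X, ‖c n‖ ^ 2) (a : ℕ → ℂ) (X : ℕ) (J : Finset ℕ)
    (P : ℕ → ℕ → Prop) [∀ j, DecidablePred (P j)] (h : ∀ j j' m, P j m → P j' m → j = j') :
    ∑ y ∈ S ×ˢ J, ‖∑ m ∈ (range X).filter (P y.2), a m * χ y.1 m‖ ^ 2 ≤
      (X + Δ) * ∑ m ∈ range X, ‖a m‖ ^ 2 := by
  rw [Finset.sum_product_right]
  have h1 : ∀ j ∈ J, ∑ x ∈ S, ‖∑ m ∈ (range X).filter (P j), a m * χ x m‖ ^ 2 ≤
      (X + Δ) * ∑ m ∈ (range X).filter (P j), ‖a m‖ ^ 2 := by
    intro j _
    have h2 := hLS X (fun n => if P j n then a n else 0)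
    have h3 : ∀ x, ∑ n ∈ range X, (if P j n then a n else 0) * χ x n =
        ∑ m ∈ (range X).filter (P j), a m * χ x m := by
      intro x
      rw [Finset.sum_filter]
      apply Finset.sum_congr rfl
      intro n _
      split_ifs
      · rfl
      · rw [zero_mul]
    have h4 : ∑ n ∈ range X, ‖(if P j n then a n else 0)‖ ^ 2 =
        ∑ m ∈ (range X).filter (P j), ‖a m‖ ^ 2 := by
      rw [Finset.sum_filter]
      apply Finset.sum_congr rfl
      intro n _
      split_ifs
      · rfl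
      · rw [norm_zero, zero_pow two_ne_zero]
    simp only [h3, h4] at h2
    exact h2
  refine (Finset.sum_le_sum h1).trans ?_
  rw [← Finset.mul_sum]
  have hX : 0 ≤ (X : ℝ) + Δ := by positivity
  exact mul_le_mul_of_nonneg_left
    (Bin_disj J (range X) P (fun m => ‖a m‖ ^ 2) (fun m => by positivity) h) hX

theorem prf_Bin (hBS : S_BinS) : S_Bin := by
  intro κ S χ Δ hΔ hLS a b X Y L T hT hY
  classical
  set P : ℕ → ℕ → ℕ → Prop := fun l j m => (T m / 2 ^ l) % 2 = 1 ∧ T m / 2 ^ (l + 1) = j with hP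
  set R : ℕ → ℕ → ℕ → Prop := fun l j k => k ∈ Ico (2 ^ (l + 1) * j) (2 ^ (l + 1) * j + 2 ^ l)
    with hR
  set A : ℕ → ℕ → κ → ℂ := fun l j x => ∑ m ∈ (range X).filter (P l j), a m * χ x m with hA
  set B : ℕ → ℕ → κ → ℂ := fun l j x => ∑ k ∈ (range Y).filter (R l j), b k * χ x k with hB
  have hPd : ∀ l, ∀ j j' m, P l j m → P l j' m → j = j' := by
    intro l j j' m h1 h2
    rw [← h1.2, ← h2.2]
  have hRd : ∀ l, ∀ j j' m, R l j m → R l j' m → j = j' := by
    intro l j j' m h1 h2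
    have key : ∀ j, R l j m → m / 2 ^ (l + 1) = j := by
      intro j h
      have h3 := Finset.mem_Ico.1 h
      have h4 : 2 ^ l < 2 ^ (l + 1) := Nat.pow_lt_pow_right (by norm_num) (Nat.lt_succ_self l)
      apply Nat.div_eq_of_lt_le
      · rw [mul_comm]; exact h3.1
      · rw [Nat.succ_mul, mul_comm]
        omega
    rw [← key j h1, ← key j' h2]
  -- the identity
  have hid : ∀ x, ∑ m ∈ range X, a m * χ x m * ∑ k ∈ range (T m), b k * χ x k =
      ∑ l ∈ range L, ∑ j ∈ range (Y + 1), A l j x * B l j x := by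
    intro x
    have h1 : ∀ m ∈ range X, a m * χ x m * ∑ k ∈ range (T m), b k * χ x k =
        ∑ l ∈ range L, ∑ j ∈ range (Y + 1), if P l j m then a m * χ x m * B l j x else 0 := by
      intro m _
      rw [hBS (T m) L (fun k => b k * χ x k) (lt_of_le_of_lt (hT m) hY), Finset.mul_sum]
      apply Finset.sum_congr rfl
      intro l _
      by_cases hbit : (T m / 2 ^ l) % 2 = 1
      · rw [if_pos hbit]
        have hj : T m / 2 ^ (l + 1) ∈ range (Y + 1) := by
          rw [Finset.mem_range]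
          have := Nat.div_le_self (T m) (2 ^ (l + 1))
          have := hT m
          omega
        symm
        rw [Finset.sum_eq_single (T m / 2 ^ (l + 1))]
        · have h2 : P l (T m / 2 ^ (l + 1)) m := ⟨hbit, rfl⟩
          rw [if_pos h2]
          congr 1
          rw [hB]
          apply Finset.sum_congr _ (fun _ _ => rfl)
          ext k
          rw [Finset.mem_filter, Finset.mem_range]
          refine Iff.symm ⟨?_, ?_⟩
          · intro hk
            refine ⟨?_, hk⟩
            have h3 := (Finset.mem_Ico.1 hk).2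
            have h4 : 2 ^ (l + 1) * (T m / 2 ^ (l + 1)) + 2 ^ l = 2 ^ l * (T m / 2 ^ l) := by
              have h5 : T m / 2 ^ (l + 1) = T m / 2 ^ l / 2 := by
                rw [pow_succ, Nat.div_div_eq_div_mul]
              have h6 := Nat.div_add_mod (T m / 2 ^ l) 2
              rw [hbit] at h6
              rw [h5, pow_succ]
              conv_rhs => rw [← h6]
              ring
            have h7 : 2 ^ l * (T m / 2 ^ l) ≤ T m := Nat.mul_div_le _ _
            have h8 := hT m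
            omega
          · intro hk
            exact hk.2
        · intro j _ hne
          rw [if_neg]
          intro h2
          exact hne h2.2.symm
        · intro h2
          exact absurd hj h2
      · rw [if_neg hbit, mul_zero, Finset.sum_eq_zero]
        intro j _
        rw [if_neg]
        intro h2
        exact hbit h2.1
    rw [Finset.sum_congr rfl h1, Finset.sum_comm]
    apply Finset.sum_congr rfl
    intro l _
    rw [Finset.sum_comm]
    apply Finset.sum_congr rfl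
    intro j _
    rw [hA]
    simp only
    rw [Finset.sum_mul, Finset.sum_filter]
  -- Cauchy
  have hC : ∀ l, ∑ x ∈ S, ∑ j ∈ range (Y + 1), ‖A l j x‖ * ‖B l j x‖ ≤
      √((X + Δ) * ∑ m ∈ range X, ‖a m‖ ^ 2) * √((Y + Δ) * ∑ k ∈ range Y, ‖b k‖ ^ 2) := by
    intro l
    rw [← Finset.sum_product' (f := fun x j => ‖A l j x‖ * ‖B l j x‖)]
    refine (Real.sum_mul_le_sqrt_mul_sqrt _ _ _).trans ?_
    apply mul_le_mul
    · exact Real.sqrt_le_sqrt (Bin_ls S χ Δ hΔ hLS a X (range (Y + 1)) (P l) (hPd l))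
    · exact Real.sqrt_le_sqrt (Bin_ls S χ Δ hΔ hLS b Y (range (Y + 1)) (R l) (hRd l))
    · exact Real.sqrt_nonneg _
    · exact Real.sqrt_nonneg _
  calc ∑ x ∈ S, ‖∑ m ∈ range X, a m * χ x m * ∑ k ∈ range (T m), b k * χ x k‖
      ≤ ∑ x ∈ S, ∑ l ∈ range L, ∑ j ∈ range (Y + 1), ‖A l j x‖ * ‖B l j x‖ := by
        apply Finset.sum_le_sum
        intro x _
        rw [hid x]
        apply norm_sum_le_of_le
        intro l _
        apply norm_sum_le_of_le
        intro j _
        rw [norm_mul]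
    _ = ∑ l ∈ range L, ∑ x ∈ S, ∑ j ∈ range (Y + 1), ‖A l j x‖ * ‖B l j x‖ := Finset.sum_comm
    _ ≤ ∑ l ∈ range L, √((X + Δ) * ∑ m ∈ range X, ‖a m‖ ^ 2) *
          √((Y + Δ) * ∑ k ∈ range Y, ‖b k‖ ^ 2) := Finset.sum_le_sum fun l _ => hC l
    _ = _ := by rw [Finset.sum_const, Finset.card_range, nsmul_eq_mul]

end MPb51559.BG.B
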