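import Pool.Agent.Work.MP_b51559_nt.BG.B.Stmts

set_option autoImplicit false

/-!
# Item BinS: binary digits
-/

namespace MPb51559.BG.B

open Finset

theorem BinS_step (t l : ℕ) (f : ℕ → ℂ) :
    ∑ k ∈ range (2 ^ l * (t / 2 ^ l)), f k =
      ∑ k ∈ range (2 ^ (l + 1) * (t / 2 ^ (l + 1))), f k +
        if (t / 2 ^ l) % 2 = 1 then
          ∑ k ∈ Ico (2 ^ (l + 1) * (t / 2 ^ (l + 1))) (2 ^ (l + 1) * (t / 2 ^ (l + 1)) + 2 ^ l), f k
        else 0 := by
  have h5 : t / 2 ^ (l + 1) = t / 2 ^ l / 2 := by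
    rw [pow_succ, Nat.div_div_eq_div_mul]
  have h6 := Nat.div_add_mod (t / 2 ^ l) 2
  have h7 : 2 ^ l * (t / 2 ^ l) = 2 ^ (l + 1) * (t / 2 ^ (l + 1)) + 2 ^ l * ((t / 2 ^ l) % 2) := by
    rw [h5, pow_succ]
    conv_lhs => rw [← h6]
    ring
  rw [h7]
  split_ifs with h
  · rw [h, mul_one]
    have h8 := Finset.sum_Ico_consecutive f (Nat.zero_le (2 ^ (l + 1) * (t / 2 ^ (l + 1))))
      (Nat.le_add_right _ (2 ^ l))
    rw [Finset.range_eq_Ico, Finset.range_eq_Ico]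
    exact h8.symm
  · have h0 : (t / 2 ^ l) % 2 = 0 := by omega
    rw [h0, mul_zero, add_zero, add_zero]

theorem prf_BinS : S_BinS := by
  intro t L f ht
  have key : ∀ M : ℕ, ∑ k ∈ range t, f k = ∑ k ∈ range (2 ^ M * (t / 2 ^ M)), f k +
      ∑ l ∈ range M, if (t / 2 ^ l) % 2 = 1 then
        ∑ k ∈ Ico (2 ^ (l + 1) * (t / 2 ^ (l + 1))) (2 ^ (l + 1) * (t / 2 ^ (l + 1)) + 2 ^ l), f k
        else 0 := by
    intro M
    induction M with
    | zero => simp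
    | succ M ih =>
      rw [ih, BinS_step t M f, Finset.sum_range_succ]
      ring
  have h1 := key L
  rw [Nat.div_eq_of_lt ht, mul_zero, Finset.range_zero, Finset.sum_empty, zero_add] at h1
  exact h1

end MPb51559.BG.B
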