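import Pool.Agent.Work.MP_b51559_nt.BG.B.Stmts

set_option autoImplicit false

/-!
# Item Blk: a dyadic block of conductors
-/

namespace MPb51559.BG.B

open Finset

theorem Blk_log_one {N : ℕ} (hN : 3 ≤ N) : 1 ≤ Real.log N := by
  rw [Real.le_log_iff_exp_le (by positivity)]
  have h1 : Real.exp 1 < 2.7182818286 := Real.exp_one_lt_d9
  have h2 : (3 : ℝ) ≤ N := by exact_mod_cast hN
  linarith

theorem Blk_totient (hTot : S_Tot) {N f F : ℕ} (hN : 3 ≤ N) (hf : 1 ≤ f) (hfN : f ≤ N) (hF : 0 < F)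
    (hfF : F ≤ 2 * f) : 1 / (f.totient : ℝ) ≤ 6 * Real.log N / F := by
  have h1 := hTot f hf
  have hl1 := Blk_log_one hN
  have hf' : (0 : ℝ) < f := by exact_mod_cast hf
  have hF' : (0 : ℝ) < F := by exact_mod_cast hF
  have hfN' : (f : ℝ) ≤ N := by exact_mod_cast hfN
  have hfF' : (F : ℝ) ≤ 2 * f := by exact_mod_cast hfF
  have ht : (0 : ℝ) < f.totient := by exact_mod_cast Nat.totient_pos.mpr hf
  have hlog : Real.log f ≤ Real.log N := Real.log_le_log hf' hfN'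
  rw [div_le_div_iff₀ ht hF', one_mul]
  calc (F : ℝ) ≤ 2 * f := hfF'
    _ ≤ 2 * ((1 + 2 * Real.log f) * f.totient) := by linarith
    _ ≤ 2 * ((3 * Real.log N) * f.totient) := by
        have : (1 + 2 * Real.log f) * (f.totient : ℝ) ≤ (3 * Real.log N) * f.totient :=
          mul_le_mul_of_nonneg_right (by linarith) ht.le
        linarith
    _ = 6 * Real.log N * f.totient := by ring

theorem prf_Blk (hMV : S_MV) (hTot : S_Tot) : S_Blk := by
  obtain ⟨C, hC, hMV⟩ := hMV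
  refine ⟨12 * C + 96, by positivity, ?_⟩
  intro N U Q L j hN hU hUN hQ hL
  have hl1 := Blk_log_one hN
  have hl0 : 0 < Real.log N := by linarith
  have hL' : (0 : ℝ) < L := by exact_mod_cast hL
  have hU' : (1 : ℝ) ≤ U := by exact_mod_cast hU
  have hsU : 0 < √(U : ℝ) := Real.sqrt_pos.mpr (by linarith)
  rcases Finset.eq_empty_or_nonempty
    ((Finset.Icc 2 Q).filter (fun f => L < f ∧ Nat.log 2 f = j)) with hemp | ⟨f0, hf0⟩
  · rw [hemp, Finset.sum_empty]
    positivity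
  rw [Finset.mem_filter, Finset.mem_Icc] at hf0
  obtain ⟨⟨h2, hfQ⟩, hLf, hlog⟩ := hf0
  have hpow : ∀ f, f ≠ 0 → Nat.log 2 f = j → 2 ^ j ≤ f ∧ f < 2 ^ (j + 1) := by
    intro f hf hj
    rw [← hj]
    exact ⟨Nat.pow_log_le_self 2 hf, Nat.lt_pow_succ_log_self (by norm_num) f⟩
  obtain ⟨F, hF⟩ : ∃ F, F = 2 ^ (j + 1) := ⟨_, rfl⟩
  rw [← hF] at hpow
  have hF2 : F = 2 * 2 ^ j := by rw [hF, pow_succ]; ring
  obtain ⟨hj1, hj2⟩ := hpow f0 (by omega) hlog
  have hFpos : 0 < F := by omega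
  have hLF : L ≤ F := by omega
  have hFQ : F ≤ 2 * Q := by omega
  have hFpos' : (0:ℝ) < F := by exact_mod_cast hFpos
  have hLF' : (L:ℝ) ≤ F := by exact_mod_cast hLF
  have hFQ' : (F:ℝ) ≤ 2 * Q := by exact_mod_cast hFQ
  have hM := hMV N U F hN hU hUN hFpos (by omega)
  have h1 : ∑ f ∈ (Finset.Icc 2 Q).filter (fun f => L < f ∧ Nat.log 2 f = j),
      GG N f / f.totient ≤ (6 * Real.log N / F) * ∑ f ∈ Finset.Icc 2 F, GG N f := by
    rw [Finset.mul_sum]
    calc _ ≤ ∑ f ∈ (Finset.Icc 2 Q).filter (fun f => L < f ∧ Nat.log 2 f = j),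
          (6 * Real.log N / F) * GG N f := by
          apply Finset.sum_le_sum
          intro f hf
          rw [Finset.mem_filter, Finset.mem_Icc] at hf
          obtain ⟨hf1, hf2⟩ := hpow f (by omega) hf.2.2
          have h3 := Blk_totient hTot (N := N) (f := f) (F := F) hN (by omega) (by omega) hFpos
            (by omega)
          calc GG N f / f.totient = (1 / (f.totient : ℝ)) * GG N f := by ring
            _ ≤ _ := mul_le_mul_of_nonneg_right h3 (GG_nonneg N f)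
      _ ≤ _ := by
          apply Finset.sum_le_sum_of_subset_of_nonneg
          · intro f hf
            rw [Finset.mem_filter, Finset.mem_Icc] at hf
            obtain ⟨hf1, hf2⟩ := hpow f (by omega) hf.2.2
            rw [Finset.mem_Icc]
            omega
          · intro f _ _
            have := GG_nonneg N f
            positivity
  refine h1.trans ?_
  have hc : 0 ≤ 6 * Real.log N / F := by positivity
  refine (mul_le_mul_of_nonneg_left hM hc).trans ?_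
  have hNL : (N : ℝ) / F ≤ N / L := by
    apply div_le_div_of_nonneg_left (by positivity) hL' hLF'
  have hsN : 0 ≤ √(N : ℝ) := Real.sqrt_nonneg _
  have e1 : 6 * Real.log N / F * (C * Real.log N ^ 6 * (N + F * (N / √(U : ℝ)) +
      (F : ℝ) ^ 2 * √(N : ℝ)) + 4 * (F : ℝ) ^ 3 * (U : ℝ) ^ 2 * Real.log N) =
      6 * C * Real.log N ^ 7 * (N / F + N / √(U : ℝ) + F * √(N : ℝ)) +
        24 * (F : ℝ) ^ 2 * (U : ℝ) ^ 2 * Real.log N ^ 2 := by
    field_simp
    ring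
  rw [e1]
  have e2 : (N / F + N / √(U : ℝ) + F * √(N : ℝ)) ≤
      2 * (N / L + N / √(U : ℝ) + Q * √(N : ℝ)) := by
    have h4 : (F : ℝ) * √(N : ℝ) ≤ 2 * Q * √(N : ℝ) := mul_le_mul_of_nonneg_right hFQ' hsN
    have h5 : 0 ≤ (N : ℝ) / L := by positivity
    have h6 : 0 ≤ (N : ℝ) / √(U : ℝ) := by positivity
    linarith
  have e3 : (F : ℝ) ^ 2 ≤ 4 * (Q : ℝ) ^ 2 := by
    have : (F : ℝ) ^ 2 ≤ (2 * Q) ^ 2 := pow_le_pow_left₀ hFpos'.le hFQ' 2
    linarith [this, mul_pow (2:ℝ) (Q:ℝ) 2]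
  have hX : 0 ≤ (N / L + N / √(U : ℝ) + Q * √(N : ℝ)) := by positivity
  have h7 : 0 ≤ Real.log N ^ 7 * (N / L + N / √(U : ℝ) + Q * √(N : ℝ)) := by positivity
  have h8 : 0 ≤ (Q : ℝ) ^ 2 * (U : ℝ) ^ 2 * Real.log N ^ 2 := by positivity
  have h9 : 6 * C * Real.log N ^ 7 * (N / F + N / √(U : ℝ) + F * √(N : ℝ)) ≤
      6 * C * Real.log N ^ 7 * (2 * (N / L + N / √(U : ℝ) + Q * √(N : ℝ))) :=
    mul_le_mul_of_nonneg_left e2 (by positivity)
  have h10 : 24 * (F : ℝ) ^ 2 * (U : ℝ) ^ 2 * Real.log N ^ 2 ≤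
      24 * (4 * (Q : ℝ) ^ 2) * (U : ℝ) ^ 2 * Real.log N ^ 2 := by
    gcongr
  nlinarith [h7, h8, h9, h10, mul_nonneg hC.le h8]

end MPb51559.BG.B
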