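import Pool.Agent.Work.MP_b51559_nt.BG.B.Stmts

set_option autoImplicit false

/-! Item Cop of part B: prime powers which are not coprime to the modulus. -/

namespace MPb51559.BG.B

open Finset ArithmeticFunction

/-- the sum of `Λ` over a set of integers `≤ N` whose prime powers have their prime in `P` -/
theorem sum_vM_le_card (N : ℕ) (S P : Finset ℕ) (hS : S ⊆ Icc 1 N)
    (h : ∀ n ∈ S, IsPrimePow n → n.minFac ∈ P) :
    ∑ n ∈ S, vonMangoldt n ≤ P.card * Real.log N := by
  classical
  have e1 : ∑ n ∈ S, vonMangoldt n = ∑ n ∈ S.filter (fun n => IsPrimePow n), vonMangoldt n := by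
    rw [Finset.sum_filter]
    refine Finset.sum_congr rfl fun n _ => ?_
    split_ifs with hp
    · rfl
    · rw [vonMangoldt_apply, if_neg hp]
  have e2 : ∑ n ∈ S.filter (fun n => IsPrimePow n), vonMangoldt n =
      ∑ p ∈ P, ∑ n ∈ (S.filter (fun n => IsPrimePow n)).filter (fun n => n.minFac = p),
        vonMangoldt n := by
    rw [Finset.sum_fiberwise_of_maps_to]
    intro n hn
    rw [Finset.mem_filter] at hn
    exact h n hn.1 hn.2
  rw [e1, e2, ← nsmul_eq_mul]
  refine Finset.sum_le_card_nsmul _ _ _ fun p _ => ?_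
  set W := (S.filter (fun n => IsPrimePow n)).filter (fun n => n.minFac = p) with hW
  rcases W.eq_empty_or_nonempty with h0 | ⟨n₀, hn₀⟩
  · rw [h0, Finset.sum_empty]
    exact Real.log_natCast_nonneg N
  have hmem : ∀ n ∈ W, n ∈ S ∧ IsPrimePow n ∧ n.minFac = p := by
    intro n hn
    rw [hW, Finset.mem_filter, Finset.mem_filter] at hn
    exact ⟨hn.1.1, hn.1.2, hn.2⟩
  have hp : p.Prime := by
    obtain ⟨_, h2, h3⟩ := hmem n₀ hn₀
    rw [← h3]
    exact Nat.minFac_prime h2.ne_one
  have hN : N ≠ 0 := by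
    have := Finset.mem_Icc.1 (hS (hmem n₀ hn₀).1)
    omega
  have hsub : W ⊆ (Icc 1 (Nat.log p N)).image (fun j => p ^ j) := by
    intro n hn
    obtain ⟨h1, h2, h3⟩ := hmem n hn
    have h4 := h2.minFac_pow_factorization_eq
    rw [h3] at h4
    rw [Finset.mem_image]
    refine ⟨n.factorization p, ?_, h4⟩
    rw [Finset.mem_Icc]
    constructor
    · by_contra h5
      have h6 : n.factorization p = 0 := by omega
      rw [h6, pow_zero] at h4
      exact h2.ne_one h4.symm
    · refine Nat.le_log_of_pow_le hp.one_lt ?_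
      rw [h4]
      exact (Finset.mem_Icc.1 (hS h1)).2
  have hcard : W.card ≤ Nat.log p N := by
    refine (Finset.card_le_card hsub).trans (Finset.card_image_le.trans ?_)
    simp
  have hval : ∀ n ∈ W, vonMangoldt n = Real.log p := by
    intro n hn
    obtain ⟨_, h2, h3⟩ := hmem n hn
    rw [vonMangoldt_apply, if_pos h2, h3]
  rw [Finset.sum_congr rfl hval, Finset.sum_const, nsmul_eq_mul]
  have hlogp : 0 ≤ Real.log p := Real.log_natCast_nonneg p
  have h7 : (W.card : ℝ) * Real.log p ≤ (Nat.log p N : ℝ) * Real.log p :=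
    mul_le_mul_of_nonneg_right (by exact_mod_cast hcard) hlogp
  refine h7.trans ?_
  rw [← Real.log_pow]
  refine Real.log_le_log (by have := hp.pos; positivity) ?_
  exact_mod_cast Nat.pow_log_le_self p hN

/-- `ω(E) ≤ 2 log E` -/
theorem card_pf_le (E : ℕ) (hE : 1 ≤ E) : (E.primeFactors.card : ℝ) ≤ 2 * Real.log E := by
  have h1 : 2 ^ E.primeFactors.card ≤ E := by
    calc 2 ^ E.primeFactors.card ≤ ∏ p ∈ E.primeFactors, p := by
          refine Finset.pow_card_le_prod _ _ _ fun p hp => ?_
          exact (Nat.prime_of_mem_primeFactors hp).two_le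
      _ ≤ E := Nat.le_of_dvd hE (Nat.prod_primeFactors_dvd E)
  have h2 : (E.primeFactors.card : ℝ) * Real.log 2 ≤ Real.log E := by
    rw [← Real.log_pow]
    refine Real.log_le_log (by positivity) ?_
    exact_mod_cast h1
  have h3 : (1 / 2 : ℝ) ≤ Real.log 2 := by
    have := Real.log_two_gt_d9
    linarith
  have h4 : (0 : ℝ) ≤ (E.primeFactors.card : ℝ) := by positivity
  nlinarith

theorem prf_Cop : S_Cop := by
  intro N E hN hE
  have h1 : cop N E ≤ E.primeFactors.card * Real.log N := by
    refine sum_vM_le_card N _ _ (Finset.filter_subset _ _) ?_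
    intro n hn hpp
    rw [Finset.mem_filter] at hn
    have hp : n.minFac.Prime := Nat.minFac_prime hpp.ne_one
    rw [Nat.mem_primeFactors]
    refine ⟨hp, ?_, by omega⟩
    by_contra hd
    refine hn.2 ?_
    have h4 := hpp.minFac_pow_factorization_eq
    rw [← h4]
    exact ((Nat.Prime.coprime_iff_not_dvd hp).2 hd).pow_left _
  refine h1.trans ?_
  exact mul_le_mul_of_nonneg_right (card_pf_le E hE) (Real.log_natCast_nonneg N)

end MPb51559.BG.B
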