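import Pool.Agent.Work.MP_b51559_nt.BG.B.Stmts

set_option autoImplicit false

/-!
# Bounded gaps, part B, item Ev: the trivial bound for one residue class
-/

namespace MPb51559.BG.B

open Finset ArithmeticFunction

theorem Ev_the0 (N : ℕ) (hN : 1 ≤ N) : 0 ≤ the0 N ∧ the0 N ≤ N * Real.log N := by
  unfold the0
  constructor
  · refine Finset.sum_nonneg fun p hp => ?_
    rw [Finset.mem_filter, Finset.mem_Icc] at hp
    exact Real.log_nonneg (by exact_mod_cast hp.1.1)
  · calc ∑ p ∈ (Icc 1 N).filter Nat.Prime, Real.log p ≤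
          ∑ p ∈ (Icc 1 N).filter Nat.Prime, Real.log N := by
          refine Finset.sum_le_sum fun p hp => ?_
          rw [Finset.mem_filter, Finset.mem_Icc] at hp
          exact Real.log_le_log (by exact_mod_cast hp.1.1) (by exact_mod_cast hp.1.2)
      _ = ((Icc 1 N).filter Nat.Prime).card * Real.log N := by simp
      _ ≤ N * Real.log N := by
          apply mul_le_mul_of_nonneg_right _ (Real.log_nonneg (by exact_mod_cast hN))
          have := Finset.card_filter_le (Icc 1 N) Nat.Prime
          rw [Nat.card_Icc] at this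
          have h2 : ((Icc 1 N).filter Nat.Prime).card ≤ N := by omega
          exact_mod_cast h2

theorem Ev_card (N q a : ℕ) (hq : 1 ≤ q) :
    (((Icc 1 N).filter (fun n => n ≡ a [MOD q])).card : ℝ) ≤ N / q + 1 := by
  have h2 : ((Icc 1 N).filter (fun n => n ≡ a [MOD q])).card ≤ (range (N / q + 1)).card := by
    apply Finset.card_le_card_of_injOn (fun n => n / q)
    · intro n hn
      have hn' := Finset.mem_coe.1 hn
      rw [Finset.mem_filter, Finset.mem_Icc] at hn'
      exact Finset.mem_coe.2 (Finset.mem_range.2 (Nat.lt_succ_of_le (Nat.div_le_div_right hn'.1.2)))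
    · intro n hn m hm hnm
      have hn' := Finset.mem_coe.1 hn
      have hm' := Finset.mem_coe.1 hm
      rw [Finset.mem_filter] at hn' hm'
      have h1 : n % q = m % q := by
        have e1 := hn'.2
        have e2 := hm'.2
        unfold Nat.ModEq at e1 e2
        rw [e1, e2]
      have h3 : n / q = m / q := hnm
      rw [← Nat.div_add_mod n q, ← Nat.div_add_mod m q, h1, h3]
  rw [Finset.card_range] at h2
  have h3 : ((N / q : ℕ) : ℝ) ≤ (N : ℝ) / q := Nat.cast_div_le
  have h4 : (((Icc 1 N).filter (fun n => n ≡ a [MOD q])).card : ℝ) ≤ ((N / q + 1 : ℕ) : ℝ) := by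
    exact_mod_cast h2
  push_cast at h4
  linarith

theorem Ev_theA (N q a : ℕ) (hN : 1 ≤ N) (hq : 1 ≤ q) (hqN : q ≤ N) :
    0 ≤ theA N q a ∧ theA N q a ≤ 2 * (N / q) * Real.log N := by
  have hlog : 0 ≤ Real.log N := Real.log_nonneg (by exact_mod_cast hN)
  have hq0 : (0 : ℝ) < q := by exact_mod_cast hq
  unfold theA
  constructor
  · refine Finset.sum_nonneg fun p hp => ?_
    rw [Finset.mem_filter, Finset.mem_Icc] at hp
    exact Real.log_nonneg (by exact_mod_cast hp.1.1)
  · have h1 : ((Icc 1 N).filter (fun p => p.Prime ∧ p ≡ a [MOD q])).card ≤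
        ((Icc 1 N).filter (fun n => n ≡ a [MOD q])).card := by
      apply Finset.card_le_card
      intro p hp
      rw [Finset.mem_filter] at hp ⊢
      exact ⟨hp.1, hp.2.2⟩
    calc ∑ p ∈ (Icc 1 N).filter (fun p => p.Prime ∧ p ≡ a [MOD q]), Real.log p ≤
          ∑ p ∈ (Icc 1 N).filter (fun p => p.Prime ∧ p ≡ a [MOD q]), Real.log N := by
          refine Finset.sum_le_sum fun p hp => ?_
          rw [Finset.mem_filter, Finset.mem_Icc] at hp
          exact Real.log_le_log (by exact_mod_cast hp.1.1) (by exact_mod_cast hp.1.2)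
      _ = ((Icc 1 N).filter (fun p => p.Prime ∧ p ≡ a [MOD q])).card * Real.log N := by simp
      _ ≤ (N / q + 1) * Real.log N := by
          apply mul_le_mul_of_nonneg_right _ hlog
          have h2 : (((Icc 1 N).filter (fun p => p.Prime ∧ p ≡ a [MOD q])).card : ℝ) ≤
              ((Icc 1 N).filter (fun n => n ≡ a [MOD q])).card := by exact_mod_cast h1
          exact h2.trans (Ev_card N q a hq)
      _ ≤ 2 * (N / q) * Real.log N := by
          apply mul_le_mul_of_nonneg_right _ hlog
          have h3 : (1 : ℝ) ≤ N / q := by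
            rw [le_div_iff₀ hq0, one_mul]
            exact_mod_cast hqN
          linarith

theorem prf_Ev (hTot : S_Tot) : S_Ev := by
  intro N q a hN hq hqN
  have hq0 : (0 : ℝ) < q := by exact_mod_cast hq
  have hN0 : (0 : ℝ) < N := by
    have : 0 < N := by omega
    exact_mod_cast this
  have hlog1 : 1 ≤ Real.log N := by
    have h3 : (3 : ℝ) ≤ N := by exact_mod_cast hN
    rw [Real.le_log_iff_exp_le hN0]
    have := Real.exp_one_lt_d9
    linarith
  have ht : (0 : ℝ) < q.totient := by exact_mod_cast Nat.totient_pos.2 hq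
  have h1 := Ev_theA N q a (by omega) hq hqN
  have h2 := Ev_the0 N (by omega)
  have h3 := hTot q hq
  have hlogq : Real.log q ≤ Real.log N := Real.log_le_log hq0 (by exact_mod_cast hqN)
  have hlogq0 : 0 ≤ Real.log q := Real.log_nonneg (by exact_mod_cast hq)
  have h4 : the0 N / q.totient ≤ 3 * (N / q) * Real.log N ^ 2 := by
    rw [div_le_iff₀ ht]
    have h5 : (q : ℝ) ≤ 3 * Real.log N * q.totient := by
      refine h3.trans ?_
      apply mul_le_mul_of_nonneg_right _ ht.le
      linarith
    calc the0 N ≤ N * Real.log N := h2.2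
      _ = (N / q) * Real.log N * q := by field_simp
      _ ≤ (N / q) * Real.log N * (3 * Real.log N * q.totient) := by
          apply mul_le_mul_of_nonneg_left h5
          positivity
      _ = 3 * (N / q) * Real.log N ^ 2 * q.totient := by ring
  have h6 : 0 ≤ the0 N / q.totient := div_nonneg h2.1 ht.le
  have h7 : 2 * ((N : ℝ) / q) * Real.log N ≤ 2 * (N / q) * Real.log N ^ 2 := by
    have h8 : 0 ≤ (N : ℝ) / q := by positivity
    nlinarith [mul_nonneg h8 (by linarith : (0:ℝ) ≤ Real.log N - 1),
      mul_nonneg (mul_nonneg h8 (by linarith : (0:ℝ) ≤ Real.log N - 1)) (by linarith : (0:ℝ) ≤ Real.log N)]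
  rw [abs_le]
  constructor
  · have : 0 ≤ (N : ℝ) / q * Real.log N ^ 2 := by positivity
    linarith [h1.1]
  · linarith [h1.2]

end MPb51559.BG.B
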