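import Pool.Agent.Work.MP_b51559_nt.BG.B.Stmts

set_option autoImplicit false

/-!
# Item IIb: one dyadic block of the type II sum
-/

namespace MPb51559.BG.B

open Finset ArithmeticFunction
open Pool.Agent.Work.MP_122e00_nt (Prim)
open MPb51559.BG.A (psi)

/-- the condition on `m` -/
def IIb_P (N U i m : ℕ) : Prop := U < m ∧ m ≤ N / U ∧ Nat.log 2 m = i

open Classical in
/-- the first coefficients -/
noncomputable def IIb_a (N U i m : ℕ) : ℂ := if IIb_P N U i m then (vonMangoldt m : ℂ) else 0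

open Classical in
/-- the thresholds -/
noncomputable def IIb_T (N U i m : ℕ) : ℕ := if IIb_P N U i m then N / m + 1 else 0

/-- the second coefficients -/
noncomputable def IIb_b (U k : ℕ) : ℂ :=
  if U < k then ((∑ d ∈ k.divisors.filter (fun d => U < d), (moebius d : ℤ) : ℤ) : ℂ) else 0

theorem IIb_inner (U t : ℕ) (x : (f : ℕ) × DirichletCharacter ℂ f) :
    ∑ n ∈ Ioc U t, ((∑ d ∈ n.divisors.filter (fun d => U < d), (moebius d : ℤ) : ℤ) : ℂ) * cv x n =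
      ∑ k ∈ range (t + 1), IIb_b U k * cv x k := by
  have h : Ioc U t = (range (t + 1)).filter (fun k => U < k) := by
    ext k
    simp only [mem_Ioc, mem_filter, mem_range]
    omega
  rw [h, sum_filter]
  refine sum_congr rfl fun k _ => ?_
  unfold IIb_b
  split_ifs <;> simp

theorem IIb_outer (N U i : ℕ) (x : (f : ℕ) × DirichletCharacter ℂ f) :
    ∑ m ∈ (Ioc U (N / U)).filter (fun m => Nat.log 2 m = i),
      (vonMangoldt m : ℂ) * cv x m *
        ∑ n ∈ Ioc U (N / m), ((∑ d ∈ n.divisors.filter (fun d => U < d), (moebius d : ℤ) : ℤ) : ℂ) *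
          cv x n =
    ∑ m ∈ range (2 ^ (i + 1)), IIb_a N U i m * cv x m *
      ∑ k ∈ range (IIb_T N U i m), IIb_b U k * cv x k := by
  classical
  have h : (Ioc U (N / U)).filter (fun m => Nat.log 2 m = i) =
      (range (2 ^ (i + 1))).filter (fun m => IIb_P N U i m) := by
    ext m
    simp only [mem_Ioc, mem_filter, mem_range, IIb_P]
    constructor
    · rintro ⟨⟨h1, h2⟩, h3⟩
      refine ⟨?_, h1, h2, h3⟩
      rw [← h3]
      exact Nat.lt_pow_succ_log_self (by norm_num) m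
    · rintro ⟨-, h1, h2, h3⟩
      exact ⟨⟨h1, h2⟩, h3⟩
  rw [h, sum_filter]
  refine sum_congr rfl fun m _ => ?_
  unfold IIb_a IIb_T
  split_ifs with hm
  · rw [IIb_inner]
  · simp

theorem IIb_sumA (N U i : ℕ) (hN : 3 ≤ N) :
    ∑ m ∈ range (2 ^ (i + 1)), ‖IIb_a N U i m‖ ^ 2 ≤ ((2 ^ (i + 1) : ℕ) : ℝ) * Real.log N ^ 2 := by
  have hl : 0 ≤ Real.log N := Real.log_natCast_nonneg N
  have h : ∀ m ∈ range (2 ^ (i + 1)), ‖IIb_a N U i m‖ ^ 2 ≤ Real.log N ^ 2 := by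
    intro m _
    unfold IIb_a
    split_ifs with hm
    · obtain ⟨h1, h2, -⟩ := hm
      have hm0 : 0 < m := by omega
      have hmN : m ≤ N := h2.trans (Nat.div_le_self N U)
      rw [Complex.norm_real, Real.norm_eq_abs, abs_of_nonneg vonMangoldt_nonneg]
      have h3 : vonMangoldt m ≤ Real.log m := vonMangoldt_le_log
      have h4 : Real.log m ≤ Real.log N :=
        Real.log_le_log (by exact_mod_cast hm0) (by exact_mod_cast hmN)
      exact pow_le_pow_left₀ vonMangoldt_nonneg (h3.trans h4) 2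
    · rw [norm_zero, zero_pow (by norm_num)]
      positivity
  refine (sum_le_sum h).trans ?_
  rw [sum_const, card_range, nsmul_eq_mul]

theorem IIb_sumB (U Y : ℕ) (hY : 1 ≤ Y) :
    ∑ k ∈ range Y, ‖IIb_b U k‖ ^ 2 ≤ (Y : ℝ) * (1 + Real.log Y) ^ 3 := by
  refine le_trans ?_ (Pool.Agent.Work.MP_e0aece_nt.Sq.claimC4 Y hY)
  have h1 : ∀ k, ‖IIb_b U k‖ ^ 2 ≤ if 0 < k then ((k.divisors.card : ℝ)) ^ 2 else 0 := by
    intro k
    unfold IIb_b
    split_ifs with h2 h3 h3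
    · refine pow_le_pow_left₀ (norm_nonneg _) ?_ 2
      rw [Complex.norm_intCast]
      have h4 : |∑ d ∈ k.divisors.filter (fun d => U < d), (moebius d : ℤ)| ≤ (k.divisors.card : ℤ) := by
        refine (abs_sum_le_sum_abs _ _).trans ?_
        refine (sum_le_sum (g := fun _ => (1 : ℤ)) fun d _ => abs_moebius_le_one).trans ?_
        rw [sum_const, nsmul_eq_mul, mul_one]
        exact_mod_cast card_filter_le _ _
      exact_mod_cast h4
    · omega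
    · simp
    · simp
  have h5 : Ioc 0 Y = (range (Y + 1)).filter (fun k => 0 < k) := by
    ext k
    simp only [mem_Ioc, mem_filter, mem_range]
    omega
  rw [h5, sum_filter]
  refine (sum_le_sum fun k _ => h1 k).trans ?_
  refine sum_le_sum_of_subset_of_nonneg (range_subset_range.2 (Nat.le_succ Y)) fun k _ _ => ?_
  split_ifs <;> positivity

/-- the real inequality -/
theorem IIb_real (s u ℓ F X Y Δ : ℝ) (hs : 0 ≤ s) (hu : 0 < u) (hℓ : 1 ≤ ℓ) (hF : 0 ≤ F)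
    (hX : 0 ≤ X) (hY : 0 ≤ Y) (hXY : X * Y ≤ 4 * s ^ 2) (hXu : X ≤ 2 * s ^ 2 / u ^ 2)
    (hYu : Y ≤ 4 * s ^ 2 / u ^ 2) (hΔ : 0 ≤ Δ) (hΔF : Δ ≤ 3 * F ^ 2 * ℓ) :
    √((X + Δ) * (X * ℓ ^ 2)) * √((Y + Δ) * (Y * (27 * ℓ ^ 3))) ≤
      45 * ℓ ^ 4 * (s ^ 2 + F * (s ^ 2 / u) + F ^ 2 * s) := by
  have hG : 0 ≤ s ^ 2 + F * (s ^ 2 / u) + F ^ 2 * s := by positivity
  rw [← Real.sqrt_mul (by positivity)]
  rw [Real.sqrt_le_left (by positivity)]
  have h1 : (X + Δ) * (X * ℓ ^ 2) * ((Y + Δ) * (Y * (27 * ℓ ^ 3))) =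
      27 * ℓ ^ 5 * ((X * Y + Δ * (X + Y) + Δ ^ 2) * (X * Y)) := by ring
  rw [h1]
  have h2 : X * Y + Δ * (X + Y) + Δ ^ 2 ≤
      4 * s ^ 2 + 3 * F ^ 2 * ℓ * (6 * s ^ 2 / u ^ 2) + (3 * F ^ 2 * ℓ) ^ 2 := by
    have h3 : Δ * (X + Y) ≤ 3 * F ^ 2 * ℓ * (6 * s ^ 2 / u ^ 2) := by
      refine mul_le_mul hΔF ?_ (by positivity) (by positivity)
      have : 6 * s ^ 2 / u ^ 2 = 2 * s ^ 2 / u ^ 2 + 4 * s ^ 2 / u ^ 2 := by ring
      linarith
    have h4 : Δ ^ 2 ≤ (3 * F ^ 2 * ℓ) ^ 2 := pow_le_pow_left₀ hΔ hΔF 2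
    linarith
  have h5 : (X * Y + Δ * (X + Y) + Δ ^ 2) * (X * Y) ≤
      (4 * s ^ 2 + 3 * F ^ 2 * ℓ * (6 * s ^ 2 / u ^ 2) + (3 * F ^ 2 * ℓ) ^ 2) * (4 * s ^ 2) :=
    mul_le_mul h2 hXY (by positivity) (by positivity)
  have h6 : (s ^ 2) ^ 2 + (F * (s ^ 2 / u)) ^ 2 + (F ^ 2 * s) ^ 2 ≤
      (s ^ 2 + F * (s ^ 2 / u) + F ^ 2 * s) ^ 2 := by
    have e1 : 0 ≤ s ^ 2 := by positivity
    have e2 : 0 ≤ F * (s ^ 2 / u) := by positivity
    have e3 : 0 ≤ F ^ 2 * s := by positivity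
    nlinarith [mul_nonneg e1 e2, mul_nonneg e1 e3, mul_nonneg e2 e3]
  have h7 : (4 * s ^ 2 + 3 * F ^ 2 * ℓ * (6 * s ^ 2 / u ^ 2) + (3 * F ^ 2 * ℓ) ^ 2) * (4 * s ^ 2) =
      16 * (s ^ 2) ^ 2 + 72 * ℓ * (F * (s ^ 2 / u)) ^ 2 + 36 * ℓ ^ 2 * (F ^ 2 * s) ^ 2 := by
    field_simp
    ring
  have h8 : 16 * (s ^ 2) ^ 2 + 72 * ℓ * (F * (s ^ 2 / u)) ^ 2 + 36 * ℓ ^ 2 * (F ^ 2 * s) ^ 2 ≤
      72 * ℓ ^ 3 * ((s ^ 2) ^ 2 + (F * (s ^ 2 / u)) ^ 2 + (F ^ 2 * s) ^ 2) := by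
    have l2 : 1 ≤ ℓ ^ 2 := one_le_pow₀ hℓ
    have l3 : ℓ ^ 2 ≤ ℓ ^ 3 := pow_le_pow_right₀ hℓ (by norm_num)
    have l1 : ℓ ≤ ℓ ^ 3 := by nlinarith
    have k1 : 16 * (s ^ 2) ^ 2 ≤ 72 * ℓ ^ 3 * (s ^ 2) ^ 2 :=
      mul_le_mul_of_nonneg_right (by linarith) (by positivity)
    have k2 : 72 * ℓ * (F * (s ^ 2 / u)) ^ 2 ≤ 72 * ℓ ^ 3 * (F * (s ^ 2 / u)) ^ 2 :=
      mul_le_mul_of_nonneg_right (by linarith) (by positivity)
    have k3 : 36 * ℓ ^ 2 * (F ^ 2 * s) ^ 2 ≤ 72 * ℓ ^ 3 * (F ^ 2 * s) ^ 2 :=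
      mul_le_mul_of_nonneg_right (by linarith) (by positivity)
    linarith
  have h9 : 27 * ℓ ^ 5 * ((X * Y + Δ * (X + Y) + Δ ^ 2) * (X * Y)) ≤
      27 * ℓ ^ 5 * (72 * ℓ ^ 3 * (s ^ 2 + F * (s ^ 2 / u) + F ^ 2 * s) ^ 2) := by
    refine mul_le_mul_of_nonneg_left ?_ (by positivity)
    refine h5.trans (h7.le.trans (h8.trans ?_))
    exact mul_le_mul_of_nonneg_left h6 (by positivity)
  refine h9.trans ?_
  have h10 : 27 * ℓ ^ 5 * (72 * ℓ ^ 3 * (s ^ 2 + F * (s ^ 2 / u) + F ^ 2 * s) ^ 2) =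
      1944 * (ℓ ^ 8 * (s ^ 2 + F * (s ^ 2 / u) + F ^ 2 * s) ^ 2) := by ring
  have h11 : (45 * ℓ ^ 4 * (s ^ 2 + F * (s ^ 2 / u) + F ^ 2 * s)) ^ 2 =
      2025 * (ℓ ^ 8 * (s ^ 2 + F * (s ^ 2 / u) + F ^ 2 * s) ^ 2) := by ring
  rw [h10, h11]
  exact mul_le_mul_of_nonneg_right (by norm_num) (by positivity)

theorem prf_IIb (hBin : S_Bin) (hLS : S_LS) : S_IIb := by
  refine ⟨180, by norm_num, fun N U F i hN hU hF hFN => ?_⟩
  classical
  have hN0 : (0 : ℝ) < N := by exact_mod_cast (by omega : 0 < N)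
  have hU0 : (0 : ℝ) < U := by exact_mod_cast (by omega : 0 < U)
  have hℓ : 1 ≤ Real.log N := by
    have h1 : Real.log 3 ≤ Real.log N := Real.log_le_log (by norm_num) (by exact_mod_cast hN)
    have h2 : 1 ≤ Real.log 3 := by
      rw [Real.le_log_iff_exp_le (by norm_num)]
      exact Real.exp_one_lt_three.le
    linarith
  by_cases hne : ∃ m, IIb_P N U i m
  swap
  · have hem : (Ioc U (N / U)).filter (fun m => Nat.log 2 m = i) = ∅ := by
      ext m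
      simp only [mem_Ioc, mem_filter, notMem_empty, iff_false]
      rintro ⟨⟨h1, h2⟩, h3⟩
      exact hne ⟨m, h1, h2, h3⟩
    simp only [hem, sum_empty, norm_zero, sum_const_zero]
    positivity
  obtain ⟨m₀, h1, h2, h3⟩ := hne
  have hm0 : m₀ ≠ 0 := by omega
  have hpow : 2 ^ i ≤ m₀ := by
    rw [← h3]
    exact Nat.pow_log_le_self 2 hm0
  have hpow2 : m₀ < 2 ^ (i + 1) := by
    rw [← h3]
    exact Nat.lt_pow_succ_log_self (by norm_num) m₀
  have hiU : 2 ^ i * U ≤ N := by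
    have : 2 ^ i ≤ N / U := hpow.trans h2
    exact (Nat.le_div_iff_mul_le (by omega)).1 this
  have hUi : U < 2 ^ (i + 1) := h1.trans hpow2
  have hiN : 2 ^ i ≤ N := (Nat.le_mul_of_pos_right _ (by omega)).trans hiU
  simp only [IIb_outer]
  set X : ℕ := 2 ^ (i + 1) with hX
  set Y : ℕ := N / 2 ^ i + 1 with hY
  set L : ℕ := Nat.log 2 (2 * N) + 1 with hL
  have hYN : Y ≤ 2 * N := by
    have : N / 2 ^ i ≤ N := Nat.div_le_self _ _
    rw [hY]
    generalize N / 2 ^ i = w at this ⊢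
    omega
  have hYL : Y < 2 ^ L := hYN.trans_lt (Nat.lt_pow_succ_log_self (by norm_num) (2 * N))
  have hT : ∀ m, IIb_T N U i m ≤ Y := by
    intro m
    unfold IIb_T
    split_ifs with hm
    · obtain ⟨k1, -, k3⟩ := hm
      have k4 : 2 ^ i ≤ m := by
        rw [← k3]
        exact Nat.pow_log_le_self 2 (by omega)
      exact Nat.add_le_add_right (Nat.div_le_div_left k4 (by positivity)) 1
    · exact Nat.zero_le _
  have hlF : 0 ≤ Real.log F := Real.log_natCast_nonneg F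
  have hΔ0 : 0 ≤ (F : ℝ) ^ 2 * (1 + 2 * Real.log F) := by positivity
  refine (hBin _ (PX F) cv ((F : ℝ) ^ 2 * (1 + 2 * Real.log F)) hΔ0 (hLS F hF) (IIb_a N U i) (IIb_b U)
    X Y L (IIb_T N U i) hT hYL).trans ?_
  -- bounds for the sums of squares
  have hY1 : 1 ≤ Y := Nat.le_add_left 1 _
  have hYr : (0 : ℝ) < Y := by exact_mod_cast hY1
  have hlogY : Real.log Y ≤ 2 * Real.log N := by
    have k1 : Real.log Y ≤ Real.log ((N : ℝ) ^ 2) := by
      refine Real.log_le_log hYr ?_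
      have k2 : (Y : ℝ) ≤ 2 * N := by exact_mod_cast hYN
      have k3 : (3 : ℝ) ≤ N := by exact_mod_cast hN
      nlinarith
    rw [Real.log_pow] at k1
    exact_mod_cast k1
  have hlogY0 : 0 ≤ Real.log Y := Real.log_natCast_nonneg Y
  have hA := IIb_sumA N U i hN
  have hB : ∑ k ∈ range Y, ‖IIb_b U k‖ ^ 2 ≤ (Y : ℝ) * (27 * Real.log N ^ 3) := by
    refine (IIb_sumB U Y hY1).trans (mul_le_mul_of_nonneg_left ?_ hYr.le)
    have k1 : 1 + Real.log Y ≤ 3 * Real.log N := by linarith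
    calc (1 + Real.log Y) ^ 3 ≤ (3 * Real.log N) ^ 3 := pow_le_pow_left₀ (by linarith) k1 3
      _ = 27 * Real.log N ^ 3 := by ring
  have hLr : (L : ℝ) ≤ 4 * Real.log N := by
    have k1 : (Nat.log 2 (2 * N) : ℝ) * Real.log 2 ≤ Real.log (2 * N) := by
      have k2 : 2 ^ Nat.log 2 (2 * N) ≤ 2 * N := Nat.pow_log_le_self 2 (by omega)
      have k3 : Real.log ((2 : ℝ) ^ Nat.log 2 (2 * N)) ≤ Real.log (2 * N) :=
        Real.log_le_log (by positivity) (by exact_mod_cast k2)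
      rwa [Real.log_pow] at k3
    rw [Real.log_mul (by norm_num) hN0.ne'] at k1
    have k4 : (0.6931471803 : ℝ) < Real.log 2 := Real.log_two_gt_d9
    have k5 : (Nat.log 2 (2 * N) : ℝ) ≤ 1 + Real.log N / Real.log 2 := by
      rw [← sub_nonneg]
      have : 0 < Real.log 2 := by linarith
      have e : 1 + Real.log N / Real.log 2 - (Nat.log 2 (2 * N) : ℝ) =
          (Real.log 2 + Real.log N - (Nat.log 2 (2 * N) : ℝ) * Real.log 2) / Real.log 2 := by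
        field_simp
      rw [e]
      exact div_nonneg (by linarith) this.le
    have k6 : Real.log N / Real.log 2 ≤ 2 * Real.log N := by
      rw [div_le_iff₀ (by linarith)]
      nlinarith
    rw [hL]
    push_cast
    linarith
  -- the real inequality
  set s : ℝ := √(N : ℝ) with hs
  set u : ℝ := √(U : ℝ) with hu
  have hs2 : s ^ 2 = N := Real.sq_sqrt hN0.le
  have hu2 : u ^ 2 = U := Real.sq_sqrt hU0.le
  have hu0 : 0 < u := Real.sqrt_pos.2 hU0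
  have hpi : (0 : ℝ) < 2 ^ i := by positivity
  have hXr : (X : ℝ) = 2 * 2 ^ i := by
    rw [hX]
    push_cast
    ring
  have hYr2 : (Y : ℝ) ≤ N / 2 ^ i + 1 := by
    rw [hY]
    push_cast
    have := @Nat.cast_div_le ℝ _ _ _ N (2 ^ i)
    push_cast at this
    linarith
  have hiUr : (2 : ℝ) ^ i * U ≤ N := by exact_mod_cast hiU
  have hiNr : (2 : ℝ) ^ i ≤ N := by exact_mod_cast hiN
  have hUir : (U : ℝ) ≤ 2 * 2 ^ i := by
    have : (U : ℝ) ≤ (2 ^ (i + 1) : ℕ) := by exact_mod_cast hUi.le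
    push_cast at this
    linarith [this, (by ring : (2 : ℝ) ^ (i + 1) = 2 * 2 ^ i)]
  have hYr3 : (Y : ℝ) * 2 ^ i ≤ 2 * N := by
    have : (Y : ℝ) * 2 ^ i ≤ (N / 2 ^ i + 1) * 2 ^ i := mul_le_mul_of_nonneg_right hYr2 hpi.le
    have e : ((N : ℝ) / 2 ^ i + 1) * 2 ^ i = N + 2 ^ i := by field_simp
    linarith
  have hreal := IIb_real s u (Real.log N) F X Y ((F : ℝ) ^ 2 * (1 + 2 * Real.log F))
    (Real.sqrt_nonneg _) hu0 hℓ (by positivity) (by positivity) hYr.le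
    (by rw [hs2, hXr]; linarith)
    (by
      rw [hs2, hu2, hXr, le_div_iff₀ hU0]
      linarith)
    (by
      rw [hs2, hu2, le_div_iff₀ hU0]
      have : (Y : ℝ) * U ≤ Y * (2 * 2 ^ i) := mul_le_mul_of_nonneg_left hUir hYr.le
      linarith)
    hΔ0
    (by
      have k1 : Real.log F ≤ Real.log N :=
        Real.log_le_log (by exact_mod_cast (by omega : 0 < F)) (by exact_mod_cast hFN)
      have k2 : (F : ℝ) ^ 2 * (1 + 2 * Real.log F) ≤ (F : ℝ) ^ 2 * (3 * Real.log N) :=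
        mul_le_mul_of_nonneg_left (by linarith) (by positivity)
      linarith)
  rw [hs2] at hreal
  have hmono : √(((X : ℝ) + (F : ℝ) ^ 2 * (1 + 2 * Real.log F)) * ∑ m ∈ range X, ‖IIb_a N U i m‖ ^ 2) *
      √(((Y : ℝ) + (F : ℝ) ^ 2 * (1 + 2 * Real.log F)) * ∑ k ∈ range Y, ‖IIb_b U k‖ ^ 2) ≤
      45 * Real.log N ^ 4 * (N + F * (N / u) + (F : ℝ) ^ 2 * s) := by
    refine le_trans ?_ hreal
    refine mul_le_mul (Real.sqrt_le_sqrt ?_) (Real.sqrt_le_sqrt ?_) (Real.sqrt_nonneg _)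
      (Real.sqrt_nonneg _)
    · exact mul_le_mul_of_nonneg_left hA (by positivity)
    · exact mul_le_mul_of_nonneg_left hB (by positivity)
  have hG : 0 ≤ 45 * Real.log N ^ 4 * (N + F * (N / u) + (F : ℝ) ^ 2 * s) := by positivity
  refine (mul_le_mul hLr hmono (by positivity) (by positivity)).trans (le_of_eq ?_)
  ring

end MPb51559.BG.B
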