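import Pool.Agent.Work.MP_b51559_nt.BG.B.Stmts

set_option autoImplicit false

/-!
# Bounded gaps, part B, item LS: the large sieve
-/

namespace MPb51559.BG.B

open Finset ArithmeticFunction
open Pool.Agent.Work.MP_122e00_nt (Prim)

theorem prf_LS : S_LS := by
  intro F hF X c
  have h := Pool.Agent.Work.MP_122e00_nt.mult_ls F hF X c
  have e : ∑ x ∈ PX F, ‖∑ n ∈ range X, c n * cv x n‖ ^ 2 =
      ∑ f ∈ Finset.Icc 1 F, ∑ χ ∈ Prim f, ‖∑ n ∈ Finset.range X, c n * χ (n : ZMod f)‖ ^ 2 := by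
    unfold PX cv
    rw [Finset.sum_sigma]
  rw [e]
  refine h.trans ?_
  apply mul_le_mul_of_nonneg_right _ (Finset.sum_nonneg fun _ _ => by positivity)
  have hF0 : (0 : ℝ) < F := by exact_mod_cast hF
  have h2 : (harmonic (F ^ 2) : ℝ) ≤ 1 + 2 * Real.log F := by
    have h3 := harmonic_le_one_add_log (F ^ 2)
    push_cast at h3
    rw [Real.log_pow] at h3
    push_cast at h3
    exact h3
  have h4 : ((F ^ 2 : ℕ) : ℝ) * (harmonic (F ^ 2) : ℝ) ≤ (F : ℝ) ^ 2 * (1 + 2 * Real.log F) := by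
    push_cast
    exact mul_le_mul_of_nonneg_left h2 (by positivity)
  linarith

end MPb51559.BG.B
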