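import Pool.Agent.Work.MP_b51559_nt.BG.B.Stmts

set_option autoImplicit false

/-!
# Bounded gaps, part B, item Lg: all large conductors
-/

namespace MPb51559.BG.B

open Finset ArithmeticFunction
open Pool.Agent.Work.MP_122e00_nt (Prim)
open MPb51559.BG.A (psi)

theorem Lg_one_le_log (N : ℕ) (hN : 3 ≤ N) : 1 ≤ Real.log N := by
  have h3 : (3 : ℝ) ≤ (N : ℝ) := by exact_mod_cast hN
  rw [Real.le_log_iff_exp_le (by linarith)]
  have := Real.exp_one_lt_d9
  linarith

theorem Lg_blocks (N Q : ℕ) (hN : 3 ≤ N) (hQ : 2 * Q ≤ N) :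
    ((Nat.log 2 Q + 1 : ℕ) : ℝ) ≤ 3 * Real.log N := by
  have h1 := Lg_one_le_log N hN
  rcases Nat.eq_zero_or_pos Q with h0 | h0
  · subst h0
    simp
    linarith
  · have h2 : 2 ^ (Nat.log 2 Q + 1) ≤ N := by
      have := Nat.pow_log_le_self 2 (x := Q) (by omega)
      calc 2 ^ (Nat.log 2 Q + 1) = 2 * 2 ^ (Nat.log 2 Q) := by ring
        _ ≤ 2 * Q := by omega
        _ ≤ N := hQ
    have h3 : ((2 : ℝ)) ^ (Nat.log 2 Q + 1) ≤ (N : ℝ) := by exact_mod_cast h2
    have h4 : Real.log ((2 : ℝ) ^ (Nat.log 2 Q + 1)) ≤ Real.log N :=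
      Real.log_le_log (by positivity) h3
    rw [Real.log_pow] at h4
    have h5 := Real.log_two_gt_d9
    have h6 : (0 : ℝ) ≤ ((Nat.log 2 Q + 1 : ℕ) : ℝ) := Nat.cast_nonneg _
    nlinarith [h4, h5, h6]

theorem prf_Lg (hBlk : S_Blk) : S_Lg := by
  obtain ⟨C, hC, h⟩ := hBlk
  refine ⟨3 * C, by positivity, ?_⟩
  intro N U Q L hN hU hUN hQ hL
  have hl := Lg_one_le_log N hN
  have hb := Lg_blocks N Q hN hQ
  have h1 : ∀ f ∈ (Finset.Icc 2 Q).filter (fun f => L < f),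
      Nat.log 2 f ∈ Finset.range (Nat.log 2 Q + 1) := by
    intro f hf
    rw [Finset.mem_filter, Finset.mem_Icc] at hf
    rw [Finset.mem_range]
    exact Nat.lt_succ_of_le (Nat.log_mono_right hf.1.2)
  rw [← Finset.sum_fiberwise_of_maps_to h1]
  set W : ℝ := C * Real.log N ^ 7 * (N / L + N / √(U : ℝ) + Q * √(N : ℝ)) +
        C * (Q : ℝ) ^ 2 * (U : ℝ) ^ 2 * Real.log N ^ 2 with hW
  have hl0 : 0 ≤ Real.log N := by linarith
  have hW0 : 0 ≤ W := by
    rw [hW]
    positivity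
  calc _ ≤ ∑ j ∈ Finset.range (Nat.log 2 Q + 1), W := by
        apply Finset.sum_le_sum
        intro j _
        rw [Finset.filter_filter]
        exact h N U Q L j hN hU hUN hQ hL
    _ = ((Nat.log 2 Q + 1 : ℕ) : ℝ) * W := by
        rw [Finset.sum_const, Finset.card_range, nsmul_eq_mul]
    _ ≤ (3 * Real.log N) * W := by
        exact mul_le_mul_of_nonneg_right hb hW0
    _ = _ := by
        rw [hW]
        ring

end MPb51559.BG.B
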