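import Pool.Agent.Work.MP_b51559_nt.BG.B.Stmts

set_option autoImplicit false

/-! # Block BG, part B, item MV: the mean value theorem -/

namespace MPb51559.BG.B

open Finset ArithmeticFunction
open Pool.Agent.Work.MP_122e00_nt (Prim mem_Prim)
open MPb51559.BG.A (psi)

theorem MV_card (f : ℕ) : (Prim f).card ≤ f := by
  rcases Nat.eq_zero_or_pos f with h0 | h0
  · subst h0
    simp [Prim]
  · haveI : NeZero f := ⟨h0.ne'⟩
    calc (Prim f).card ≤ (Finset.univ : Finset (DirichletCharacter ℂ f)).card :=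
          Finset.card_le_univ _
      _ = Nat.card (DirichletCharacter ℂ f) := by
          rw [Finset.card_univ, Nat.card_eq_fintype_card]
      _ ≤ f := by
          rw [DirichletCharacter.card_eq_totient_of_hasEnoughRootsOfUnity ℂ f]
          exact Nat.totient_le f

theorem MV_ne_one {f : ℕ} (hf : 2 ≤ f) (χ : DirichletCharacter ℂ f) (h : χ ∈ Prim f) : χ ≠ 1 := by
  rw [mem_Prim (by omega)] at h
  rintro rfl
  unfold DirichletCharacter.IsPrimitive at h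
  haveI : NeZero f := ⟨by omega⟩
  rw [DirichletCharacter.conductor_one] at h
  omega

/-- Item MV. -/
theorem prf_MV (hII : S_II) (hTI : S_TI) : S_MV := by
  obtain ⟨C, hC, h⟩ := hII
  refine ⟨C, hC, fun N U F hN hU hUN hF hFN => ?_⟩
  have hlog : 0 ≤ Real.log N := Real.log_natCast_nonneg N
  have h1 : ∀ f ∈ Icc 2 F, GG N f ≤ ∑ χ ∈ Prim f, ‖TII N U (cv ⟨f, χ⟩)‖ +
      4 * (F : ℝ) ^ 2 * (U : ℝ) ^ 2 * Real.log N := by
    intro f hf
    rw [mem_Icc] at hf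
    have hfF : (f : ℝ) ≤ F := by exact_mod_cast hf.2
    have hf0 : (0 : ℝ) ≤ f := Nat.cast_nonneg f
    have h2 : ∀ χ ∈ Prim f, ‖psi (N : ℝ) χ‖ ≤ ‖TII N U (cv ⟨f, χ⟩)‖ +
        4 * f * (U : ℝ) ^ 2 * Real.log N := by
      intro χ hχ
      have h3 := hTI N U f χ (by omega) (MV_ne_one hf.1 χ hχ) hN hU hUN
      have h4 := norm_sub_norm_le (psi (N : ℝ) χ) (TII N U (fun n => χ (n : ZMod f)))
      have h5 : (cv ⟨f, χ⟩) = fun n : ℕ => χ (n : ZMod f) := rfl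
      rw [h5]
      linarith
    calc GG N f ≤ ∑ χ ∈ Prim f, (‖TII N U (cv ⟨f, χ⟩)‖ + 4 * f * (U : ℝ) ^ 2 * Real.log N) :=
          Finset.sum_le_sum h2
      _ = ∑ χ ∈ Prim f, ‖TII N U (cv ⟨f, χ⟩)‖ +
            (Prim f).card * (4 * f * (U : ℝ) ^ 2 * Real.log N) := by
          rw [Finset.sum_add_distrib, Finset.sum_const, nsmul_eq_mul]
      _ ≤ _ := by
          have hc : ((Prim f).card : ℝ) ≤ F := by
            exact_mod_cast (MV_card f).trans hf.2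
          have h6 : ((Prim f).card : ℝ) * (4 * f * (U : ℝ) ^ 2 * Real.log N) ≤
              F * (4 * F * (U : ℝ) ^ 2 * Real.log N) := by
            gcongr
          have h7 : (F : ℝ) * (4 * F * (U : ℝ) ^ 2 * Real.log N) =
              4 * (F : ℝ) ^ 2 * (U : ℝ) ^ 2 * Real.log N := by ring
          linarith
  have h8 : ∑ f ∈ Icc 2 F, ∑ χ ∈ Prim f, ‖TII N U (cv ⟨f, χ⟩)‖ ≤
      ∑ x ∈ PX F, ‖TII N U (cv x)‖ := by
    unfold PX
    rw [Finset.sum_sigma]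
    refine Finset.sum_le_sum_of_subset_of_nonneg ?_ fun f _ _ =>
      Finset.sum_nonneg fun χ _ => norm_nonneg _
    intro f hf
    rw [mem_Icc] at hf ⊢
    exact ⟨by omega, hf.2⟩
  have h9 := h N U F hN hU hF hFN
  have h10 : ((Icc 2 F).card : ℝ) ≤ F := by
    rw [Nat.card_Icc]
    have : F + 1 - 2 ≤ F := by omega
    exact_mod_cast this
  calc ∑ f ∈ Icc 2 F, GG N f ≤ ∑ f ∈ Icc 2 F, (∑ χ ∈ Prim f, ‖TII N U (cv ⟨f, χ⟩)‖ +
        4 * (F : ℝ) ^ 2 * (U : ℝ) ^ 2 * Real.log N) := Finset.sum_le_sum h1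
    _ = ∑ f ∈ Icc 2 F, ∑ χ ∈ Prim f, ‖TII N U (cv ⟨f, χ⟩)‖ +
        (Icc 2 F).card * (4 * (F : ℝ) ^ 2 * (U : ℝ) ^ 2 * Real.log N) := by
        rw [Finset.sum_add_distrib, Finset.sum_const, nsmul_eq_mul]
    _ ≤ _ := by
        have h11 : ((Icc 2 F).card : ℝ) * (4 * (F : ℝ) ^ 2 * (U : ℝ) ^ 2 * Real.log N) ≤
            F * (4 * (F : ℝ) ^ 2 * (U : ℝ) ^ 2 * Real.log N) := by
          gcongr
        have h12 : (F : ℝ) * (4 * (F : ℝ) ^ 2 * (U : ℝ) ^ 2 * Real.log N) =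
            4 * (F : ℝ) ^ 3 * (U : ℝ) ^ 2 * Real.log N := by ring
        linarith

end MPb51559.BG.B
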