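import Pool.Agent.Work.MP_b51559_nt.BG.B.I_Cop

set_option autoImplicit false

/-! Item PP of part B: proper prime powers. -/

namespace MPb51559.BG.B

open Finset ArithmeticFunction

/-- the difference of the terms of `psi` and `theta` -/
theorem psi_term (n : ℕ) :
    vonMangoldt n - (if n.Prime then Real.log n else 0) = if n.Prime then 0 else vonMangoldt n := by
  split_ifs with h
  · rw [vonMangoldt_apply_prime h, sub_self]
  · rw [sub_zero]

theorem diff_eq (S : Finset ℕ) :
    ∑ n ∈ S, vonMangoldt n - ∑ p ∈ S.filter Nat.Prime, Real.log p =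
      ∑ n ∈ S, if n.Prime then 0 else vonMangoldt n := by
  rw [Finset.sum_filter, ← Finset.sum_sub_distrib]
  exact Finset.sum_congr rfl fun n _ => psi_term n

theorem diff_nonneg (S : Finset ℕ) :
    0 ≤ ∑ n ∈ S, (if n.Prime then (0 : ℝ) else vonMangoldt n) := by
  refine Finset.sum_nonneg fun n _ => ?_
  split_ifs
  · exact le_rfl
  · exact vonMangoldt_nonneg

theorem diff_le (N : ℕ) (S : Finset ℕ) (hS : S ⊆ Icc 1 N) :
    ∑ n ∈ S, (if n.Prime then (0 : ℝ) else vonMangoldt n) ≤ √(N : ℝ) * Real.log N := by
  classical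
  have e1 : ∑ n ∈ S, (if n.Prime then (0 : ℝ) else vonMangoldt n) =
      ∑ n ∈ S.filter (fun n => ¬ n.Prime), vonMangoldt n := by
    rw [Finset.sum_filter]
    refine Finset.sum_congr rfl fun n _ => ?_
    split_ifs <;> rfl
  rw [e1]
  have h1 := sum_vM_le_card N (S.filter (fun n => ¬ n.Prime)) (Icc 1 (Nat.sqrt N))
    ((Finset.filter_subset _ _).trans hS) (by
      intro n hn hpp
      rw [Finset.mem_filter] at hn
      have hp : n.minFac.Prime := Nat.minFac_prime hpp.ne_one
      have h4 := hpp.minFac_pow_factorization_eq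
      rw [Finset.mem_Icc]
      refine ⟨hp.pos, ?_⟩
      rw [Nat.le_sqrt']
      have h5 : 2 ≤ n.factorization n.minFac := by
        by_contra h6
        have h7 : n.factorization n.minFac = 0 ∨ n.factorization n.minFac = 1 := by omega
        rcases h7 with h7 | h7
        · rw [h7, pow_zero] at h4
          exact hpp.ne_one h4.symm
        · rw [h7, pow_one] at h4
          rw [h4] at hp
          exact hn.2 hp
      have h8 : n.minFac ^ 2 ≤ n := by
        calc n.minFac ^ 2 ≤ n.minFac ^ n.factorization n.minFac :=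
              Nat.pow_le_pow_right hp.pos h5
          _ = n := h4
      exact h8.trans (Finset.mem_Icc.1 (hS hn.1)).2)
  refine h1.trans ?_
  refine mul_le_mul_of_nonneg_right ?_ (Real.log_natCast_nonneg N)
  rw [Nat.card_Icc, Nat.add_sub_cancel]
  exact Real.nat_sqrt_le_real_sqrt

theorem prf_PP : S_PP := by
  classical
  intro N hN
  have h0 : psi0 N - the0 N = ∑ n ∈ Icc 1 N, if n.Prime then (0 : ℝ) else vonMangoldt n := by
    unfold psi0 the0
    exact diff_eq _
  refine ⟨?_, ?_, ?_⟩
  · rw [h0]
    exact diff_nonneg _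
  · rw [h0]
    exact diff_le N _ subset_rfl
  · intro q a
    have h1 : psiA N q a - theA N q a =
        ∑ n ∈ (Icc 1 N).filter (fun n => n ≡ a [MOD q]), if n.Prime then (0 : ℝ) else vonMangoldt n := by
      unfold psiA theA
      rw [← diff_eq]
      congr 1
      rw [Finset.filter_filter]
      refine Finset.sum_congr ?_ fun _ _ => rfl
      ext n
      simp only [Finset.mem_filter]
      tauto
    rw [h1]
    exact ⟨diff_nonneg _, diff_le N _ (Finset.filter_subset _ _)⟩

end MPb51559.BG.B
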