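import Pool.Agent.Work.MP_b51559_nt.BG.B.Stmts

set_option autoImplicit false

/-!
# Bounded gaps, part B, item Sm: small conductors
-/

namespace MPb51559.BG.B

open Finset ArithmeticFunction
open Pool.Agent.Work.MP_122e00_nt (Prim mem_Prim)
open MPb51559.BG.A (psi)

/-- a primitive character modulo `f ≥ 2` is not principal -/
theorem Sm_ne {f : ℕ} (hf : 2 ≤ f) {χ : DirichletCharacter ℂ f} (hχ : χ ∈ Prim f) : χ ≠ 1 := by
  have : NeZero f := ⟨by omega⟩
  rw [mem_Prim (NeZero.ne f)] at hχ
  intro h
  have h2 := hχ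
  unfold DirichletCharacter.IsPrimitive at h2
  rw [DirichletCharacter.eq_one_iff_conductor_eq_one.mp h] at h2
  omega

/-- the number of primitive characters -/
theorem Sm_card {f : ℕ} (hf : 2 ≤ f) : (Prim f).card ≤ f.totient := by
  classical
  have : NeZero f := ⟨by omega⟩
  calc (Prim f).card ≤ (Finset.univ : Finset (DirichletCharacter ℂ f)).card :=
        Finset.card_le_univ _
    _ = f.totient := by
        rw [Finset.card_univ, ← Nat.card_eq_fintype_card,
          DirichletCharacter.card_eq_totient_of_hasEnoughRootsOfUnity]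

theorem prf_Sm (hSW : MPb51559.BG.A.StSW) : S_Sm := by
  intro A D hA hD
  obtain ⟨C, hC1, hC⟩ := hSW D (A + D) hD (by linarith)
  have hC0 : 0 < C := by linarith
  refine ⟨C, hC0, ?_⟩
  intro N L hN hL
  have hN3 : (3 : ℝ) ≤ N := by exact_mod_cast hN
  have hlog : 0 < Real.log N := Real.log_pos (by linarith)
  have hN0 : (0 : ℝ) ≤ N := by linarith
  have key : ∀ f ∈ Icc 2 L, GG N f / f.totient ≤ C * (N / Real.log N ^ (A + D)) := by
    intro f hf
    rw [Finset.mem_Icc] at hf
    have : NeZero f := ⟨by omega⟩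
    have hφ : (0 : ℝ) < f.totient := by
      have : 0 < f.totient := Nat.totient_pos.2 (by omega)
      exact_mod_cast this
    rw [div_le_iff₀ hφ]
    have hfL : (f : ℝ) ≤ Real.log N ^ D := by
      have : (f : ℝ) ≤ L := by exact_mod_cast hf.2
      exact this.trans hL
    unfold GG
    calc ∑ χ ∈ Prim f, ‖psi (N : ℝ) χ‖
        ≤ ∑ _χ ∈ Prim f, C * (N / Real.log N ^ (A + D)) := by
          apply Finset.sum_le_sum
          intro χ hχ
          exact hC f χ (Sm_ne hf.1 hχ) N (by linarith) hfL
      _ = (Prim f).card * (C * (N / Real.log N ^ (A + D))) := by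
          rw [Finset.sum_const, nsmul_eq_mul]
      _ ≤ f.totient * (C * (N / Real.log N ^ (A + D))) := by
          have h1 : ((Prim f).card : ℝ) ≤ f.totient := by exact_mod_cast Sm_card hf.1
          have h2 : 0 ≤ C * (N / Real.log N ^ (A + D)) := by positivity
          exact mul_le_mul_of_nonneg_right h1 h2
      _ = _ := mul_comm _ _
  calc ∑ f ∈ Icc 2 L, GG N f / f.totient
      ≤ ∑ _f ∈ Icc 2 L, C * (N / Real.log N ^ (A + D)) := Finset.sum_le_sum key
    _ = (Icc 2 L).card * (C * (N / Real.log N ^ (A + D))) := by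
        rw [Finset.sum_const, nsmul_eq_mul]
    _ ≤ Real.log N ^ D * (C * (N / Real.log N ^ (A + D))) := by
        have h1 : ((Icc 2 L).card : ℝ) ≤ L := by
          have : (Icc 2 L).card ≤ L := by
            rw [Nat.card_Icc]
            omega
          exact_mod_cast this
        have h2 : 0 ≤ C * (N / Real.log N ^ (A + D)) := by positivity
        exact mul_le_mul_of_nonneg_right (h1.trans hL) h2
    _ = C * (N / Real.log N ^ A) := by
        rw [Real.rpow_add hlog]
        have h1 : Real.log N ^ D ≠ 0 := (Real.rpow_pos_of_pos hlog D).ne'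
        have h2 : Real.log N ^ A ≠ 0 := (Real.rpow_pos_of_pos hlog A).ne'
        field_simp

end MPb51559.BG.B
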