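import Pool.Agent.Work.MP_b51559_nt.BG.B.Stmts

set_option autoImplicit false

/-!
# Item Swp: exchanging the sums over the moduli and the conductors
-/

namespace MPb51559.BG.B

open Finset ArithmeticFunction
open Pool.Agent.Work.MP_122e00_nt (Prim)

theorem Swp_tot (hTot : S_Tot) (Q : ℕ) (hQ : 1 ≤ Q) :
    ∑ k ∈ Icc 1 Q, 1 / (k.totient : ℝ) ≤ (1 + 2 * Real.log Q) * (1 + Real.log Q) := by
  have hl : 0 ≤ Real.log Q := Real.log_natCast_nonneg Q
  have h1 : ∀ k ∈ Icc 1 Q, 1 / (k.totient : ℝ) ≤ (1 + 2 * Real.log Q) * ((k : ℝ)⁻¹) := by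
    intro k hk
    rw [mem_Icc] at hk
    have hk0 : (0 : ℝ) < k := by exact_mod_cast hk.1
    have ht : (0 : ℝ) < k.totient := by exact_mod_cast Nat.totient_pos.2 hk.1
    have h2 := hTot k hk.1
    have h3 : Real.log k ≤ Real.log Q := Real.log_le_log hk0 (by exact_mod_cast hk.2)
    rw [div_le_iff₀ ht]
    have h4 : (k : ℝ) * (k : ℝ)⁻¹ = 1 := mul_inv_cancel₀ hk0.ne'
    have h5 : (k : ℝ) * (k : ℝ)⁻¹ ≤ (1 + 2 * Real.log Q) * k.totient * (k : ℝ)⁻¹ := by
      refine mul_le_mul_of_nonneg_right (h2.trans ?_) (by positivity)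
      exact mul_le_mul_of_nonneg_right (by linarith) ht.le
    rw [h4] at h5
    linarith
  refine (sum_le_sum h1).trans ?_
  rw [← mul_sum]
  refine mul_le_mul_of_nonneg_left ?_ (by linarith)
  have h6 := harmonic_le_one_add_log Q
  rw [harmonic_eq_sum_Icc] at h6
  push_cast at h6
  exact h6

theorem prf_Swp (hTot : S_Tot) : S_Swp := by
  intro G Q hG hQ
  have h1 : ∑ E ∈ Icc 1 Q, (1 / (E.totient : ℝ)) * ∑ f ∈ E.divisors.erase 1, G f ≤
      ∑ E ∈ Icc 1 Q, ∑ f ∈ E.divisors.erase 1, G f / f.totient * (1 / ((E / f).totient : ℝ)) := by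
    refine sum_le_sum fun E hE => ?_
    rw [mem_Icc] at hE
    rw [mul_sum]
    refine sum_le_sum fun f hf => ?_
    rw [mem_erase, Nat.mem_divisors] at hf
    obtain ⟨-, hfE, hE0⟩ := hf
    have hf0 : 0 < f := Nat.pos_of_dvd_of_pos hfE (by omega)
    have hq0 : 0 < E / f := Nat.div_pos (Nat.le_of_dvd (by omega) hfE) hf0
    have t1 : (0 : ℝ) < f.totient := by exact_mod_cast Nat.totient_pos.2 hf0
    have t2 : (0 : ℝ) < (E / f).totient := by exact_mod_cast Nat.totient_pos.2 hq0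
    have h2 : (f.totient : ℝ) * (E / f).totient ≤ E.totient := by
      have := Nat.totient_super_multiplicative f (E / f)
      rw [Nat.mul_div_cancel' hfE] at this
      exact_mod_cast this
    have h3 : 1 / (E.totient : ℝ) ≤ 1 / ((f.totient : ℝ) * (E / f).totient) :=
      one_div_le_one_div_of_le (mul_pos t1 t2) h2
    calc 1 / (E.totient : ℝ) * G f ≤ 1 / ((f.totient : ℝ) * (E / f).totient) * G f :=
          mul_le_mul_of_nonneg_right h3 (hG f)
      _ = G f / f.totient * (1 / ((E / f).totient : ℝ)) := by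
          field_simp
  refine h1.trans ?_
  refine (Pool.Agent.Work.MP_122e00_nt.sum_divisors_swap
    (fun f k => G f / f.totient * (1 / (k.totient : ℝ)))
    (fun f k => mul_nonneg (div_nonneg (hG f) (Nat.cast_nonneg _)) (by positivity)) Q).trans ?_
  have h4 : ∑ k ∈ Icc 1 Q, ∑ f ∈ Icc 2 Q, G f / f.totient * (1 / (k.totient : ℝ)) =
      (∑ k ∈ Icc 1 Q, 1 / (k.totient : ℝ)) * ∑ f ∈ Icc 2 Q, G f / f.totient := by
    rw [sum_mul]
    refine sum_congr rfl fun k _ => ?_
    rw [mul_sum]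
    refine sum_congr rfl fun f _ => ?_
    ring
  rw [h4]
  exact mul_le_mul_of_nonneg_right (Swp_tot hTot Q hQ)
    (sum_nonneg fun f _ => div_nonneg (hG f) (Nat.cast_nonneg _))

end MPb51559.BG.B
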