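import Pool.Agent.Work.MP_b51559_nt.BG.B.Stmts

set_option autoImplicit false

namespace MPb51559.BG.B

open Finset
open ArithmeticFunction (vonMangoldt moebius)
open MPb51559.BG.A (psi)

theorem TI_L_le {n N : ℕ} (h1 : 1 ≤ n) (h : n ≤ N) : vonMangoldt n ≤ Real.log N :=
  (ArithmeticFunction.vonMangoldt_le_log).trans (Real.log_le_log (by exact_mod_cast h1) (by exact_mod_cast h))

theorem TI_L0 (n : ℕ) : (0 : ℝ) ≤ vonMangoldt n := ArithmeticFunction.vonMangoldt_nonneg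

theorem TI_char {f : ℕ} [NeZero f] (ψ : DirichletCharacter ℂ f) (hψ : ψ ≠ 1) (a b : ℕ) :
    ‖∑ n ∈ Ioc a b, ψ (n : ZMod f)‖ ≤ f := by
  have h := Pool.Agent.Work.MP_122e00_nt.norm_chiA_le ψ hψ a b 1 one_ne_zero
  unfold Pool.Agent.Work.MP_122e00_nt.chiA at h
  simpa using h

theorem TI_mu (d : ℕ) : ‖((moebius d : ℤ) : ℂ)‖ ≤ 1 := by
  rw [Complex.norm_intCast]
  exact_mod_cast ArithmeticFunction.abs_moebius_le_one

theorem prf_TI : S_TI := by
  intro N U f ψ hf hψ hN hU hUN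
  have : NeZero f := ⟨by omega⟩
  set χ : ℕ → ℂ := fun n => ψ (n : ZMod f) with hχ
  have hχ1 : ∀ n, ‖χ n‖ ≤ 1 := fun n => DirichletCharacter.norm_le_one _ _
  have hlog : 0 ≤ Real.log N := Real.log_natCast_nonneg N
  have hfR : (1 : ℝ) ≤ f := by exact_mod_cast hf
  have hUR : (1 : ℝ) ≤ U := by exact_mod_cast hU
  have hc := Pool.Agent.Work.MP_e0aece_nt.Sq.claimC2 χ N U (by simp [hχ])
    (fun m n => by simp [hχ]) hU hUN
  have hpsi : psi (N : ℝ) ψ = Pool.Agent.Work.MP_e0aece_nt.Sq.psiX χ N := by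
    rw [psi_nat]
    unfold Pool.Agent.Work.MP_e0aece_nt.Sq.psiX
    refine Finset.sum_congr rfl fun n _ => ?_
    rw [mul_comm]
  have hT : psi (N : ℝ) ψ - TII N U χ =
      ∑ n ∈ Ioc 0 U, (vonMangoldt n : ℂ) * χ n
      + ∑ d ∈ Ioc 0 U, ((moebius d : ℤ) : ℂ) * χ d * ∑ m ∈ Ioc 0 (N / d), (Real.log m : ℂ) * χ m
      - ∑ d ∈ Ioc 0 U, ∑ e ∈ Ioc 0 U, ((moebius d : ℤ) : ℂ) * (vonMangoldt e : ℂ) * χ (d * e) *
          ∑ m ∈ Ioc 0 (N / (d * e)), χ m := by
    rw [hpsi, hc]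
    unfold TII
    ring
  rw [hT]
  have h1 : ‖∑ n ∈ Ioc 0 U, (vonMangoldt n : ℂ) * χ n‖ ≤ U * Real.log N := by
    refine (norm_sum_le _ _).trans ?_
    refine (Finset.sum_le_card_nsmul _ _ (Real.log N) fun n hn => ?_).trans ?_
    · rw [Finset.mem_Ioc] at hn
      rw [norm_mul, Complex.norm_real, Real.norm_of_nonneg (TI_L0 n)]
      exact (mul_le_of_le_one_right (TI_L0 n) (hχ1 n)).trans (TI_L_le hn.1 (hn.2.trans hUN))
    · rw [Nat.card_Ioc, nsmul_eq_mul, Nat.sub_zero]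
  have hC : ∀ a b : ℕ, ‖∑ n ∈ Ioc a b, χ n‖ ≤ f := fun a b => TI_char ψ hψ a b
  have h2 : ‖∑ d ∈ Ioc 0 U, ((moebius d : ℤ) : ℂ) * χ d *
      ∑ m ∈ Ioc 0 (N / d), (Real.log m : ℂ) * χ m‖ ≤ U * (2 * f * Real.log N) := by
    refine (norm_sum_le _ _).trans ?_
    refine (Finset.sum_le_card_nsmul _ _ (2 * f * Real.log N) fun d hd => ?_).trans ?_
    · rw [norm_mul, norm_mul]
      have h3 := Pool.Agent.Work.MP_e0aece_nt.Sq.claimC3 χ f (N / d) (by positivity) hC
      have h4 : Real.log ((N / d : ℕ) : ℝ) ≤ Real.log N := by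
        rcases Nat.eq_zero_or_pos (N / d) with h0 | h0
        · rw [h0, Nat.cast_zero, Real.log_zero]
          exact hlog
        · exact Real.log_le_log (by exact_mod_cast h0) (by exact_mod_cast Nat.div_le_self _ _)
      calc ‖((moebius d : ℤ) : ℂ)‖ * ‖χ d‖ * ‖∑ m ∈ Ioc 0 (N / d), (Real.log m : ℂ) * χ m‖
          ≤ 1 * 1 * (2 * f * Real.log ((N / d : ℕ) : ℝ)) := by
            gcongr
            · exact TI_mu d
            · exact hχ1 d
        _ ≤ 2 * f * Real.log N := by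
            rw [one_mul, one_mul]
            gcongr
    · rw [Nat.card_Ioc, nsmul_eq_mul, Nat.sub_zero]
  have h3 : ‖∑ d ∈ Ioc 0 U, ∑ e ∈ Ioc 0 U, ((moebius d : ℤ) : ℂ) * (vonMangoldt e : ℂ) * χ (d * e) *
          ∑ m ∈ Ioc 0 (N / (d * e)), χ m‖ ≤ U * (U * (Real.log N * f)) := by
    refine (norm_sum_le _ _).trans ?_
    refine (Finset.sum_le_card_nsmul _ _ (U * (Real.log N * f)) fun d hd => ?_).trans ?_
    · refine (norm_sum_le _ _).trans ?_
      refine (Finset.sum_le_card_nsmul _ _ (Real.log N * f) fun e he => ?_).trans ?_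
      · rw [Finset.mem_Ioc] at he
        rw [norm_mul, norm_mul, norm_mul, Complex.norm_real, Real.norm_of_nonneg (TI_L0 e)]
        calc ‖((moebius d : ℤ) : ℂ)‖ * vonMangoldt e * ‖χ (d * e)‖ *
            ‖∑ m ∈ Ioc 0 (N / (d * e)), χ m‖ ≤ 1 * Real.log N * 1 * f := by
              have h5 := TI_L0 e
              gcongr
              · exact TI_mu d
              · exact TI_L_le he.1 (he.2.trans hUN)
              · exact hχ1 _
              · exact hC _ _
          _ = Real.log N * f := by ring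
      · rw [Nat.card_Ioc, nsmul_eq_mul, Nat.sub_zero]
    · rw [Nat.card_Ioc, nsmul_eq_mul, Nat.sub_zero]
  have h4 : U * Real.log N + U * (2 * f * Real.log N) + U * (U * (Real.log N * f)) ≤
      4 * f * (U : ℝ) ^ 2 * Real.log N := by
    have h5 : (U : ℝ) * Real.log N ≤ U * U * f * Real.log N := by
      have : (U : ℝ) * 1 * 1 * Real.log N ≤ U * U * f * Real.log N := by gcongr
      linarith
    have h6 : (U : ℝ) * (2 * f * Real.log N) ≤ U * U * (2 * f * Real.log N) := by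
      have : (U : ℝ) * 1 * (2 * f * Real.log N) ≤ U * U * (2 * f * Real.log N) := by gcongr
      linarith
    nlinarith [h5, h6]
  refine le_trans ?_ h4
  refine (norm_sub_le _ _).trans (add_le_add ((norm_add_le _ _).trans (add_le_add h1 h2)) h3)

end MPb51559.BG.B
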