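import Pool.Agent.Work.MP_b51559_nt.BG.B.Stmts

set_option autoImplicit false

/-! Item Th of part B: Bombieri-Vinogradov for `theta`. -/

namespace MPb51559.BG.B

open Finset ArithmeticFunction

theorem log_ge_one {N : ℕ} (hN : 3 ≤ N) : 1 ≤ Real.log N := by
  have h3 : (3 : ℝ) ≤ N := by exact_mod_cast hN
  rw [Real.le_log_iff_exp_le (by linarith)]
  have := Real.exp_one_lt_d9
  linarith

theorem prf_Th (hBV : StBV) (hPP : S_PP) : StTh := by
  intro A hA
  obtain ⟨B, C, hB, hC, h⟩ := hBV A hA
  refine ⟨max B (A + 1), C + 2, lt_max_of_lt_left hB, by linarith, ?_⟩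
  intro N Q hN hQ a ha
  have hL := log_ge_one hN
  have hL0 : 0 < Real.log N := by linarith
  have hN0 : (0 : ℝ) < N := by have : (3 : ℝ) ≤ N := by exact_mod_cast hN
                               linarith
  have hs0 : 0 ≤ √(N : ℝ) := Real.sqrt_nonneg _
  have hss : √(N : ℝ) * √(N : ℝ) = N := Real.mul_self_sqrt hN0.le
  have hQB : (Q : ℝ) ≤ √(N : ℝ) / Real.log N ^ B := by
    refine hQ.trans (div_le_div_of_nonneg_left hs0 (Real.rpow_pos_of_pos hL0 _) ?_)
    exact Real.rpow_le_rpow_of_exponent_le hL (le_max_left _ _)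
  have hQA : (Q : ℝ) ≤ √(N : ℝ) / Real.log N ^ (A + 1) := by
    refine hQ.trans (div_le_div_of_nonneg_left hs0 (Real.rpow_pos_of_pos hL0 _) ?_)
    exact Real.rpow_le_rpow_of_exponent_le hL (le_max_right _ _)
  have h1 := h N Q hN hQB a ha
  obtain ⟨p1, p2, p3⟩ := hPP N hN
  have hterm : ∀ q ∈ Icc 1 Q, |theA N q (a q) - the0 N / q.totient| ≤
      |psiA N q (a q) - psi0 N / q.totient| + 2 * (√(N : ℝ) * Real.log N) := by
    intro q hq
    obtain ⟨p4, p5⟩ := p3 q (a q)
    have hφ : 1 ≤ (q.totient : ℝ) := by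
      have : 0 < q.totient := Nat.totient_pos.2 (by have := (Finset.mem_Icc.1 hq).1; omega)
      exact_mod_cast this
    have h2 : 0 ≤ (psi0 N - the0 N) / q.totient := div_nonneg p1 (by linarith)
    have h3 : (psi0 N - the0 N) / q.totient ≤ √(N : ℝ) * Real.log N := by
      rw [div_le_iff₀ (by linarith)]
      have h4 : 0 ≤ √(N : ℝ) * Real.log N := by positivity
      nlinarith
    have h5 : theA N q (a q) - the0 N / q.totient =
        (psiA N q (a q) - psi0 N / q.totient) - (psiA N q (a q) - theA N q (a q)) +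
          (psi0 N - the0 N) / q.totient := by
      rw [sub_div]
      ring
    rw [h5, abs_le]
    have h6 := neg_abs_le (psiA N q (a q) - psi0 N / q.totient)
    have h7 := le_abs_self (psiA N q (a q) - psi0 N / q.totient)
    have h8 : 0 ≤ √(N : ℝ) * Real.log N := by positivity
    constructor <;> linarith
  have h2 := Finset.sum_le_sum hterm
  rw [Finset.sum_add_distrib, Finset.sum_const, Nat.card_Icc, Nat.add_sub_cancel,
    nsmul_eq_mul] at h2
  have h3 : (Q : ℝ) * (2 * (√(N : ℝ) * Real.log N)) ≤ 2 * (N / Real.log N ^ A) := by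
    have e1 : √(N : ℝ) / Real.log N ^ (A + 1) * (2 * (√(N : ℝ) * Real.log N)) =
        2 * (N / Real.log N ^ A) := by
      rw [Real.rpow_add_one hL0.ne']
      have e2 : Real.log N ^ A ≠ 0 := (Real.rpow_pos_of_pos hL0 A).ne'
      have e3 : Real.log N ≠ 0 := hL0.ne'
      field_simp
      linear_combination hss
    rw [← e1]
    exact mul_le_mul_of_nonneg_right hQA (by positivity)
  calc _ ≤ _ := h2
    _ ≤ C * (N / Real.log N ^ A) + 2 * (N / Real.log N ^ A) := add_le_add h1 h3
    _ = (C + 2) * (N / Real.log N ^ A) := by ring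

end MPb51559.BG.B
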