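import Pool.Agent.Work.MP_b51559_nt.BG.B.Stmts

set_option autoImplicit false

/-!
# Item Tot: the elementary lower bound for the totient
-/

namespace MPb51559.BG.B

open Finset

/-- `∏ p ≤ (|S| + 1) ∏ (p - 1)` for a finite set of integers `≥ 2`. -/
theorem Tot_prod (n : ℕ) : ∀ S : Finset ℕ, S.card = n → (∀ p ∈ S, 2 ≤ p) →
    ∏ p ∈ S, p ≤ (n + 1) * ∏ p ∈ S, (p - 1) := by
  induction n with
  | zero =>
    intro S hS _
    rw [Finset.card_eq_zero] at hS
    subst hS
    simp
  | succ n ih =>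
    intro S hS h2
    have hne : S.Nonempty := by
      rw [← Finset.card_pos]; omega
    set m := S.max' hne with hm
    have hmS : m ∈ S := S.max'_mem hne
    have hcard : (S.erase m).card = n := by
      rw [Finset.card_erase_of_mem hmS]; omega
    have ih' := ih (S.erase m) hcard (fun p hp => h2 p (Finset.mem_of_mem_erase hp))
    -- the largest element is at least `card + 1`
    have hge : n + 2 ≤ m := by
      have hsub : S ⊆ Finset.Icc 2 m := by
        intro p hp
        rw [Finset.mem_Icc]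
        exact ⟨h2 p hp, S.le_max' p hp⟩
      have := Finset.card_le_card hsub
      rw [Nat.card_Icc] at this
      omega
    rw [← Finset.mul_prod_erase S (fun p => p) hmS, ← Finset.mul_prod_erase S (fun p => p - 1) hmS]
    have h1 : m * (n + 1) ≤ (n + 1 + 1) * (m - 1) := by
      obtain ⟨q, hq⟩ : ∃ q, m = q + 1 := ⟨m - 1, by omega⟩
      rw [hq] at hge ⊢
      simp only [Nat.add_sub_cancel]
      nlinarith
    calc m * ∏ p ∈ S.erase m, p ≤ m * ((n + 1) * ∏ p ∈ S.erase m, (p - 1)) :=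
          Nat.mul_le_mul_left _ ih'
      _ = (m * (n + 1)) * ∏ p ∈ S.erase m, (p - 1) := by ring
      _ ≤ ((n + 1 + 1) * (m - 1)) * ∏ p ∈ S.erase m, (p - 1) := Nat.mul_le_mul_right _ h1
      _ = (n + 1 + 1) * ((m - 1) * ∏ p ∈ S.erase m, (p - 1)) := by ring

/-- `k ≤ (ω(k) + 1) φ(k)`. -/
theorem Tot_omega (k : ℕ) : k ≤ (k.primeFactors.card + 1) * k.totient := by
  have h1 := Nat.totient_mul_prod_primeFactors k
  have h2 := Tot_prod k.primeFactors.card k.primeFactors rfl
    (fun p hp => (Nat.prime_of_mem_primeFactors hp).two_le)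
  have hpos : 0 < ∏ p ∈ k.primeFactors, (p - 1) := by
    apply Finset.prod_pos
    intro p hp
    have := (Nat.prime_of_mem_primeFactors hp).two_le
    omega
  have h3 : k * ∏ p ∈ k.primeFactors, (p - 1) ≤
      ((k.primeFactors.card + 1) * k.totient) * ∏ p ∈ k.primeFactors, (p - 1) := by
    rw [← h1]
    calc k.totient * ∏ p ∈ k.primeFactors, p
        ≤ k.totient * ((k.primeFactors.card + 1) * ∏ p ∈ k.primeFactors, (p - 1)) :=
          Nat.mul_le_mul_left _ h2
      _ = _ := by ring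
  exact Nat.le_of_mul_le_mul_right h3 hpos

/-- `2 ^ ω(k) ≤ k`. -/
theorem Tot_two_pow (k : ℕ) (hk : 1 ≤ k) : 2 ^ k.primeFactors.card ≤ k := by
  calc 2 ^ k.primeFactors.card ≤ ∏ p ∈ k.primeFactors, p :=
        Finset.pow_card_le_prod _ _ _ (fun p hp => (Nat.prime_of_mem_primeFactors hp).two_le)
    _ ≤ k := Nat.le_of_dvd hk (Nat.prod_primeFactors_dvd k)

/-- `ω(k) ≤ 2 log k`. -/
theorem Tot_log (k : ℕ) (hk : 1 ≤ k) : (k.primeFactors.card : ℝ) ≤ 2 * Real.log k := by
  have h := Tot_two_pow k hk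
  have h' : ((2 : ℝ) ^ k.primeFactors.card) ≤ (k : ℝ) := by exact_mod_cast h
  have h2 := Real.log_le_log (by positivity) h'
  rw [Real.log_pow] at h2
  have h3 : (0.6931471803 : ℝ) < Real.log 2 := Real.log_two_gt_d9
  have h4 : (0 : ℝ) ≤ (k.primeFactors.card : ℝ) := Nat.cast_nonneg _
  nlinarith

/-- Item Tot. -/
theorem prf_Tot : S_Tot := by
  intro k hk
  have h1 : (k : ℝ) ≤ ((k.primeFactors.card : ℝ) + 1) * (k.totient : ℝ) := by
    exact_mod_cast Tot_omega k
  have h2 := Tot_log k hk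
  have h3 : (0 : ℝ) ≤ (k.totient : ℝ) := Nat.cast_nonneg _
  calc (k : ℝ) ≤ ((k.primeFactors.card : ℝ) + 1) * (k.totient : ℝ) := h1
    _ ≤ (1 + 2 * Real.log k) * k.totient := by
      apply mul_le_mul_of_nonneg_right _ h3
      linarith

end MPb51559.BG.B
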