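import Pool.Agent.Work.MP_b51559_nt.BG.B.Stmts

set_option autoImplicit false

/-!
# Bounded gaps, part B, item Tri: the trivial bound
-/

namespace MPb51559.BG.B

open Finset ArithmeticFunction
open Pool.Agent.Work.MP_122e00_nt (Prim)
open MPb51559.BG.A (psi)

theorem Tri_psi {f : ℕ} [NeZero f] (N : ℕ) (χ : DirichletCharacter ℂ f) :
    ‖psi (N : ℝ) χ‖ ≤ N * Real.log N := by
  rw [psi_nat]
  refine (norm_sum_le _ _).trans ?_
  have h : ∀ n ∈ Icc 1 N, ‖χ (n : ZMod f) * (vonMangoldt n : ℂ)‖ ≤ Real.log N := by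
    intro n hn
    rw [Finset.mem_Icc] at hn
    have hn0 : (0 : ℝ) < n := by exact_mod_cast hn.1
    have h1 : ‖χ (n : ZMod f)‖ ≤ 1 := DirichletCharacter.norm_le_one χ _
    have h2 : ‖(vonMangoldt n : ℂ)‖ ≤ Real.log N := by
      rw [Complex.norm_real, Real.norm_of_nonneg vonMangoldt_nonneg]
      refine vonMangoldt_le_log.trans (Real.log_le_log hn0 (by exact_mod_cast hn.2))
    rw [norm_mul]
    calc ‖χ (n : ZMod f)‖ * ‖(vonMangoldt n : ℂ)‖ ≤ 1 * ‖(vonMangoldt n : ℂ)‖ :=
          mul_le_mul_of_nonneg_right h1 (norm_nonneg _)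
      _ ≤ Real.log N := by rw [one_mul]; exact h2
  refine (Finset.sum_le_sum h).trans ?_
  simp

theorem Tri_card (f : ℕ) [NeZero f] : ((Prim f).card : ℝ) ≤ f.totient := by
  have : (Prim f).card ≤ f.totient := by
    calc (Prim f).card ≤ (Finset.univ : Finset (DirichletCharacter ℂ f)).card :=
          Finset.card_le_univ _
      _ = f.totient := by
          rw [Finset.card_univ, ← Nat.card_eq_fintype_card,
            DirichletCharacter.card_eq_totient_of_hasEnoughRootsOfUnity]
  exact_mod_cast this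

theorem prf_Tri : S_Tri := by
  intro N f
  have hN : 0 ≤ (N : ℝ) * Real.log N := by
    rcases Nat.eq_zero_or_pos N with h | h
    · rw [h]
      simp
    · exact mul_nonneg (Nat.cast_nonneg _) (Real.log_nonneg (by exact_mod_cast h))
  rcases Nat.eq_zero_or_pos f with h | h
  · rw [h]
    simpa using hN
  · have : NeZero f := ⟨h.ne'⟩
    have ht : (0 : ℝ) < f.totient := by exact_mod_cast Nat.totient_pos.2 h
    rw [div_le_iff₀ ht]
    unfold GG
    calc ∑ χ ∈ Prim f, ‖psi (N : ℝ) χ‖ ≤ ∑ χ ∈ Prim f, (N : ℝ) * Real.log N :=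
          Finset.sum_le_sum fun χ _ => Tri_psi N χ
      _ = (Prim f).card * ((N : ℝ) * Real.log N) := by simp
      _ ≤ f.totient * ((N : ℝ) * Real.log N) := mul_le_mul_of_nonneg_right (Tri_card f) hN
      _ = N * Real.log N * f.totient := by ring

end MPb51559.BG.B
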