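import Pool.Agent.Work.MP_b51559_nt.BG.B.Stmts

set_option autoImplicit false

/-!
# Bounded gaps, part B, item Wt: Bombieri-Vinogradov with the weights `m ^ ω(q)`
-/

namespace MPb51559.BG.B

open Finset ArithmeticFunction

theorem Wt_cauchy (s : Finset ℕ) (w e : ℕ → ℝ) (he : ∀ q ∈ s, 0 ≤ e q) :
    (∑ q ∈ s, w q * e q) ^ 2 ≤ (∑ q ∈ s, w q ^ 2 * e q) * ∑ q ∈ s, e q := by
  have h := Finset.sum_mul_sq_le_sq_mul_sq s (fun q => w q * √(e q)) (fun q => √(e q))
  have e1 : ∑ q ∈ s, w q * √(e q) * √(e q) = ∑ q ∈ s, w q * e q := by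
    refine Finset.sum_congr rfl fun q hq => ?_
    rw [mul_assoc, Real.mul_self_sqrt (he q hq)]
  have e2 : ∑ q ∈ s, (w q * √(e q)) ^ 2 = ∑ q ∈ s, w q ^ 2 * e q := by
    refine Finset.sum_congr rfl fun q hq => ?_
    rw [mul_pow, Real.sq_sqrt (he q hq)]
  have e3 : ∑ q ∈ s, √(e q) ^ 2 = ∑ q ∈ s, e q := by
    refine Finset.sum_congr rfl fun q hq => ?_
    rw [Real.sq_sqrt (he q hq)]
  rw [e1, e2, e3] at h
  exact h

theorem prf_Wt (hTh : StTh) (hOm : S_Om) (hEv : S_Ev) : StWt := by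
  intro m A hA
  obtain ⟨B, C, hB, hC, h⟩ := hTh (2 * A + 2 + (m ^ 2 : ℕ)) (by positivity)
  set D : ℝ := 5 * 2 ^ (m ^ 2) * C with hD
  have hD0 : 0 < D := by positivity
  refine ⟨B, √D, hB, Real.sqrt_pos.2 hD0, ?_⟩
  intro N Q hN hQ a ha
  have hN0 : (0 : ℝ) < N := by
    have : 0 < N := by omega
    exact_mod_cast this
  have hN1 : (1 : ℝ) ≤ N := by
    have : 1 ≤ N := by omega
    exact_mod_cast this
  have hlog1 : 1 ≤ Real.log N := by
    have h3 : (3 : ℝ) ≤ N := by exact_mod_cast hN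
    rw [Real.le_log_iff_exp_le hN0]
    have := Real.exp_one_lt_d9
    linarith
  have hl0 : 0 < Real.log N := by linarith
  have hQN : (Q : ℝ) ≤ N := by
    have h1 : (1 : ℝ) ≤ Real.log N ^ B := Real.one_le_rpow hlog1 hB.le
    have h2 : √(N : ℝ) / Real.log N ^ B ≤ √(N : ℝ) := div_le_self (Real.sqrt_nonneg _) h1
    have h3 : √(N : ℝ) ≤ N := by
      rw [Real.sqrt_le_left hN0.le]
      nlinarith
    linarith
  have hQN' : Q ≤ N := by exact_mod_cast hQN
  have hrhs : 0 ≤ √D * (N / Real.log N ^ A) := by positivity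
  rcases Nat.eq_zero_or_pos Q with hQ0 | hQ0
  · rw [hQ0]
    simpa using hrhs
  have hQ1 : (1 : ℝ) ≤ Q := by exact_mod_cast hQ0
  have hmain := h N Q hN hQ a ha
  set e : ℕ → ℝ := fun q => |theA N q (a q) - the0 N / q.totient| with he
  have he0 : ∀ q ∈ Icc 1 Q, 0 ≤ e q := fun q _ => abs_nonneg _
  have hC1 := Wt_cauchy (Icc 1 Q) (fun q => (m : ℝ) ^ q.primeFactors.card) e he0
  have hS2 : ∑ q ∈ Icc 1 Q, ((m : ℝ) ^ q.primeFactors.card) ^ 2 * e q ≤
      5 * N * Real.log N ^ 2 * (2 * Real.log N) ^ (m ^ 2) := by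
    have h1 : ∀ q ∈ Icc 1 Q, ((m : ℝ) ^ q.primeFactors.card) ^ 2 * e q ≤
        5 * N * Real.log N ^ 2 * (((m ^ 2 : ℕ) : ℝ) ^ q.primeFactors.card / q) := by
      intro q hq
      rw [Finset.mem_Icc] at hq
      have h2 := hEv N q (a q) hN hq.1 (hq.2.trans hQN')
      have e1 : ((m : ℝ) ^ q.primeFactors.card) ^ 2 = ((m ^ 2 : ℕ) : ℝ) ^ q.primeFactors.card := by
        push_cast
        rw [← pow_mul, ← pow_mul, mul_comm]
      rw [e1]
      calc ((m ^ 2 : ℕ) : ℝ) ^ q.primeFactors.card * e q ≤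
            ((m ^ 2 : ℕ) : ℝ) ^ q.primeFactors.card * (5 * (N / q) * Real.log N ^ 2) :=
            mul_le_mul_of_nonneg_left h2 (by positivity)
        _ = 5 * N * Real.log N ^ 2 * (((m ^ 2 : ℕ) : ℝ) ^ q.primeFactors.card / q) := by ring
    refine (Finset.sum_le_sum h1).trans ?_
    rw [← Finset.mul_sum]
    apply mul_le_mul_of_nonneg_left _ (by positivity)
    refine (hOm (m ^ 2) Q hQ0).trans ?_
    have hlogQ : Real.log Q ≤ Real.log N := Real.log_le_log (by linarith) hQN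
    have hlogQ0 : 0 ≤ Real.log Q := Real.log_nonneg hQ1
    exact pow_le_pow_left₀ (by linarith) (by linarith) _
  have hSe0 : 0 ≤ ∑ q ∈ Icc 1 Q, e q := Finset.sum_nonneg he0
  have hfin : (∑ q ∈ Icc 1 Q, (m : ℝ) ^ q.primeFactors.card * e q) ^ 2 ≤
      (√D * (N / Real.log N ^ A)) ^ 2 := by
    have e5 : (√D * (N / Real.log N ^ A)) ^ 2 =
        (5 * N * Real.log N ^ 2 * (2 * Real.log N) ^ (m ^ 2)) *
          (C * (N / Real.log N ^ (2 * A + 2 + (m ^ 2 : ℕ)))) := by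
      have e6 : Real.log N ^ (2 * A + 2 + (m ^ 2 : ℕ)) =
          (Real.log N ^ A) ^ 2 * Real.log N ^ 2 * Real.log N ^ (m ^ 2) := by
        rw [Real.rpow_add hl0, Real.rpow_add hl0, Real.rpow_natCast]
        congr 2
        · rw [← Real.rpow_natCast, ← Real.rpow_mul hl0.le]
          congr 1
          push_cast
          ring
        · exact Real.rpow_ofNat _ 2
      have hA0 : 0 < Real.log N ^ A := Real.rpow_pos_of_pos hl0 _
      rw [e6, mul_pow, Real.sq_sqrt hD0.le, hD, mul_pow]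
      field_simp
    rw [e5]
    refine hC1.trans ?_
    exact mul_le_mul hS2 hmain hSe0 (by positivity)
  exact (pow_le_pow_iff_left₀ (Finset.sum_nonneg fun q hq =>
    mul_nonneg (by positivity) (he0 q hq)) hrhs (by norm_num)).1 hfin

end MPb51559.BG.B
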