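import Pool.Agent.Work.MP_b51559_nt.BG.B.I_One
import Pool.Agent.Work.MP_b51559_nt.BG.B.I_Cop
import Pool.Agent.Work.MP_b51559_nt.BG.B.I_Tot
import Pool.Agent.Work.MP_b51559_nt.BG.B.I_Swp
import Pool.Agent.Work.MP_b51559_nt.BG.B.I_Sm
import Pool.Agent.Work.MP_b51559_nt.BG.B.I_BinS
import Pool.Agent.Work.MP_b51559_nt.BG.B.I_Bin
import Pool.Agent.Work.MP_b51559_nt.BG.B.I_LS
import Pool.Agent.Work.MP_b51559_nt.BG.B.I_IIb
import Pool.Agent.Work.MP_b51559_nt.BG.B.I_II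
import Pool.Agent.Work.MP_b51559_nt.BG.B.I_TI
import Pool.Agent.Work.MP_b51559_nt.BG.B.I_MV
import Pool.Agent.Work.MP_b51559_nt.BG.B.I_Blk
import Pool.Agent.Work.MP_b51559_nt.BG.B.I_Lg
import Pool.Agent.Work.MP_b51559_nt.BG.B.I_Tri
import Pool.Agent.Work.MP_b51559_nt.BG.B.I_Big
import Pool.Agent.Work.MP_b51559_nt.BG.B.I_BV
import Pool.Agent.Work.MP_b51559_nt.BG.B.I_PP
import Pool.Agent.Work.MP_b51559_nt.BG.B.I_Th
import Pool.Agent.Work.MP_b51559_nt.BG.B.I_Om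
import Pool.Agent.Work.MP_b51559_nt.BG.B.I_Ev
import Pool.Agent.Work.MP_b51559_nt.BG.B.I_Wt
import Pool.Agent.Work.MP_b51559_nt.BG.B.I_BVE

set_option autoImplicit false

/-!
# Bounded gaps, part B: assembly

The Bombieri-Vinogradov theorem, from the Siegel-Walfisz theorem (part A).
-/

namespace MPb51559.BG.B

theorem all_MV : S_MV := prf_MV (prf_II (prf_IIb (prf_Bin prf_BinS) prf_LS)) prf_TI

theorem all_Big : S_Big := prf_Big (prf_Lg (prf_Blk all_MV prf_Tot)) prf_Tri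

/-- the Bombieri-Vinogradov theorem for `psi`, from Siegel-Walfisz -/
theorem all_BV (hSW : MPb51559.BG.A.StSW) : StBV :=
  prf_BV prf_One prf_Cop (prf_Swp prf_Tot) (prf_Sm hSW) all_Big

/-- the Bombieri-Vinogradov theorem for `theta`, from Siegel-Walfisz -/
theorem all_Th (hSW : MPb51559.BG.A.StSW) : StTh := prf_Th (all_BV hSW) prf_PP

/-- with the weights `m^ω(q)` -/
theorem all_Wt (hSW : MPb51559.BG.A.StSW) : StWt := prf_Wt (all_Th hSW) prf_Om (prf_Ev prf_Tot)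

/-- PART B: `BG.BVE` from the Siegel-Walfisz theorem -/
theorem B_BVE (hSW : MPb51559.BG.A.StSW) (hABW : MPb51559.BG.A.StABW) : MPb51559.BG.BVE :=
  prf_BVE (all_Wt hSW) hABW

end MPb51559.BG.B
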