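import Pool.Agent.Work.MP_122e00_nt.BV3
import Pool.Agent.Work.MP_e0aece_nt.Bd.B02
import Pool.Agent.Work.MP_b51559_nt.BG.A.Defs

set_option autoImplicit false

/-!
# Bounded gaps, part B: the Bombieri-Vinogradov theorem (definitions)

Captain helper50; statements helper86. `N`, `Q`, `F`, `U`, `L` are natural numbers, `N ≥ 3` (so `log N ≥ 1`).

Inputs: the large sieve `mult_ls`, the primitive characters `Prim f`, `sum_divisors_swap`, `norm_chiA_le`
(`Work/MP_122e00_nt`), Vaughan's identity `claimC2`, the type I sum `claimC3` and the mean square of the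
divisor function `claimC4` (`Work/MP_e0aece_nt/Bd/B02.lean`), and the Siegel-Walfisz theorem `A.StSW` (part A).
-/

namespace MPb51559.BG.B

open Finset ArithmeticFunction
open Pool.Agent.Work.MP_122e00_nt (Prim)
open MPb51559.BG.A (psi)

/-- `psi(N)` -/
noncomputable def psi0 (N : ℕ) : ℝ := ∑ n ∈ Icc 1 N, vonMangoldt n

/-- `psi(N; q, a)` -/
noncomputable def psiA (N q a : ℕ) : ℝ := ∑ n ∈ (Icc 1 N).filter (fun n => n ≡ a [MOD q]), vonMangoldt n

/-- `theta(N)` -/
noncomputable def the0 (N : ℕ) : ℝ := ∑ p ∈ (Icc 1 N).filter Nat.Prime, Real.log p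

/-- `theta(N; q, a)` -/
noncomputable def theA (N q a : ℕ) : ℝ :=
  ∑ p ∈ (Icc 1 N).filter (fun p => p.Prime ∧ p ≡ a [MOD q]), Real.log p

/-- the sum of `Λ(n)` over the `n ≤ N` which are not coprime to `q` -/
noncomputable def cop (N q : ℕ) : ℝ := ∑ n ∈ (Icc 1 N).filter (fun n => ¬ Nat.Coprime n q), vonMangoldt n

/-- the sum of `|psi(N, χ)|` over the primitive characters modulo `f` -/
noncomputable def GG (N f : ℕ) : ℝ := ∑ χ ∈ Prim f, ‖psi (N : ℝ) χ‖

/-- the type II part of Vaughan's identity, see `ClaimC2` -/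
noncomputable def TII (N U : ℕ) (χ : ℕ → ℂ) : ℂ :=
  ∑ m ∈ Ioc U (N / U), (vonMangoldt m : ℂ) * χ m *
    ∑ n ∈ Ioc U (N / m), ((∑ d ∈ n.divisors.filter (fun d => U < d), (moebius d : ℤ) : ℤ) : ℂ) * χ n

/-- all primitive characters of conductor at most `F` -/
noncomputable def PX (F : ℕ) : Finset ((f : ℕ) × DirichletCharacter ℂ f) :=
  (Icc 1 F).sigma fun f => Prim f

/-- the values of a character at the natural numbers -/
noncomputable def cv (x : (f : ℕ) × DirichletCharacter ℂ f) (n : ℕ) : ℂ := x.2 (n : ZMod x.1)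

theorem psi_nat {q : ℕ} (N : ℕ) (χ : DirichletCharacter ℂ q) :
    psi (N : ℝ) χ = ∑ n ∈ Icc 1 N, χ (n : ZMod q) * (vonMangoldt n : ℂ) := by
  unfold psi
  rw [Nat.floor_natCast]

theorem GG_nonneg (N f : ℕ) : 0 ≤ GG N f := Finset.sum_nonneg fun _ _ => norm_nonneg _

end MPb51559.BG.B
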