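import Pool.Agent.Work.MP_b51559_nt.BG.B.Stmts

set_option autoImplicit false

/-!
# Item II: the type II sum from its dyadic blocks
-/

namespace MPb51559.BG.B

open Finset ArithmeticFunction

theorem II_log {N : ℕ} (hN : 3 ≤ N) : 1 ≤ Real.log N := by
  have h : (3 : ℝ) ≤ N := by exact_mod_cast hN
  rw [Real.le_log_iff_exp_le (by linarith)]
  exact Real.exp_one_lt_three.le.trans h

theorem II_card {N : ℕ} (hN : 3 ≤ N) : ((Nat.log 2 N + 1 : ℕ) : ℝ) ≤ 3 * Real.log N := by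
  have h1 : 1 ≤ Real.log N := II_log hN
  have h2 : 2 ^ Nat.log 2 N ≤ N := Nat.pow_log_le_self 2 (by omega)
  have h3 : (2 : ℝ) ^ Nat.log 2 N ≤ N := by exact_mod_cast h2
  have h4 : (Nat.log 2 N : ℝ) * Real.log 2 ≤ Real.log N := by
    have := Real.log_le_log (by positivity) h3
    rwa [Real.log_pow] at this
  have h5 : (0.6 : ℝ) ≤ Real.log 2 := by
    have := Real.log_two_gt_d9
    linarith
  have h6 : (0 : ℝ) ≤ (Nat.log 2 N : ℝ) := Nat.cast_nonneg _
  push_cast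
  nlinarith

theorem prf_II (hIIb : S_IIb) : S_II := by
  obtain ⟨C, hC, h⟩ := hIIb
  refine ⟨3 * C, by positivity, fun N U F hN hU hF hFN => ?_⟩
  have hL : 1 ≤ Real.log N := II_log hN
  have hcard := II_card hN
  set X : ℝ := N + F * (N / √(U : ℝ)) + (F : ℝ) ^ 2 * √(N : ℝ) with hX
  have hX0 : 0 ≤ X := by positivity
  have hpt : ∀ x ∈ PX F, ‖TII N U (cv x)‖ ≤ ∑ i ∈ range (Nat.log 2 N + 1),
      ‖∑ m ∈ (Ioc U (N / U)).filter (fun m => Nat.log 2 m = i),
      (vonMangoldt m : ℂ) * cv x m *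
        ∑ n ∈ Ioc U (N / m), ((∑ d ∈ n.divisors.filter (fun d => U < d), (moebius d : ℤ) : ℤ) : ℂ) *
          cv x n‖ := by
    intro x _
    unfold TII
    rw [← Finset.sum_fiberwise_of_maps_to (s := Ioc U (N / U)) (t := range (Nat.log 2 N + 1))
      (g := fun m => Nat.log 2 m)]
    · exact norm_sum_le _ _
    · intro m hm
      rw [mem_Ioc] at hm
      rw [mem_range, Nat.lt_succ_iff]
      exact Nat.log_mono_right (hm.2.trans (Nat.div_le_self N U))
  calc ∑ x ∈ PX F, ‖TII N U (cv x)‖ ≤ ∑ x ∈ PX F, ∑ i ∈ range (Nat.log 2 N + 1),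
      ‖∑ m ∈ (Ioc U (N / U)).filter (fun m => Nat.log 2 m = i),
      (vonMangoldt m : ℂ) * cv x m *
        ∑ n ∈ Ioc U (N / m), ((∑ d ∈ n.divisors.filter (fun d => U < d), (moebius d : ℤ) : ℤ) : ℂ) *
          cv x n‖ := Finset.sum_le_sum hpt
    _ = ∑ i ∈ range (Nat.log 2 N + 1), ∑ x ∈ PX F,
      ‖∑ m ∈ (Ioc U (N / U)).filter (fun m => Nat.log 2 m = i),
      (vonMangoldt m : ℂ) * cv x m *
        ∑ n ∈ Ioc U (N / m), ((∑ d ∈ n.divisors.filter (fun d => U < d), (moebius d : ℤ) : ℤ) : ℂ) *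
          cv x n‖ := Finset.sum_comm
    _ ≤ ∑ _i ∈ range (Nat.log 2 N + 1), C * Real.log N ^ 5 * X :=
      Finset.sum_le_sum fun i _ => h N U F i hN hU hF hFN
    _ = ((Nat.log 2 N + 1 : ℕ) : ℝ) * (C * Real.log N ^ 5 * X) := by
      rw [Finset.sum_const, card_range, nsmul_eq_mul]
    _ ≤ (3 * Real.log N) * (C * Real.log N ^ 5 * X) := by
      apply mul_le_mul_of_nonneg_right hcard
      positivity
    _ = 3 * C * Real.log N ^ 6 * X := by ring

end MPb51559.BG.B
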