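import Pool.Agent.Work.MP_b51559_nt.BG.B.Stmts

set_option autoImplicit false

/-! # Bounded gaps, part B, item Om: mean value of the weights -/

namespace MPb51559.BG.B

open Finset

theorem Om_pow (j q : ℕ) (hq : q ≠ 0) :
    ((j + 1 : ℕ) : ℝ) ^ q.primeFactors.card ≤ ∑ d ∈ q.divisors, (j : ℝ) ^ d.primeFactors.card := by
  have hpr : ∀ T ∈ q.primeFactors.powerset, ∀ p ∈ T, p.Prime := fun T hT p hp =>
    Nat.prime_of_mem_primeFactors (Finset.mem_powerset.1 hT hp)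
  have h1 : ((j + 1 : ℕ) : ℝ) ^ q.primeFactors.card =
      ∑ T ∈ q.primeFactors.powerset, (j : ℝ) ^ (∏ p ∈ T, p).primeFactors.card := by
    have h := Finset.sum_pow_mul_eq_add_pow (j : ℝ) 1 q.primeFactors
    push_cast
    rw [← h]
    refine Finset.sum_congr rfl fun T hT => ?_
    rw [one_pow, mul_one, Nat.primeFactors_prod (hpr T hT)]
  have hinj : Set.InjOn (fun T : Finset ℕ => ∏ p ∈ T, p) (q.primeFactors.powerset : Set (Finset ℕ)) := by
    intro S hS T hT h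
    have h2 : (∏ p ∈ S, p).primeFactors = (∏ p ∈ T, p).primeFactors := congrArg _ h
    rwa [Nat.primeFactors_prod (hpr S (by simpa using hS)),
      Nat.primeFactors_prod (hpr T (by simpa using hT))] at h2
  rw [h1, ← Finset.sum_image (f := fun d : ℕ => (j : ℝ) ^ d.primeFactors.card) hinj]
  refine Finset.sum_le_sum_of_subset_of_nonneg ?_ fun _ _ _ => by positivity
  intro d hd
  obtain ⟨T, hT, rfl⟩ := Finset.mem_image.1 hd
  refine Nat.mem_divisors.2 ⟨?_, hq⟩
  exact (Finset.prod_dvd_prod_of_subset _ _ _ (Finset.mem_powerset.1 hT)).trans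
    (Nat.prod_primeFactors_dvd q)

theorem Om_conv (g : ℕ → ℝ) (hg : ∀ d, 0 ≤ g d) (Q : ℕ) :
    ∑ q ∈ Icc 1 Q, (∑ d ∈ q.divisors, g d) / q ≤
      (∑ d ∈ Icc 1 Q, g d / d) * ∑ e ∈ Icc 1 Q, ((e : ℝ))⁻¹ := by
  rw [Finset.sum_mul_sum, ← Finset.sum_product']
  have h1 : ∑ q ∈ Icc 1 Q, (∑ d ∈ q.divisors, g d) / q =
      ∑ x ∈ (Icc 1 Q).sigma (fun q => q.divisors),
        g (x.2, x.1 / x.2).1 / ((x.2, x.1 / x.2).1 : ℝ) * (((x.2, x.1 / x.2).2 : ℕ) : ℝ)⁻¹ := by
    rw [Finset.sum_sigma]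
    refine Finset.sum_congr rfl fun q hq => ?_
    rw [Finset.sum_div]
    refine Finset.sum_congr rfl fun d hd => ?_
    have hq0 : q ≠ 0 := by have := (Finset.mem_Icc.1 hq).1; omega
    have hdq := Nat.dvd_of_mem_divisors hd
    have hd0 : (d : ℝ) ≠ 0 := by
      have : d ≠ 0 := fun h => by rw [h] at hdq; exact hq0 (Nat.eq_zero_of_zero_dvd hdq)
      exact_mod_cast this
    have hq1 : (q : ℝ) ≠ 0 := by exact_mod_cast hq0
    simp only
    rw [Nat.cast_div hdq hd0]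
    field_simp
  have hinj : Set.InjOn (fun x : (_ : ℕ) × ℕ => (x.2, x.1 / x.2))
      ((Icc 1 Q).sigma (fun q => q.divisors) : Set ((_ : ℕ) × ℕ)) := by
    rintro ⟨q, d⟩ hx ⟨q', d'⟩ hx' h
    have hx1 := Finset.mem_sigma.1 hx
    have hx1' := Finset.mem_sigma.1 hx'
    simp only [Prod.mk.injEq] at h
    obtain ⟨rfl, h2⟩ := h
    have e1 := Nat.div_mul_cancel (Nat.dvd_of_mem_divisors hx1.2)
    have e2 := Nat.div_mul_cancel (Nat.dvd_of_mem_divisors hx1'.2)
    simp only at e1 e2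
    have : q = q' := by rw [← e1, ← e2, h2]
    rw [this]
  rw [h1, ← Finset.sum_image (f := fun y : ℕ × ℕ => g y.1 / (y.1 : ℝ) * ((y.2 : ℕ) : ℝ)⁻¹) hinj]
  refine Finset.sum_le_sum_of_subset_of_nonneg ?_ fun _ _ _ =>
    mul_nonneg (div_nonneg (hg _) (Nat.cast_nonneg _)) (inv_nonneg.2 (Nat.cast_nonneg _))
  intro y hy
  obtain ⟨⟨q, d⟩, hx, rfl⟩ := Finset.mem_image.1 hy
  have hx1 := Finset.mem_sigma.1 hx
  have hq := Finset.mem_Icc.1 hx1.1
  have hd := Nat.dvd_of_mem_divisors hx1.2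
  simp only at hq hd
  have hd0 : 0 < d := Nat.pos_of_dvd_of_pos hd hq.1
  refine Finset.mem_product.2 ⟨Finset.mem_Icc.2 ⟨hd0, (Nat.le_of_dvd hq.1 hd).trans hq.2⟩,
    Finset.mem_Icc.2 ⟨?_, (Nat.div_le_self _ _).trans hq.2⟩⟩
  exact Nat.div_pos (Nat.le_of_dvd hq.1 hd) hd0

theorem prf_Om : S_Om := by
  intro j Q hQ
  induction j with
  | zero =>
    rw [pow_zero]
    have h1 : ∀ q ∈ Icc 1 Q, ((0 : ℕ) : ℝ) ^ q.primeFactors.card / q = if q = 1 then 1 else 0 := by
      intro q hq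
      split_ifs with h
      · rw [h]; simp
      · have h2 : q.primeFactors.card ≠ 0 := by
          intro h3
          have h4 := Finset.card_eq_zero.1 h3
          rw [Nat.primeFactors_eq_empty] at h4
          have := (Finset.mem_Icc.1 hq).1
          omega
        rw [Nat.cast_zero, zero_pow h2, zero_div]
    rw [Finset.sum_congr rfl h1, Finset.sum_ite_eq']
    split_ifs <;> norm_num
  | succ j ih =>
    have h1 : ∑ q ∈ Icc 1 Q, ((j + 1 : ℕ) : ℝ) ^ q.primeFactors.card / q ≤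
        ∑ q ∈ Icc 1 Q, (∑ d ∈ q.divisors, (j : ℝ) ^ d.primeFactors.card) / q := by
      refine Finset.sum_le_sum fun q hq => ?_
      have hq0 : q ≠ 0 := by have := (Finset.mem_Icc.1 hq).1; omega
      exact div_le_div_of_nonneg_right (Om_pow j q hq0) (Nat.cast_nonneg q)
    refine h1.trans ((Om_conv _ (fun d => by positivity) Q).trans ?_)
    have hlog : 0 ≤ Real.log Q := Real.log_nonneg (by exact_mod_cast hQ)
    have h2 : ∑ e ∈ Icc 1 Q, ((e : ℝ))⁻¹ ≤ 1 + Real.log Q := by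
      have h := harmonic_le_one_add_log Q
      rw [harmonic_eq_sum_Icc] at h
      push_cast at h
      exact h
    rw [pow_succ]
    exact mul_le_mul ih h2 (Finset.sum_nonneg fun _ _ => by positivity) (by positivity)

end MPb51559.BG.B
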