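import Pool.Agent.Work.MP_b51559_nt.BG.B.Stmts

set_option autoImplicit false

namespace MPb51559.BG.B

open Finset ArithmeticFunction DirichletCharacter
open Pool.Agent.Work.MP_122e00_nt (Prim mem_Prim char_eq_prim)
open MPb51559.BG.A (psi)

theorem One_L0 (n : ℕ) : 0 ≤ vonMangoldt n := vonMangoldt_nonneg

theorem One_cop0 (N E : ℕ) : 0 ≤ cop N E := Finset.sum_nonneg fun n _ => One_L0 n

theorem One_psiA {N E a : ℕ} [NeZero E] (ha : Nat.Coprime a E) :
    (E.totient : ℂ) * (psiA N E a : ℂ) =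
      ∑ χ : DirichletCharacter ℂ E, χ ((a : ZMod E)⁻¹) * psi (N : ℝ) χ := by
  classical
  have hu : IsUnit (a : ZMod E) := (ZMod.isUnit_iff_coprime a E).2 ha
  unfold psiA
  rw [Finset.sum_filter]
  push_cast
  rw [Finset.mul_sum]
  have h1 : ∀ n ∈ Icc 1 N, (E.totient : ℂ) *
      ((if n ≡ a [MOD E] then vonMangoldt n else 0 : ℝ) : ℂ) =
      ∑ χ : DirichletCharacter ℂ E,
        χ ((a : ZMod E)⁻¹) * (χ (n : ZMod E) * (vonMangoldt n : ℂ)) := by
    intro n _
    have h2 : ∑ χ : DirichletCharacter ℂ E,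
        χ ((a : ZMod E)⁻¹) * (χ (n : ZMod E) * (vonMangoldt n : ℂ)) =
        (∑ χ : DirichletCharacter ℂ E, χ ((a : ZMod E)⁻¹) * χ (n : ZMod E)) *
          (vonMangoldt n : ℂ) := by
      rw [Finset.sum_mul]
      exact Finset.sum_congr rfl fun χ _ => (mul_assoc _ _ _).symm
    rw [h2, sum_char_inv_mul_char_eq ℂ hu]
    by_cases h : n ≡ a [MOD E]
    · have h3 : (a : ZMod E) = (n : ZMod E) := ((ZMod.natCast_eq_natCast_iff _ _ _).2 h).symm
      rw [if_pos h, if_pos h3]
    · have h3 : ¬ (a : ZMod E) = (n : ZMod E) :=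
        fun h4 => h ((ZMod.natCast_eq_natCast_iff _ _ _).1 h4.symm)
      rw [if_neg h, if_neg h3]
      simp
  have h5 : ∑ n ∈ Icc 1 N, (E.totient : ℂ) *
      ((if n ≡ a [MOD E] then vonMangoldt n else 0 : ℝ) : ℂ) =
      ∑ χ : DirichletCharacter ℂ E, χ ((a : ZMod E)⁻¹) * psi (N : ℝ) χ := by
    rw [Finset.sum_congr rfl h1, Finset.sum_comm]
    refine Finset.sum_congr rfl fun χ _ => ?_
    rw [psi_nat, Finset.mul_sum]
  rw [← h5]

theorem One_one {N E : ℕ} [NeZero E] :
    psi (N : ℝ) (1 : DirichletCharacter ℂ E) = ((psi0 N - cop N E : ℝ) : ℂ) := by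
  classical
  rw [psi_nat]
  have h1 : psi0 N - cop N E = ∑ n ∈ (Icc 1 N).filter (fun n => Nat.Coprime n E), vonMangoldt n := by
    unfold psi0 cop
    rw [← Finset.sum_filter_add_sum_filter_not (Icc 1 N) (fun n => Nat.Coprime n E)]
    ring
  rw [h1, Finset.sum_filter]
  push_cast
  refine Finset.sum_congr rfl fun n _ => ?_
  by_cases hn : Nat.Coprime n E
  · rw [if_pos hn, MulChar.one_apply ((ZMod.isUnit_iff_coprime n E).2 hn), one_mul]
  · rw [if_neg hn, MulChar.map_nonunit _ (fun h => hn ((ZMod.isUnit_iff_coprime n E).1 h)), zero_mul,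
      Complex.ofReal_zero]

theorem One_prim {N E : ℕ} [NeZero E] (χ : DirichletCharacter ℂ E) :
    ‖psi (N : ℝ) χ‖ ≤ ‖psi (N : ℝ) χ.primitiveCharacter‖ + cop N E := by
  classical
  have hE : E = χ.conductor * (E / χ.conductor) :=
    (Nat.mul_div_cancel' χ.conductor_dvd_level).symm
  have h1 : psi (N : ℝ) χ.primitiveCharacter - psi (N : ℝ) χ =
      ∑ n ∈ (Icc 1 N).filter (fun n => ¬ Nat.Coprime n E),
        χ.primitiveCharacter (n : ZMod χ.conductor) * (vonMangoldt n : ℂ) := by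
    rw [psi_nat, psi_nat, ← Finset.sum_sub_distrib, Finset.sum_filter]
    refine Finset.sum_congr rfl fun n _ => ?_
    by_cases hn : Nat.Coprime n E
    · rw [if_neg (not_not.2 hn)]
      have hk : Nat.Coprime n (E / χ.conductor) := by
        rw [hE] at hn
        exact Nat.Coprime.coprime_mul_left_right hn
      rw [char_eq_prim χ _ hE n, if_pos hk, sub_self]
    · rw [if_pos hn, MulChar.map_nonunit χ (fun h => hn ((ZMod.isUnit_iff_coprime n E).1 h)),
        zero_mul, sub_zero]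
  have h2 : ‖psi (N : ℝ) χ.primitiveCharacter - psi (N : ℝ) χ‖ ≤ cop N E := by
    rw [h1]
    refine (norm_sum_le _ _).trans ?_
    refine Finset.sum_le_sum fun n _ => ?_
    rw [norm_mul, Complex.norm_real, Real.norm_of_nonneg (One_L0 n)]
    exact mul_le_of_le_one_left (One_L0 n) (DirichletCharacter.norm_le_one _ _)
  calc ‖psi (N : ℝ) χ‖ = ‖psi (N : ℝ) χ.primitiveCharacter -
        (psi (N : ℝ) χ.primitiveCharacter - psi (N : ℝ) χ)‖ := by
        congr 1
        ring
    _ ≤ ‖psi (N : ℝ) χ.primitiveCharacter‖ +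
        ‖psi (N : ℝ) χ.primitiveCharacter - psi (N : ℝ) χ‖ := norm_sub_le _ _
    _ ≤ _ := by linarith

theorem One_sum {N E : ℕ} [NeZero E] :
    ∑ χ ∈ (Finset.univ : Finset (DirichletCharacter ℂ E)).erase 1,
      ‖psi (N : ℝ) χ.primitiveCharacter‖ ≤ ∑ f ∈ E.divisors.erase 1, GG N f := by
  classical
  unfold GG
  rw [Finset.sum_sigma']
  have hinj : Set.InjOn (fun χ : DirichletCharacter ℂ E =>
      (⟨χ.conductor, χ.primitiveCharacter⟩ : (f : ℕ) × DirichletCharacter ℂ f))
      ((Finset.univ : Finset (DirichletCharacter ℂ E)).erase 1 :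
        Finset (DirichletCharacter ℂ E)) := by
    intro χ _ χ' _ h
    have key : ∀ (x : (f : ℕ) × DirichletCharacter ℂ f) (hx : x.1 ∣ E),
        x = ⟨χ'.conductor, χ'.primitiveCharacter⟩ → changeLevel hx x.2 = χ' := by
      rintro x hx rfl
      exact changeLevel_primitiveCharacter χ'
    have h2 := key ⟨χ.conductor, χ.primitiveCharacter⟩ χ.conductor_dvd_level h
    rw [← h2]
    exact (changeLevel_primitiveCharacter χ).symm
  have h3 := Finset.sum_image (f := fun x : (f : ℕ) × DirichletCharacter ℂ f =>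
        ‖psi (N : ℝ) x.2‖) hinj
  refine (le_of_eq h3.symm).trans ?_
  apply Finset.sum_le_sum_of_subset_of_nonneg
  · intro x hx
    rw [Finset.mem_image] at hx
    obtain ⟨χ, hχ, rfl⟩ := hx
    rw [Finset.mem_erase] at hχ
    rw [Finset.mem_sigma]
    refine ⟨?_, ?_⟩
    · rw [Finset.mem_erase, Nat.mem_divisors]
      refine ⟨?_, χ.conductor_dvd_level, NeZero.ne E⟩
      intro h
      exact hχ.1 (eq_one_iff_conductor_eq_one.mpr h)
    · rw [mem_Prim (conductor_ne_zero χ)]
      exact primitiveCharacter_isPrimitive χ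
  · intro _ _ _
    positivity

theorem prf_One : S_One := by
  classical
  intro N E a hE ha
  have : NeZero E := ⟨by omega⟩
  have hphi : (0 : ℝ) < E.totient := by exact_mod_cast Nat.totient_pos.2 hE
  have hcard : ((Finset.univ : Finset (DirichletCharacter ℂ E)).card : ℝ) = E.totient := by
    have h := DirichletCharacter.card_eq_totient_of_hasEnoughRootsOfUnity ℂ E
    rw [Nat.card_eq_fintype_card] at h
    rw [Finset.card_univ, h]
  have h1 : (E.totient : ℝ) * |psiA N E a - psi0 N / E.totient| =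
      ‖(E.totient : ℂ) * (psiA N E a : ℂ) - (psi0 N : ℂ)‖ := by
    rw [← abs_of_pos hphi, ← abs_mul, abs_of_pos hphi, ← Complex.ofReal_natCast, ← Complex.ofReal_mul,
      ← Complex.ofReal_sub, Complex.norm_real, Real.norm_eq_abs]
    congr 1
    field_simp
  rw [h1, One_psiA ha, ← Finset.add_sum_erase _ _ (Finset.mem_univ (1 : DirichletCharacter ℂ E)),
    One_one]
  have hu : IsUnit ((a : ZMod E)⁻¹) := by
    have h := (ZMod.isUnit_iff_coprime a E).2 ha
    obtain ⟨u, hu⟩ := h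
    rw [← hu, ZMod.inv_coe_unit]
    exact Units.isUnit _
  rw [MulChar.one_apply hu, one_mul]
  have h2 : ((psi0 N - cop N E : ℝ) : ℂ) + ∑ χ ∈ (Finset.univ : Finset (DirichletCharacter ℂ E)).erase 1,
      χ ((a : ZMod E)⁻¹) * psi (N : ℝ) χ - (psi0 N : ℂ) =
      -(cop N E : ℂ) + ∑ χ ∈ (Finset.univ : Finset (DirichletCharacter ℂ E)).erase 1,
      χ ((a : ZMod E)⁻¹) * psi (N : ℝ) χ := by
    push_cast
    ring
  rw [h2]
  refine (norm_add_le _ _).trans ?_
  rw [norm_neg, Complex.norm_real, Real.norm_of_nonneg (One_cop0 N E)]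
  have h3 : ‖∑ χ ∈ (Finset.univ : Finset (DirichletCharacter ℂ E)).erase 1,
      χ ((a : ZMod E)⁻¹) * psi (N : ℝ) χ‖ ≤
      ∑ χ ∈ (Finset.univ : Finset (DirichletCharacter ℂ E)).erase 1,
        (‖psi (N : ℝ) χ.primitiveCharacter‖ + cop N E) := by
    refine (norm_sum_le _ _).trans (Finset.sum_le_sum fun χ _ => ?_)
    rw [norm_mul]
    refine (mul_le_of_le_one_left (norm_nonneg _) (DirichletCharacter.norm_le_one _ _)).trans ?_
    exact One_prim χ
  rw [Finset.sum_add_distrib, Finset.sum_const, nsmul_eq_mul] at h3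
  have h4 : (((Finset.univ : Finset (DirichletCharacter ℂ E)).erase 1).card : ℝ) =
      E.totient - 1 := by
    rw [Finset.card_erase_of_mem (Finset.mem_univ _)]
    have h5 : 1 ≤ (Finset.univ : Finset (DirichletCharacter ℂ E)).card :=
      Finset.card_pos.2 ⟨1, Finset.mem_univ _⟩
    rw [Nat.cast_sub h5, hcard, Nat.cast_one]
  rw [h4] at h3
  have h6 := One_sum (N := N) (E := E)
  have h7 := One_cop0 N E
  nlinarith [h3, h6]

end MPb51559.BG.B
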