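import Pool.Agent.Work.MP_b51559_nt.BG.B.Defs
import Pool.Agent.Work.MP_b51559_nt.BG.Defs

set_option autoImplicit false

/-!
# Bounded gaps, part B: the Bombieri-Vinogradov theorem (statements)

Each docstring is the complete proof. The items are independent: item files take the other statements
as hypotheses. `log N ≥ 1` for `N ≥ 3`.

Plan. `S_One`, `S_Cop`, `S_Swp` reduce the sum over the moduli to the sum of `GG N f / φ(f)`,
`2 ≤ f ≤ Q`. Small `f` (at most a power of `log N`): `S_Sm` (Siegel-Walfisz). Large `f`: Vaughan's identity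
with the parameter `U` = a power of `log N`; type I sums are bounded trivially (`|∑ χ| ≤ f`), type II sums by
the large sieve (`S_LS`), where the condition `m n ≤ N` is removed with the binary digits of `N / m`
(`S_BinS`, `S_Bin`).
-/

namespace MPb51559.BG.B

open Finset ArithmeticFunction
open Pool.Agent.Work.MP_122e00_nt (Prim)
open MPb51559.BG.A (psi)

/-! ## I. Reduction to primitive characters -/

/-- Item One. Proof. By `DirichletCharacter.sum_char_inv_mul_char_eq` `φ(E) psi(N; E, a)` is the sum of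
`χ(a⁻¹) psi(N, χ)` over all characters modulo `E` (compare `cnt_eq` in `MP_122e00_nt/BV1.lean`). The principal
character contributes `psi(N) - cop N E`. Let `χ ≠ 1` and let `ψ` be the primitive character of conductor `f`
which induces `χ`. `χ(n) = ψ(n)` for `(n, E) = 1` and `χ(n) = 0` otherwise
(`primitiveCharacter_apply_of_isCoprime`), so `|psi(N, χ) - psi(N, ψ)| ≤ cop N E`. The map
`χ ↦ (f, ψ)` is injective with values in the pairs with `f ∣ E`, `f ≠ 1`, `ψ ∈ Prim f` (see the proof of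
`sum_nonprincipal_le` in the same file). There are `φ(E)` characters, so the total error is at most
`φ(E) cop N E`. -/
def S_One : Prop :=
  ∀ N E a : ℕ, 1 ≤ E → Nat.Coprime a E →
    (E.totient : ℝ) * |psiA N E a - psi0 N / E.totient| ≤
      ∑ f ∈ E.divisors.erase 1, GG N f + E.totient * cop N E

/-- Item Cop. Proof. `Λ(n) ≠ 0` and `(n, E) > 1` mean `n = p ^ j` with a prime `p ∣ E`, `j ≥ 1`, `p ^ j ≤ N`; the
sum over `j` is at most `⌊log N / log p⌋ log p ≤ log N` (`Nat.log p N * Real.log p ≤ Real.log N`), so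
`cop N E ≤ ω(E) log N`, and `2 ^ ω(E) ≤ E`, so `ω(E) ≤ log E / log 2 ≤ 2 log E`. -/
def S_Cop : Prop :=
  ∀ N E : ℕ, 1 ≤ N → 1 ≤ E → cop N E ≤ 2 * Real.log E * Real.log N

/-- Item Tot. Proof. For a finite set `S` of integers `≥ 2` one has `∏ p ≤ (|S| + 1) ∏ (p - 1)`: induction,
removing the largest element `p ≥ |S| + 1`, `p |S| ≤ (|S| + 1)(p - 1)`. With
`Nat.totient_mul_prod_primeFactors` (`φ(k) ∏ p = k ∏ (p - 1)`) this gives `k ≤ (ω(k) + 1) φ(k)`, and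
`ω(k) ≤ log k / log 2 ≤ 2 log k` (`2 ^ ω(k) ≤ k`). -/
def S_Tot : Prop :=
  ∀ k : ℕ, 1 ≤ k → (k : ℝ) ≤ (1 + 2 * Real.log k) * k.totient

/-- Item Swp (from Tot). Proof. `φ(f) φ(k) ≤ φ(f k)` (`Nat.totient_super_multiplicative`), so the left side is
at most the sum over `E` and `f` of `G f / (φ(f) φ(E / f))`; `sum_divisors_swap` (`MP_122e00_nt/BV3.lean`) with
`G f k / (φ(f) φ(k))`; the sum of `1 / φ(k) ≤ (1 + 2 log Q) / k` over `k ≤ Q` is at most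
`(1 + 2 log Q)(1 + log Q)` (`harmonic_le_one_add_log`). -/
def S_Swp : Prop :=
  ∀ (G : ℕ → ℝ) (Q : ℕ), (∀ f, 0 ≤ G f) → 1 ≤ Q →
    ∑ E ∈ Icc 1 Q, (1 / (E.totient : ℝ)) * ∑ f ∈ E.divisors.erase 1, G f ≤
      (1 + 2 * Real.log Q) * (1 + Real.log Q) * ∑ f ∈ Icc 2 Q, G f / f.totient

/-- Item Sm (from `A.StSW`). Proof. A primitive character modulo `f ≥ 2` is not principal
(`eq_one_iff_conductor_eq_one`), and there are at most `φ(f)` characters modulo `f` (see `small_sum` in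
`MP_122e00_nt/BV4.lean`). `A.StSW` with the exponents `D` and `A + D` gives `GG N f / φ(f) ≤ C N / (log N)^(A + D)` for
`f ≤ L ≤ (log N)^D`; sum over at most `L` values of `f`. -/
def S_Sm : Prop :=
  ∀ A D : ℝ, 0 < A → 0 < D → ∃ C : ℝ, 0 < C ∧ ∀ N L : ℕ, 3 ≤ N → (L : ℝ) ≤ Real.log N ^ D →
    ∑ f ∈ Icc 2 L, GG N f / f.totient ≤ C * (N / Real.log N ^ A)

/-! ## II. Bilinear sums with a threshold -/

/-- Item BinS: binary digits. Proof. Let `s l = 2 ^ l (t / 2 ^ l)`. Then `s 0 = t`, `s L = 0`, and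
`s l = s (l + 1) + 2 ^ l ((t / 2 ^ l) % 2)` (`Nat.div_div_eq_div_mul`, `Nat.div_add_mod`). So `range t` is the
disjoint union of the intervals `Ico (s (l + 1)) (s l)`, `l < L` (induction on `L`, or
`Finset.sum_range_by_parts`-like telescoping of `S(s l) - S(s (l + 1))`, `S u = ∑_{k < u} f k`,
`Finset.sum_Ico_eq_sub`), which are empty if the digit is `0` and
`Ico (s (l + 1)) (s (l + 1) + 2 ^ l)` if the digit is `1`. -/
def S_BinS : Prop :=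
  ∀ (t L : ℕ) (f : ℕ → ℂ), t < 2 ^ L →
    ∑ k ∈ range t, f k = ∑ l ∈ range L, if (t / 2 ^ l) % 2 = 1 then
      ∑ k ∈ Ico (2 ^ (l + 1) * (t / 2 ^ (l + 1))) (2 ^ (l + 1) * (t / 2 ^ (l + 1)) + 2 ^ l), f k else 0

/-- Item Bin (from BinS). Proof. By BinS for `t = T m` the inner double sum is the sum over `l < L` of
`∑_j A_j(x) B_j(x)`, where for fixed `l`, `A_j(x) = ∑ a m χ x m` over the `m < X` with `(T m / 2 ^ l) % 2 = 1` and
`T m / 2 ^ (l + 1) = j`, and `B_j(x) = ∑ b k χ x k` over the `k < Y` in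
`Ico (2 ^ (l + 1) j) (2 ^ (l + 1) j + 2 ^ l)` (if there is such an `m` then the upper end is at most
`T m ≤ Y`: `2 ^ (l + 1) j + 2 ^ l = 2 ^ l (T m / 2 ^ l) ≤ T m`), `j ≤ Y`. For fixed `l`, Cauchy's inequality over the pairs
`(x, j)`: `∑_x ∑_j |A_j| |B_j| ≤ √(∑_j ∑_x |A_j|²) √(∑_j ∑_x |B_j|²)`; the large sieve hypothesis with
`c = a` restricted to the set of `A_j` resp. `c = b` restricted to the set of `B_j`, and these sets are disjoint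
for different `j`, so `∑_j ∑_x |A_j|² ≤ (X + Δ) ∑ |a|²` and `∑_j ∑_x |B_j|² ≤ (Y + Δ) ∑ |b|²`. -/
def S_Bin : Prop :=
  ∀ (κ : Type) (S : Finset κ) (χ : κ → ℕ → ℂ) (Δ : ℝ), 0 ≤ Δ →
    (∀ (X : ℕ) (c : ℕ → ℂ), ∑ x ∈ S, ‖∑ n ∈ range X, c n * χ x n‖ ^ 2 ≤
      (X + Δ) * ∑ n ∈ range X, ‖c n‖ ^ 2) →
    ∀ (a b : ℕ → ℂ) (X Y L : ℕ) (T : ℕ → ℕ), (∀ m, T m ≤ Y) → Y < 2 ^ L →
      ∑ x ∈ S, ‖∑ m ∈ range X, a m * χ x m * ∑ k ∈ range (T m), b k * χ x k‖ ≤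
        L * (√((X + Δ) * ∑ m ∈ range X, ‖a m‖ ^ 2) * √((Y + Δ) * ∑ k ∈ range Y, ‖b k‖ ^ 2))

/-- Item LS. Proof. `mult_ls` (`MP_122e00_nt/LSMult.lean`, `Finset.sum_sigma`), and
`harmonic (F ^ 2) ≤ 1 + log (F ^ 2) = 1 + 2 log F` (`harmonic_le_one_add_log`). -/
def S_LS : Prop :=
  ∀ (F : ℕ), 1 ≤ F → ∀ (X : ℕ) (c : ℕ → ℂ),
    ∑ x ∈ PX F, ‖∑ n ∈ range X, c n * cv x n‖ ^ 2 ≤
      (X + (F : ℝ) ^ 2 * (1 + 2 * Real.log F)) * ∑ n ∈ range X, ‖c n‖ ^ 2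

/-- Item IIb (from Bin, LS): one dyadic block of the type II sum. `a m = Λ(m)` for `U < m ≤ N / U`,
`2 ^ i ≤ m < 2 ^ (i + 1)`, and `0` otherwise; `b k` = the sum of `μ(d)` over `d ∣ k`, `d > U`, for `k > U`, and `0`
otherwise; `T m = N / m + 1` if `a m ≠ 0` and `T m = 0` otherwise. Proof. If there is no `m` with
`U < m ≤ N / U`, `2 ^ i ≤ m < 2 ^ (i + 1)` the sum is zero. Otherwise `2 ^ i ≤ N / U` and `U < 2 ^ (i + 1)`. Put
`X = 2 ^ (i + 1)`, `Y = N / 2 ^ i + 1`, so `X ≤ 2 N / U`, `Y ≤ 2 N / 2 ^ i ≤ 4 N / U` and `X Y ≤ 4 N`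
(real divisions), `Y < 2 ^ L` with `L = Nat.log 2 (2 N) + 1 ≤ 4 log N`, `Δ = F² (1 + 2 log F) ≤ 3 F² log N`.
`∑_{m < X} |a m|² ≤ X log² N` (`vonMangoldt_le_log`), `|b k| ≤ d(k)`,
`∑_{k < Y} |b k|² ≤ Y (1 + log Y)³ ≤ 27 Y log³ N` (`claimC4`; `log Y ≤ log (2 N) ≤ 2 log N`). So by Bin the sum
is at most `4 log N √27 (log N)^(5/2) √(X Y) √((X + Δ)(Y + Δ))`, and
`(X + Δ)(Y + Δ) ≤ 4 N + 6 Δ N / U + Δ²`, so `√(X Y) √((X + Δ)(Y + Δ)) ≤ 2 √N (2 √N + 3 √(Δ N / U) + Δ)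
≤ C (N + F N √(log N) / √U + F² √N log N)`. Total exponent of the logarithm at most `1 + 5/2 + 1 ≤ 5`. -/
def S_IIb : Prop :=
  ∃ C : ℝ, 0 < C ∧ ∀ N U F i : ℕ, 3 ≤ N → 1 ≤ U → 1 ≤ F → F ≤ N →
    ∑ x ∈ PX F, ‖∑ m ∈ (Ioc U (N / U)).filter (fun m => Nat.log 2 m = i),
      (vonMangoldt m : ℂ) * cv x m *
        ∑ n ∈ Ioc U (N / m), ((∑ d ∈ n.divisors.filter (fun d => U < d), (moebius d : ℤ) : ℤ) : ℂ) *
          cv x n‖ ≤
      C * Real.log N ^ 5 * (N + F * (N / √(U : ℝ)) + (F : ℝ) ^ 2 * √(N : ℝ))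

/-- Item II (from IIb): the type II sum. Proof. Split the sum over `m` according to `Nat.log 2 m ≤ Nat.log 2 N`
(`Finset.sum_fiberwise_of_maps_to`); there are `Nat.log 2 N + 1 ≤ 3 log N` blocks. -/
def S_II : Prop :=
  ∃ C : ℝ, 0 < C ∧ ∀ N U F : ℕ, 3 ≤ N → 1 ≤ U → 1 ≤ F → F ≤ N →
    ∑ x ∈ PX F, ‖TII N U (cv x)‖ ≤
      C * Real.log N ^ 6 * (N + F * (N / √(U : ℝ)) + (F : ℝ) ^ 2 * √(N : ℝ))

/-- Item TI: the type I sums. Proof. `claimC2` for `χ(n) = ψ(n mod f)` (completely multiplicative, `χ(1) = 1`):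
`psi(N, ψ) - TII` is the sum of three terms. `|∑_{n ≤ U} Λ χ| ≤ U log N`. For all `a ≤ b` one has
`|∑_{a < n ≤ b} χ(n)| ≤ f` (`norm_chiA_le` with `k = 1`; it is in `MP_122e00_nt/Bd/B37.lean`), so the second
term is at most `U 2 f log N` (`claimC3`) and the third at most
`∑_{d ≤ U} ∑_{e ≤ U} Λ(e) f ≤ U U log N f`. The sum is at most `f log N (U + 2 U + U²) ≤ 4 f U² log N`. -/
def S_TI : Prop :=
  ∀ (N U f : ℕ) (ψ : DirichletCharacter ℂ f), 1 ≤ f → ψ ≠ 1 → 3 ≤ N → 1 ≤ U → U ≤ N →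
    ‖psi (N : ℝ) ψ - TII N U (fun n => ψ (n : ZMod f))‖ ≤ 4 * f * (U : ℝ) ^ 2 * Real.log N

/-- Item MV (from II, TI): the mean value theorem. Proof. `GG N f ≤ ∑_{ψ ∈ Prim f} (|TII| + 4 f U² log N)`; the
first part is at most the sum over `PX F` (`Finset.sum_sigma`, `Icc 2 F ⊆ Icc 1 F`), the second part is at most
`φ(f) 4 f U² log N ≤ 4 F² U² log N` for each of the at most `F` values of `f` (a primitive character modulo
`f ≥ 2` is not `1`). -/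
def S_MV : Prop :=
  ∃ C : ℝ, 0 < C ∧ ∀ N U F : ℕ, 3 ≤ N → 1 ≤ U → U ≤ N → 1 ≤ F → F ≤ N →
    ∑ f ∈ Icc 2 F, GG N f ≤
      C * Real.log N ^ 6 * (N + F * (N / √(U : ℝ)) + (F : ℝ) ^ 2 * √(N : ℝ)) +
        4 * (F : ℝ) ^ 3 * (U : ℝ) ^ 2 * Real.log N

/-! ## III. Large conductors -/

/-- Item Blk (from MV, Tot): a dyadic block of conductors. Proof. If the block is not empty put
`F = 2 ^ (j + 1)`, so `L < F ≤ 2 Q ≤ N` and `F / 2 ≤ f < F` for all `f` of the block, and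
`1 / φ(f) ≤ (1 + 2 log f) / f ≤ 3 log N * 2 / F` (Tot). MV gives at most
`(6 log N / F)(C log⁶ N (N + F N / √U + F² √N) + 4 F³ U² log N)
≤ 6 C log⁷ N (N / L + N / √U + 2 Q √N) + 96 Q² U² log² N`. -/
def S_Blk : Prop :=
  ∃ C : ℝ, 0 < C ∧ ∀ N U Q L j : ℕ, 3 ≤ N → 1 ≤ U → U ≤ N → 2 * Q ≤ N → 1 ≤ L →
    ∑ f ∈ (Icc 2 Q).filter (fun f => L < f ∧ Nat.log 2 f = j), GG N f / f.totient ≤
      C * Real.log N ^ 7 * (N / L + N / √(U : ℝ) + Q * √(N : ℝ)) +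
        C * (Q : ℝ) ^ 2 * (U : ℝ) ^ 2 * Real.log N ^ 2

/-- Item Lg (from Blk): all large conductors. Proof. As `large_sum` in `MP_122e00_nt/BV4.lean`: at most
`Nat.log 2 Q + 1 ≤ 3 log N` blocks. -/
def S_Lg : Prop :=
  ∃ C : ℝ, 0 < C ∧ ∀ N U Q L : ℕ, 3 ≤ N → 1 ≤ U → U ≤ N → 2 * Q ≤ N → 1 ≤ L →
    ∑ f ∈ (Icc 2 Q).filter (fun f => L < f), GG N f / f.totient ≤
      C * Real.log N ^ 8 * (N / L + N / √(U : ℝ) + Q * √(N : ℝ)) +
        C * (Q : ℝ) ^ 2 * (U : ℝ) ^ 2 * Real.log N ^ 3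

/-- Item Tri: the trivial bound. Proof. `|psi(N, χ)| ≤ ∑_{n ≤ N} Λ(n) ≤ N log N`, and there are at most `φ(f)`
characters modulo `f`; `f = 0` gives `Prim 0 = ∅`. -/
def S_Tri : Prop := ∀ N f : ℕ, GG N f / f.totient ≤ N * Real.log N

/-- Item Big (from Lg, Tri). Proof. `D = A + 8`, `B = 3 A + 20`, `U = ⌈(log N) ^ (2 A + 16)⌉`, so
`√U ≥ (log N) ^ (A + 8)` and `U ≤ 2 (log N) ^ (2 A + 16)`. There is `N₀ = N₀(A)` such that `U ≤ N` for `N ≥ N₀`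
(`isLittleO_log_rpow_atTop` and powers), and `2 Q ≤ 2 √N / log N ≤ N` for `N ≥ 4`. For `N ≥ N₀` Lg gives at most
`C log⁸ N (N (log N)^(-A-8) + N (log N)^(-A-8) + N (log N)^(-B)) + 4 C N (log N)^(-2B + 4A + 32 + 3)`, and
`B ≥ A + 8`, `2 B = 6 A + 40 ≥ 5 A + 35`. For `3 ≤ N < N₀` the sum is at most `Q N log N ≤ N₀³` (Tri,
`Q ≤ √N ≤ N`) and `N / (log N)^A ≥ 1 / (log N₀)^A`. -/
def S_Big : Prop :=
  ∀ A : ℝ, 0 < A → ∃ B D C : ℝ, 0 < B ∧ 0 < D ∧ 0 < C ∧ ∀ N Q L : ℕ, 3 ≤ N →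
    (Q : ℝ) ≤ √(N : ℝ) / Real.log N ^ B → Real.log N ^ D ≤ L →
    ∑ f ∈ (Icc 2 Q).filter (fun f => L < f), GG N f / f.totient ≤ C * (N / Real.log N ^ A)

/-! ## IV. The theorem -/

/-- THE BOMBIERI-VINOGRADOV THEOREM for `psi`. Item BV (from One, Cop, Swp, Sm, Big). Proof. Divide One by
`φ(q)` and sum: the sum is at most `(1 + 2 log Q)(1 + log Q) ∑_{2 ≤ f ≤ Q} GG N f / φ(f) + Q 2 log Q log N`
(Swp, Cop; the case `Q = 0` is trivial). `log Q ≤ log N`, so the first factor is at most `6 log² N`. Use Big with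
`A + 2`, `L = ⌈(log N)^D⌉ ≤ 2 (log N)^D ≤ (log N)^(D + 8)` (as `1.098 ^ 8 ≥ 2`), and Sm with `A + 2`, `D + 8`:
`∑_{2 ≤ f ≤ Q} ≤ ∑_{2 ≤ f ≤ L} + ∑_{f ≤ Q, L < f}`. The last term is at most `2 √N log² N (log N)^(-B)`, and
`√N ≥ c_A (log N)^(A + 2)`, so it is at most `C N / (log N)^A`. -/
def StBV : Prop :=
  ∀ A : ℝ, 0 < A → ∃ B C : ℝ, 0 < B ∧ 0 < C ∧ ∀ N Q : ℕ, 3 ≤ N →
    (Q : ℝ) ≤ √(N : ℝ) / Real.log N ^ B → ∀ a : ℕ → ℕ, (∀ q ∈ Icc 1 Q, Nat.Coprime (a q) q) →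
    ∑ q ∈ Icc 1 Q, |psiA N q (a q) - psi0 N / q.totient| ≤ C * (N / Real.log N ^ A)

/-- Item PP: proper prime powers. Proof. `psi0 N - the0 N` is the sum of `log p` over `p ^ j ≤ N`, `j ≥ 2`; for each
prime `p ≤ √N` the sum over `j` is at most `⌊log N / log p⌋ log p ≤ log N`. (Mathlib has `Chebyshev.psi`,
`Chebyshev.theta` and estimates of the difference.) The same sum restricted to a residue class is smaller. -/
def S_PP : Prop :=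
  ∀ N : ℕ, 3 ≤ N → 0 ≤ psi0 N - the0 N ∧ psi0 N - the0 N ≤ √(N : ℝ) * Real.log N ∧
    ∀ q a : ℕ, 0 ≤ psiA N q a - theA N q a ∧ psiA N q a - theA N q a ≤ √(N : ℝ) * Real.log N

/-- THE BOMBIERI-VINOGRADOV THEOREM for `theta`. Item Th (from StBV, PP). Proof. Each term changes by at most
`2 √N log N`; with `B` replaced by `max B (A + 1)` the sum of these over `q ≤ Q` is at most
`2 Q √N log N ≤ 2 N / (log N)^A`. (Larger `B` makes the hypothesis on `Q` stronger.) -/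
def StTh : Prop :=
  ∀ A : ℝ, 0 < A → ∃ B C : ℝ, 0 < B ∧ 0 < C ∧ ∀ N Q : ℕ, 3 ≤ N →
    (Q : ℝ) ≤ √(N : ℝ) / Real.log N ^ B → ∀ a : ℕ → ℕ, (∀ q ∈ Icc 1 Q, Nat.Coprime (a q) q) →
    ∑ q ∈ Icc 1 Q, |theA N q (a q) - the0 N / q.totient| ≤ C * (N / Real.log N ^ A)

/-! ## V. Weights `m^ω(q)` -/

/-- Item Om. Proof. Induction on `j`; `j = 0`: only `q = 1` has `0 ^ ω(q) ≠ 0`. `(j + 1)^ω(q)` is the sum of `j^ω(d)`
over the divisors `d` of `q` with `(d, q / d) = 1` (binomial theorem on the set of prime factors: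
`Finset.sum_pow_mul_eq_add_pow`-like, `∑_{T ⊆ primeFactors q} j^|T|`, `d = ∏_{p ∈ T} p ^ v_p(q)`), so it is at most
`∑_{d ∣ q} j^ω(d)`, and `∑_{q ≤ Q} (1/q) ∑_{d ∣ q} j^ω(d) ≤ (∑_{d ≤ Q} j^ω(d) / d)(∑_{e ≤ Q} 1 / e)`.
Alternative: `∏_{p ∣ q} (1 + j) = ∑_{T ⊆ primeFactors q} j^|T|` and `d = ∏_{p ∈ T} p` (a squarefree divisor),
`(j + 1)^ω(q) = ∑_{d ∣ q, d squarefree} j^ω(d)`, which is simpler. -/
def S_Om : Prop :=
  ∀ j Q : ℕ, 1 ≤ Q → ∑ q ∈ Icc 1 Q, (j : ℝ) ^ q.primeFactors.card / q ≤ (1 + Real.log Q) ^ j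

/-- Item Ev (from Tot): the trivial bound for one term. Proof. At most `N / q + 1 ≤ 2 N / q` integers `n ≤ N` are in
a class modulo `q`, each with `log n ≤ log N`; `the0 N ≤ N log N` and `1 / φ(q) ≤ (1 + 2 log q) / q ≤ 3 log N / q`. -/
def S_Ev : Prop :=
  ∀ N q a : ℕ, 3 ≤ N → 1 ≤ q → q ≤ N →
    |theA N q a - the0 N / q.totient| ≤ 5 * (N / q) * Real.log N ^ 2

/-- THE BOMBIERI-VINOGRADOV THEOREM for `theta` with the weights `m^ω(q)`. Item Wt (from StTh, Om, Ev). Proof. Cauchy: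
with `e_q` the absolute value, `(∑ m^ω e)² ≤ (∑ m^(2ω) e)(∑ e)`, and
`∑ m^(2ω) e ≤ 5 N log² N ∑_{q ≤ Q} (m²)^ω(q) / q ≤ 5 N log² N (2 log N)^(m²)` (Ev, Om, `1 + log Q ≤ 2 log N`), and
StTh with the exponent `2 A + 2 + m²`. -/
def StWt : Prop :=
  ∀ (m : ℕ) (A : ℝ), 0 < A → ∃ B C : ℝ, 0 < B ∧ 0 < C ∧ ∀ N Q : ℕ, 3 ≤ N →
    (Q : ℝ) ≤ √(N : ℝ) / Real.log N ^ B → ∀ a : ℕ → ℕ, (∀ q ∈ Icc 1 Q, Nat.Coprime (a q) q) →
    ∑ q ∈ Icc 1 Q, (m : ℝ) ^ q.primeFactors.card * |theA N q (a q) - the0 N / q.totient| ≤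
      C * (N / Real.log N ^ A)

/-- PART B, main output: `BG.BVE` (Bombieri-Vinogradov with a smooth weight `w` and the divisor weight `c ^ ω(q)`).
Item BVE (from StWt, ABW). Proof.
`w'` is continuous and bounded, `w` is supported in `(9/8, 15/8)`, so for `n ≥ 1`, `n ≤ 2 x`:
`w(n/x) = - ∫_1^2 1[n ≤ u x] w'(u) du` (this is `A.StABW` in `BG/A/StmtsW.lean`, which may be used as a hypothesis
`h : A.StABW`; `Wt w` implies `Wc w`). Therefore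
`thW w x q a - thW w x 1 0 / φ(q) = - ∫_1^2 (theA ⌊u x⌋ q a - the0 ⌊u x⌋ / φ(q)) w'(u) du`
(ABW with `a n = log n` for `n` prime and `n ≡ a`, resp. `n` prime; `ZMod.natCast_eq_natCast_iff`; `ZMod 1` is a
subsingleton), and with `Q = ⌊x ^ (1/2 - δ)⌋` the weighted sum over `q ≤ Q` of the absolute values is at most
`sup |w'| * sup_{1 ≤ u ≤ 2} ∑_{q ≤ Q} c^ω(q) |theA ⌊u x⌋ q (a' q) - the0 ⌊u x⌋ / φ(q)|`, where
`a' q = a q` if `(a q, q) = 1` and `a' q = 1` otherwise (the difference is a linear combination of the functions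
`u ↦ 1[n ≤ u x]`, measurable and bounded; move the finite sum inside the integral with absolute values). For
`x ≥ x₀` and `1 ≤ u ≤ 2`, `N = ⌊u x⌋ ≥ x - 1`, `x ^ (1/2 - δ) ≤ √N / (log N)^B` (as `log N ≤ log (2 x)` and
`(log (2 x))^B = o(x ^ δ)`), so StWt with `m = c` and the exponent `A + 1` gives at most
`C N / (log N)^(A + 1) ≤ C' x / (log x)^(A + 1) ≤ x / (log x)^A` for large `x`. -/
def StBVE : Prop := MPb51559.BG.BVE

end MPb51559.BG.B
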